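import Mathlib
set_option autoImplicit false
set_option linter.unusedSectionVars false
set_option linter.unusedVariables false

/-! Intersection-closed families: closures and fibres. -/

open scoped Classical

namespace Run7.h695

open Finset

/-- a family of sets closed under intersections which contains the ground set -/
structure ClSys (X : Type) [Fintype X] (C : Finset X → Prop) : Prop where
  univ : C Finset.univ
  inter : ∀ A B, C A → C B → C (A ∩ B)

variable {X : Type} [Fintype X] {C : Finset X → Prop}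

/-- closure -/
noncomputable def cl (C : Finset X → Prop) (S : Finset X) : Finset X :=
  (Finset.univ.filter (fun U => C U ∧ S ⊆ U)).inf id

theorem ClSys.inf (hC : ClSys X C) (F : Finset (Finset X)) (hF : ∀ U ∈ F, C U) : C (F.inf id) := by
  refine Finset.inf_induction (p := C) hC.univ (fun a ha b hb => hC.inter a b ha hb) ?_
  exact hF

theorem ClSys.cl_mem (hC : ClSys X C) (S : Finset X) : C (cl C S) :=
  hC.inf _ fun U hU => (Finset.mem_filter.1 hU).2.1

theorem subset_cl (S : Finset X) : S ⊆ cl C S := by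
  unfold cl
  refine Finset.le_inf fun U hU => ?_
  exact (Finset.mem_filter.1 hU).2.2

theorem cl_le {S U : Finset X} (hU : C U) (h : S ⊆ U) : cl C S ⊆ U := by
  unfold cl
  exact Finset.inf_le (f := id) (Finset.mem_filter.2 ⟨Finset.mem_univ _, hU, h⟩)

theorem ClSys.cl_mono (hC : ClSys X C) {S T : Finset X} (h : S ⊆ T) : cl C S ⊆ cl C T :=
  cl_le (hC.cl_mem T) (h.trans (subset_cl T))

theorem ClSys.cl_eq (hC : ClSys X C) {S : Finset X} (h : C S) : cl C S = S :=
  (cl_le h (Finset.Subset.refl S)).antisymm (subset_cl S)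

/-- the closure of `S` with one more point -/
noncomputable def cp (C : Finset X → Prop) (S : Finset X) (x : X) : Finset X := cl C (insert x S)

theorem mem_cp (S : Finset X) (x : X) : x ∈ cp C S x := subset_cl _ (Finset.mem_insert_self _ _)

theorem sub_cp (S : Finset X) (x : X) : S ⊆ cp C S x :=
  (Finset.subset_insert x S).trans (subset_cl _)

theorem cp_le {S U : Finset X} {x : X} (hU : C U) (h : S ⊆ U) (hx : x ∈ U) : cp C S x ⊆ U :=
  cl_le hU (Finset.insert_subset hx h)

theorem ClSys.cp_mem (hC : ClSys X C) (S : Finset X) (x : X) : C (cp C S x) := hC.cl_mem _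

/-- divisibility of a single fibre -/
theorem ClSys.fib_one (hC : ClSys X C) {S : Finset X} (hS : C S) (q : ℕ) :
    ∀ (n : ℕ) (V : Finset X), V.card ≤ n → C V → S ⊆ V → V ≠ S →
      (∀ U, C U → S ⊆ U → U ⊆ V → U.card ≡ S.card [MOD q]) →
      q ∣ (Finset.univ.filter (fun x => x ∉ S ∧ cp C S x = V)).card := by
  intro n
  induction n with
  | zero =>
    intro V hn hV hSV hne _
    exfalso
    apply hne
    have h1 : V = ∅ := Finset.card_eq_zero.1 (by omega)
    subst h1
    exact (Finset.subset_empty.1 hSV).symm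
  | succ n ih =>
    intro V hn hV hSV hne hmod
    set t : Finset (Finset X) := Finset.univ.filter (fun U => C U ∧ S ⊆ U ∧ U ⊆ V ∧ U ≠ S) with ht
    have hmaps : ∀ x ∈ V \ S, cp C S x ∈ t := by
      intro x hx
      rw [Finset.mem_sdiff] at hx
      rw [ht, Finset.mem_filter]
      refine ⟨Finset.mem_univ _, hC.cp_mem _ _, sub_cp _ _, cp_le hV hSV hx.1, fun h => ?_⟩
      exact hx.2 (h ▸ mem_cp S x)
    have hcard := Finset.card_eq_sum_card_fiberwise hmaps
    have hfib : ∀ U ∈ t, ((V \ S).filter (fun x => cp C S x = U)).card =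
        (Finset.univ.filter (fun x => x ∉ S ∧ cp C S x = U)).card := by
      intro U hU
      rw [ht, Finset.mem_filter] at hU
      congr 1
      ext x
      simp only [Finset.mem_filter, Finset.mem_sdiff, Finset.mem_univ, true_and]
      constructor
      · rintro ⟨⟨_, a⟩, b⟩
        exact ⟨a, b⟩
      · rintro ⟨a, b⟩
        exact ⟨⟨hU.2.2.2.1 (b ▸ mem_cp S x), a⟩, b⟩
    rw [Finset.sum_congr rfl hfib] at hcard
    have hVt : V ∈ t := by
      rw [ht, Finset.mem_filter]
      exact ⟨Finset.mem_univ _, hV, hSV, Finset.Subset.refl _, hne⟩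
    rw [← Finset.add_sum_erase t _ hVt] at hcard
    have hdvd1 : q ∣ ∑ U ∈ t.erase V,
        (Finset.univ.filter (fun x => x ∉ S ∧ cp C S x = U)).card := by
      refine Finset.dvd_sum fun U hU => ?_
      rw [Finset.mem_erase, ht, Finset.mem_filter] at hU
      obtain ⟨hUV, _, hCU, hSU, hUV', hUS⟩ := hU
      have hlt : U.card < V.card := Finset.card_lt_card (hUV'.ssubset_of_ne hUV)
      exact ih U (by omega) hCU hSU hUS fun U' h1 h2 h3 => hmod U' h1 h2 (h3.trans hUV')
    have hdvd2 : q ∣ (V \ S).card := by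
      have h1 := hmod V hV hSV (Finset.Subset.refl _)
      have h2 : (V \ S).card = V.card - S.card := Finset.card_sdiff_of_subset hSV
      rw [h2]
      exact (Nat.modEq_iff_dvd' (Finset.card_le_card hSV)).1 h1.symm
    rw [hcard] at hdvd2
    exact (Nat.dvd_add_left hdvd1).1 hdvd2

/-- divisibility for a class of fibres -/
theorem ClSys.fib_dvd (hC : ClSys X C) {S : Finset X} (hS : C S) (q : ℕ) (Q : Finset X → Prop)
    (hQ : ∀ V, C V → S ⊆ V → V ≠ S → Q V →
      ∀ U, C U → S ⊆ U → U ⊆ V → U.card ≡ S.card [MOD q]) :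
    q ∣ (Finset.univ.filter (fun x => x ∉ S ∧ Q (cp C S x))).card := by
  set s := Finset.univ.filter (fun x => x ∉ S ∧ Q (cp C S x)) with hs
  set t : Finset (Finset X) := Finset.univ.filter (fun U => C U ∧ S ⊆ U ∧ U ≠ S ∧ Q U) with ht
  have hmaps : ∀ x ∈ s, cp C S x ∈ t := by
    intro x hx
    rw [hs, Finset.mem_filter] at hx
    rw [ht, Finset.mem_filter]
    exact ⟨Finset.mem_univ _, hC.cp_mem _ _, sub_cp _ _, fun h => hx.2.1 (h ▸ mem_cp S x), hx.2.2⟩
  rw [Finset.card_eq_sum_card_fiberwise hmaps]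
  refine Finset.dvd_sum fun U hU => ?_
  rw [ht, Finset.mem_filter] at hU
  obtain ⟨_, hCU, hSU, hne, hQU⟩ := hU
  have h1 : (s.filter (fun x => cp C S x = U)) =
      Finset.univ.filter (fun x => x ∉ S ∧ cp C S x = U) := by
    ext x
    simp only [hs, Finset.mem_filter, Finset.mem_univ, true_and]
    constructor
    · rintro ⟨⟨a, _⟩, b⟩
      exact ⟨a, b⟩
    · rintro ⟨a, b⟩
      exact ⟨⟨a, b ▸ hQU⟩, b⟩
  rw [h1]
  exact hC.fib_one hS q _ U le_rfl hCU hSU hne (hQ U hCU hSU hne hQU)

end Run7.h695
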