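import Pool.Agent.Run7.h695.Diag
set_option autoImplicit false
set_option linter.unusedSectionVars false
set_option linter.unusedVariables false

/-! Sizes in the model. -/

open scoped Classical

namespace Run7.h695

/-- restriction to a set of cells -/
noncomputable def rs (S : Finset (ℕ × ℕ)) (f : FF) : SG S :=
  ⟨fun i l => if (i, l) ∈ S then f i l else 0, fun i l h => by simp [h]⟩

theorem rs_inj {S : Finset (ℕ × ℕ)} {f g : FF} (hf : ∀ i l, (i, l) ∉ S → f i l = 0)
    (hg : ∀ i l, (i, l) ∉ S → g i l = 0) (h : rs S f = rs S g) : f = g := by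
  funext i l
  by_cases hS : (i, l) ∈ S
  · have := congrFun (congrFun (congrArg Subtype.val h) i) l
    simpa [rs, hS] using this
  · rw [hf i l hS, hg i l hS]

theorem ZM2 {a b : ZMod 2} (h : a + b = 0) : a = b := by
  have : a = -b := eq_neg_of_add_eq_zero_left h
  rw [this, ZModModule.neg_eq_self]

theorem ZM2' (a : ZMod 2) : a + a = 0 := by
  have : -a = a := ZModModule.neg_eq_self a
  nth_rewrite 1 [← this]
  exact neg_add_cancel a

section

variable {p mn msM msN : ℕ → ℕ} {H h r : ℕ} (D : MD p mn msM msN H h r)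

theorem MD.card_M : Fintype.card (SG (cells p 0 H)) = 2 ^ ∑ l ∈ Finset.Ico 0 H, p l := by
  rw [card_SG, card_cells]

/-- inclusion of functions with smaller support -/
noncomputable def inc {S T : Finset (ℕ × ℕ)} (hST : S ⊆ T) (f : SG S) : SG T :=
  ⟨f.1, fun i l hi => f.2 i l fun h => hi (hST h)⟩

theorem inc_inj {S T : Finset (ℕ × ℕ)} (hST : S ⊆ T) : Function.Injective (inc hST) := by
  intro f g hfg
  apply Subtype.ext
  exact congrArg (fun a : SG T => a.1) hfg

theorem MD.ker_aux (k : ℕ) (hk : k ≤ H) (Q : SG (cells p 0 H) → Prop)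
    (hQ : ∀ a, Q a ↔ ∀ i l, k ≤ l → a.1 i l = 0) :
    (Finset.univ.filter Q).card = 2 ^ ∑ l ∈ Finset.Ico 0 k, p l := by
  rw [← card_cells, ← card_SG]
  have hsub : cells p 0 k ⊆ cells p 0 H := by
    rintro ⟨i, l⟩ hi
    rw [mem_cells] at hi ⊢
    omega
  apply le_antisymm
  · rw [← Finset.card_univ]
    refine Finset.card_le_card_of_injOn (fun a => rs (cells p 0 k) a.1)
      (fun _ _ => Finset.mem_univ _) ?_
    intro a ha b hb hab
    have ha' := (hQ a).1 (Finset.mem_filter.1 ha).2
    have hb' := (hQ b).1 (Finset.mem_filter.1 hb).2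
    apply Subtype.ext
    refine rs_inj ?_ ?_ hab
    · intro i l hil
      by_cases hl : k ≤ l
      · exact ha' i l hl
      · apply a.2
        rw [mem_cells] at hil ⊢
        omega
    · intro i l hil
      by_cases hl : k ≤ l
      · exact hb' i l hl
      · apply b.2
        rw [mem_cells] at hil ⊢
        omega
  · rw [← Finset.card_univ]
    refine Finset.card_le_card_of_injOn (inc hsub) ?_ (fun a _ b _ hab => inc_inj hsub hab)
    intro a _
    rw [Finset.mem_coe, Finset.mem_filter]
    refine ⟨Finset.mem_univ _, (hQ _).2 fun i l hl => ?_⟩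
    change a.1 i l = 0
    apply a.2
    rw [mem_cells]
    omega

theorem MD.card_kerY (hH : 1 ≤ H) : (kerY D.mdl).card = 2 ^ p 0 := by
  have h1 := MD.ker_aux (p := p) (H := H) 1 hH (fun a => D.mdl.y a = 0) (by
    intro a
    constructor
    · intro h2 i l hl
      have h3 := congrFun (congrFun (congrArg Subtype.val h2) i) (l - 1)
      have h4 : a.1 i (l - 1 + 1) = 0 := h3
      rwa [Nat.sub_add_cancel hl] at h4
    · intro h2
      apply Subtype.ext
      funext i l
      exact h2 i (l + 1) (by omega))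
  unfold kerY
  rw [h1]
  simp

theorem MD.card_kerYY (hH : 2 ≤ H) : (kerYY D.mdl).card = 2 ^ (p 0 + p 1) := by
  have h1 := MD.ker_aux (p := p) (H := H) 2 hH (fun a => D.mdl.y (D.mdl.y a) = 0) (by
    intro a
    constructor
    · intro h2 i l hl
      have h3 := congrFun (congrFun (congrArg Subtype.val h2) i) (l - 2)
      have h4 : a.1 i (l - 2 + 1 + 1) = 0 := h3
      have e : l - 2 + 1 + 1 = l := by omega
      rwa [e] at h4
    · intro h2
      apply Subtype.ext
      funext i l
      exact h2 i (l + 1 + 1) (by omega))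
  unfold kerYY
  rw [h1]
  simp [Finset.sum_range_succ]

theorem MD.card_ranY : (ranY D.mdl).card ≤ 2 ^ ∑ l ∈ Finset.Ico 0 (H - 1), p (l + 1) := by
  rw [← card_cells (fun l => p (l + 1)), ← card_SG, ← Finset.card_univ]
  refine Finset.card_le_card_of_injOn (fun a => rs (cells (fun l => p (l + 1)) 0 (H - 1)) a.1)
      (fun _ _ => Finset.mem_univ _) ?_
  have hsup : ∀ a ∈ ranY D.mdl, ∀ i l, (i, l) ∉ cells (fun l => p (l + 1)) 0 (H - 1) →
      a.1 i l = 0 := by
    intro a ha i l hil
    obtain ⟨b, rfl⟩ := (mem_ranY _ _).1 ha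
    change b.1 i (l + 1) = 0
    apply b.2
    rw [mem_cells] at hil ⊢
    omega
  intro a ha b hb hab
  apply Subtype.ext
  exact rs_inj (hsup a ha) (hsup b hb) hab

/-- extension by zero -/
def ext0 {n : ℕ} (x : Fin n → ZMod 2) : ℕ → ZMod 2 := fun s => if h : s < n then x ⟨s, h⟩ else 0

theorem ext0_inj {n : ℕ} {x x' : Fin n → ZMod 2} (h : ext0 x = ext0 x') : x = x' := by
  funext i
  have := congrFun h i.1
  simpa [ext0, i.2] using this

theorem MD.card_GS : 2 ^ (∑ l ∈ Finset.Ico 0 h, mn l + (r - 1)) ≤ (GS D.mdl).card := by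
  have hcard : 2 ^ (∑ l ∈ Finset.Ico 0 h, mn l + (r - 1)) =
      (Finset.univ : Finset (SG (cells mn 0 h) × (Fin (r - 1) → ZMod 2))).card := by
    rw [Finset.card_univ, Fintype.card_prod, card_SG, card_cells, Fintype.card_fun, ZMod.card,
      Fintype.card_fin, pow_add]
  rw [hcard]
  have hin : ∀ g : SG (cells mn 0 h), InD mn g.1 := by
    intro g i l hil
    apply g.2
    rw [mem_cells]
    omega
  have hc1 : ∀ f : FF, InD (fun l => p (l + 1) + p (l + 2)) f → c1 p f ∈ SG (cells p 0 H) := by
    intro f hf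
    rw [D.mem_iff]
    intro i l hil
    apply hf
    by_contra hlt
    push Not at hlt
    rw [D.be1_iff] at hlt
    have := D.anti (show l ≤ l + 1 by omega)
    omega
  have hc2 : ∀ f : FF, InD (fun l => p (l + 1) + p (l + 2)) f → c2 p f ∈ SG (cells p 0 H) := by
    intro f hf
    rw [D.mem_iff]
    intro i l hil
    apply hf
    by_contra hlt
    push Not at hlt
    rw [D.be2_iff] at hlt
    have := D.anti (show l ≤ l + 2 by omega)
    omega
  refine Finset.card_le_card_of_injOn (fun t =>
    (⟨Psi mn msM r t.1.1 (ext0 t.2), (D.mem_iff _).2 (D.memM (hin t.1) _)⟩,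
      ⟨c1 p (Psi mn msN r t.1.1 (ext0 t.2)), hc1 _ (D.memN (hin t.1) _)⟩,
      ⟨c2 p (Psi mn msN r t.1.1 (ext0 t.2)), hc2 _ (D.memN (hin t.1) _)⟩)) ?_ ?_
  · intro t _
    rw [Finset.mem_coe, mem_GS]
    refine ⟨t.1.1, ext0 t.2, hin t.1, fun s hs => ?_, rfl, rfl, rfl⟩
    unfold ext0
    rw [dif_neg (by omega)]
  · rintro ⟨g, x⟩ _ ⟨g', x'⟩ _ heq
    simp only [Prod.mk.injEq, Subtype.mk.injEq] at heq
    have h1 : Psi mn msM r (g.1 + g'.1) (ext0 x + ext0 x') = 0 := by
      rw [Psi_add, heq.1]
      funext i l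
      exact ZM2' _
    have h2 := D.DM.inj (InD_add (hin g) (hin g')) (x := ext0 x + ext0 x') (by
      intro s hs
      change ext0 x s + ext0 x' s = 0
      unfold ext0
      rw [dif_neg (by omega), dif_neg (by omega), add_zero]) h1
    have e1 : g = g' := by
      apply Subtype.ext
      funext i l
      exact ZM2 (congrFun (congrFun h2.1 i) l)
    have e2 : x = x' := by
      apply ext0_inj
      funext s
      exact ZM2 (congrFun h2.2 s)
    rw [e1, e2]

end

end Run7.h695
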