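import Pool.Agent.Run7.h695.Copy2
set_option autoImplicit false
set_option linter.unusedSectionVars false
set_option linter.unusedVariables false

/-! The entropy bound for the whole system. -/

namespace Run7.h695

open H137.PFR

open Nd Co1

/-- coordinates of the whole system: `M` copies, one `R`, and `M` copies of `S` -/
abbrev JI (M : ℕ) : Type := (Fin M × Co1) ⊕ Option (Fin M)

/-- closed sets of coordinates -/
def JCl (M : ℕ) (S : JI M → Prop) : Prop :=
  (∀ c, Cl1 (fun x => S (Sum.inl (c, x)))) ∧ ∀ c,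
    (S (Sum.inl (c, br false s1)) → S (Sum.inr none) → S (Sum.inr (some c))) ∧
    (S (Sum.inr (some c)) → S (Sum.inl (c, br false s1))) ∧
    (S (Sum.inr (some c)) → S (Sum.inr none))

variable {Ω : Type} [Fintype Ω] {A BT : Type} [Fintype A] [Fintype BT]
  {w : Ω → ℝ} {W : Ω → BT}

/-- the coordinates of one copy -/
def EE (M : ℕ) (c : Fin M) : Finset (JI M) :=
  Finset.univ.image (fun x : Co1 => (Sum.inl (c, x) : JI M))

theorem g0_copy {I K : Type} [Fintype I] [DecidableEq I] [Fintype K] [DecidableEq K]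
    (hw : Law w) (Y : I → Ω → A) (f : K → I) (S : Finset K) :
    g0 w W (fun k => Y (f k)) S = g0 w W Y (S.image f) := by
  unfold g0
  congr 1
  refine H_eq_of_det hw _ _ fun x y => ?_
  simp only [Prod.mk.injEq, YS_eq, Finset.mem_image]
  constructor
  · rintro ⟨a, b⟩
    exact ⟨a, fun i hi => b _ ⟨i, hi, rfl⟩⟩
  · rintro ⟨a, b⟩
    refine ⟨a, ?_⟩
    rintro i ⟨k, hk, rfl⟩
    exact b k hk

theorem union_le {I K : Type} [Fintype I] [DecidableEq I] [DecidableEq K] {Y : I → Ω → A}
    {g : Finset I → ℝ} (hg : Gc w W Y g) (E : K → Finset I) (s : Finset K) (T : Finset I) :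
    g (s.biUnion E ∪ T) ≤ ∑ c ∈ s, g (E c) + g T := by
  induction s using Finset.induction_on with
  | empty => simp
  | insert a s ha ih =>
    rw [Finset.biUnion_insert, Finset.sum_insert ha, Finset.union_assoc]
    have := Gc_subadd hg (E a) (s.biUnion E ∪ T)
    linarith

theorem ent_bound {M : ℕ} (hM : 33 ≤ M) {Y : JI M → Ω → A} (hw : Law w)
    (hcl : ∀ x y, W x = W y → JCl M (fun i => Y i x = Y i y))
    {ρ u1 u2 : ℝ} (hρ : ρ * ρ = 1 - ρ) (hρ1 : 0.618 ≤ ρ) (hρ2 : ρ ≤ 0.6181) (h21 : u2 ≤ u1)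
    (i0 : JI M) (hi0 : g0 w W Y {i0} ≤ u1) (hu : ∀ i, i ≠ i0 → g0 w W Y {i} ≤ u2) :
    g0 w W Y Finset.univ ≤ 6 * u1 + (6 * (M - 1) + (1 - ρ)) * u2 := by
  have hg : Gc w W Y (g0 w W Y) := Gc_g0 hw
  set g := g0 w W Y with hgdef
  have hu1 : ∀ i, g {i} ≤ u1 := by
    intro i
    by_cases h : i = i0
    · rw [h]; exact hi0
    · exact (hu i h).trans h21
  -- the exceptional copy
  obtain ⟨c0, hc0⟩ : ∃ c0 : Fin M, ∀ c, c ≠ c0 → (∀ x, (Sum.inl (c, x) : JI M) ≠ i0) ∧
      (Sum.inr (some c) : JI M) ≠ i0 := by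
    rcases i0 with ⟨c, x⟩ | _ | c
    · refine ⟨c, fun d hd => ⟨fun y h => ?_, by simp⟩⟩
      simp only [Sum.inl.injEq, Prod.mk.injEq] at h
      exact hd h.1
    · exact ⟨⟨0, by omega⟩, fun d _ => ⟨fun y => by simp, by simp⟩⟩
    · refine ⟨c, fun d hd => ⟨fun y => by simp, fun h => ?_⟩⟩
      simp only [Sum.inr.injEq, Option.some.injEq] at h
      exact hd h
  have hcopy : ∀ (c : Fin M) (S : Finset Co1),
      g0 w W (fun x => Y (Sum.inl (c, x))) S = g (S.image (fun x => (Sum.inl (c, x) : JI M))) :=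
    fun c S => g0_copy hw Y (fun x => (Sum.inl (c, x) : JI M)) S
  have hcl' : ∀ c, ∀ x y, W x = W y →
      Cl1 (fun i => (fun x => Y (Sum.inl (c, x))) i x = (fun x => Y (Sum.inl (c, x))) i y) :=
    fun c x y h => (hcl x y h).1 c
  have hE0 : g (EE M c0) ≤ 6 * u1 := by
    have h := (copy_bound (w := w) (Y := fun x => Y (Sum.inl (c0, x))) hw (hcl' c0) hρ hρ1 hρ2
      (u0 := u1) (fun i => by rw [hcopy, Finset.image_singleton]; exact hu1 _)).1
    rw [hcopy] at h
    unfold EE
    linarith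
  have hE : ∀ c, c ≠ c0 → 0 ≤ 6 * u2 - g (EE M c) ∧
      ρ * u2 - 32 * (6 * u2 - g (EE M c)) ≤ g {Sum.inl (c, br false s1)} := by
    intro c hc
    have h := copy_bound (w := w) (Y := fun x => Y (Sum.inl (c, x))) hw (hcl' c) hρ hρ1 hρ2
      (u0 := u2) (fun i => by
        rw [hcopy, Finset.image_singleton]; exact hu _ ((hc0 c hc).1 i))
    rw [hcopy, hcopy, Finset.image_singleton] at h
    exact h
  -- choose the copy with the smallest defect
  have hne : (Finset.univ.erase c0).Nonempty := by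
    rw [← Finset.card_pos, Finset.card_erase_of_mem (Finset.mem_univ _), Finset.card_univ,
      Fintype.card_fin]
    omega
  obtain ⟨cs, hcs, hmin⟩ := Finset.exists_min_image (Finset.univ.erase c0)
    (fun c => 6 * u2 - g (EE M c)) hne
  have hcs0 : cs ≠ c0 := (Finset.mem_erase.1 hcs).1
  obtain ⟨hd0, hd1⟩ := hE cs hcs0
  set δ := 6 * u2 - g (EE M cs) with hδ
  -- cardinality of the index set
  have hcard : ((Finset.univ.erase c0).card : ℝ) = (M : ℝ) - 1 := by
    rw [Finset.card_erase_of_mem (Finset.mem_univ _), Finset.card_univ, Fintype.card_fin,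
      Nat.cast_sub (by omega), Nat.cast_one]
  have hsum : ((M : ℝ) - 1) * δ ≤ ∑ c ∈ Finset.univ.erase c0, (6 * u2 - g (EE M c)) := by
    have := Finset.card_nsmul_le_sum (Finset.univ.erase c0) (fun c => 6 * u2 - g (EE M c)) δ
      (fun c hc => hmin c hc)
    rwa [nsmul_eq_mul, hcard] at this
  rw [Finset.sum_sub_distrib, Finset.sum_const, nsmul_eq_mul, hcard] at hsum
  have hM' : (32 : ℝ) ≤ (M : ℝ) - 1 := by
    have : (33 : ℝ) ≤ (M : ℝ) := by exact_mod_cast hM
    linarith
  have hsum2 : 32 * δ ≤ ((M : ℝ) - 1) * δ := mul_le_mul_of_nonneg_right hM' hd0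
  -- the union bound
  set R : JI M := Sum.inr none with hR
  have hU : g Finset.univ ≤ g ((Finset.univ.erase cs).biUnion (EE M) ∪ (EE M cs ∪ {R})) := by
    refine Gc_det hg ?_
    intro x y hW hS i _
    have hJ := hcl x y hW
    have hall : ∀ c z, Y (Sum.inl (c, z)) x = Y (Sum.inl (c, z)) y := by
      intro c z
      apply hS
      simp only [Finset.mem_union, Finset.mem_biUnion, Finset.mem_erase, Finset.mem_univ, and_true,
        EE, Finset.mem_image, true_and]
      by_cases hc : c = cs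
      · subst hc
        exact Or.inr (Or.inl ⟨z, rfl⟩)
      · exact Or.inl ⟨c, hc, z, rfl⟩
    have hRR : Y R x = Y R y := hS _ (by simp)
    rcases i with ⟨c, z⟩ | _ | c
    · exact hall c z
    · exact hRR
    · exact (hJ.2 c).1 (hall _ _) hRR
  have hU2 := union_le hg (EE M) (Finset.univ.erase cs) (EE M cs ∪ {R})
  have hsplit : ∑ c ∈ Finset.univ.erase cs, g (EE M c) + g (EE M cs) =
      ∑ c ∈ Finset.univ.erase c0, g (EE M c) + g (EE M c0) := by
    rw [Finset.sum_erase_add _ _ (Finset.mem_univ _), Finset.sum_erase_add _ _ (Finset.mem_univ _)]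
  -- conditional entropy of R
  have hRb : g (EE M cs ∪ {R}) - g (EE M cs) ≤
      g ({Sum.inl (cs, br false s1)} ∪ {R}) - g {Sum.inl (cs, br false s1)} := by
    have h := Gc_submod hg (EE M cs) {R} {Sum.inl (cs, br false s1)}
    have e1 : EE M cs ∪ {Sum.inl (cs, br false s1)} = EE M cs := by
      rw [Finset.union_eq_left, Finset.singleton_subset_iff]
      simp [EE]
    have e2 : EE M cs ∪ {R} ∪ {Sum.inl (cs, br false s1)} = EE M cs ∪ {R} := by
      rw [Finset.union_right_comm, e1]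
    have e3 : ({R} ∪ {Sum.inl (cs, br false s1)} : Finset (JI M)) =
      {Sum.inl (cs, br false s1)} ∪ {R} := Finset.union_comm _ _
    rw [e1, e2, e3] at h
    linarith
  have hSb : g ({Sum.inl (cs, br false s1)} ∪ {R}) ≤ u2 := by
    refine le_trans (Gc_det hg (S := {Sum.inr (some cs)}) ?_) (hu _ ((hc0 cs hcs0).2))
    intro x y hW hS i hi
    have hJ := (hcl x y hW).2 cs
    have h1 : Y (Sum.inr (some cs)) x = Y (Sum.inr (some cs)) y := hS _ (by simp)
    simp only [Finset.mem_union, Finset.mem_singleton] at hi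
    rcases hi with rfl | rfl
    · exact hJ.2.1 h1
    · exact hJ.2.2 h1
  linarith

end Run7.h695
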