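import Pool.Agent.Run7.h695.Lift4
import Pool.Agent.Run7.h695.EntBound
set_option autoImplicit false
set_option linter.unusedSectionVars false
set_option linter.unusedVariables false

/-! The upper bound for codes whose agreement sets form a closed system. -/

open scoped Classical

namespace Run7.h695

open Finset H137.PFR

/-- the exponent of the index system -/
noncomputable def al (M : ℕ) (ρ : ℝ) : ℝ := 6 * M + (1 - ρ)

/-- index sets -/
def JCF (M : ℕ) {m : ℕ} (e : JI M ≃ Fin m) (A : Finset (Fin m)) : Prop :=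
  JCl M (fun i => e i ∈ A)

theorem JCl_true {M : ℕ} {P : JI M → Prop} (h : ∀ i, P i) : JCl M P := by
  refine ⟨fun c => ?_, fun c => ⟨fun _ _ => h _, fun _ => h _, fun _ => h _⟩⟩
  constructor <;> intros <;> exact h _

theorem H_le_log {Ω A : Type} [Fintype Ω] [Fintype A] {w : Ω → ℝ} (hw : Law w) (X : Ω → A) :
    H w X ≤ Real.log (Fintype.card A) := by
  rw [H_toF]
  have := H112.ent_le_log_card (H112.isLaw_mapDomain (isLaw_toF hw) X)
    (s := (Finset.univ : Finset A)) (Finset.subset_univ _)
  rwa [Finset.card_univ] at this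

theorem H_unif {Ω : Type} [Fintype Ω] [Nonempty Ω] :
    H (fun _ : Ω => (1 : ℝ) / Fintype.card Ω) (fun x => x) = Real.log (Fintype.card Ω) := by
  unfold H
  rw [B_push_id]
  unfold ent
  rw [Finset.sum_const, Finset.card_univ, nsmul_eq_mul]
  have h : (0 : ℝ) < Fintype.card Ω := by exact_mod_cast Fintype.card_pos
  rw [one_div, Real.negMulLog, Real.log_inv]
  field_simp

theorem law_unif {Ω : Type} [Fintype Ω] [Nonempty Ω] :
    Law (fun _ : Ω => (1 : ℝ) / Fintype.card Ω) := by
  have h : (0 : ℝ) < Fintype.card Ω := by exact_mod_cast Fintype.card_pos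
  refine ⟨fun _ => by positivity, ?_⟩
  rw [Finset.sum_const, Finset.card_univ, nsmul_eq_mul]
  field_simp

variable {X : Type} [Fintype X] {n : ℕ}

/-- agreement set of two words -/
noncomputable def agr (x y : X → Fin n) : Finset X := Finset.univ.filter (fun c => x c = y c)

/-- the agreement sets of a code, and the ground set -/
def agC (D : Finset (X → Fin n)) (U : Finset X) : Prop :=
  U = Finset.univ ∨ ∃ x ∈ D, ∃ y ∈ D, x ≠ y ∧ U = agr x y

theorem code_bound {M m : ℕ} (hM : 33 ≤ M) (hm : 5 ≤ m) (T : Wts m) (e : JI M ≃ Fin m)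
    {ρ : ℝ} (hρ : ρ * ρ = 1 - ρ) (hρ1 : 0.618 ≤ ρ) (hρ2 : ρ ≤ 0.6181)
    (hX : Fintype.card X = T.kk) (D : Finset (X → Fin n)) (hD : D.Nonempty)
    (hC : ∀ A B, agC D A → agC D B → agC D (A ∩ B))
    (hsz : ∀ x ∈ D, ∀ y ∈ D, x ≠ y → T.Sz (JCF M e) (agr x y).card) :
    (D.card : ℝ) ≤ (n : ℝ) ^ (3 - 2 / al M ρ) := by
  set Ω := {x // x ∈ D} with hΩ
  have hne : Nonempty Ω := ⟨⟨hD.choose, hD.choose_spec⟩⟩
  set w : Ω → ℝ := fun _ => (1 : ℝ) / Fintype.card Ω with hw
  have hL : Law w := law_unif
  have hcardΩ : Fintype.card Ω = D.card := Fintype.card_coe D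
  set Yc : X → Ω → Fin n := fun c ω => ω.1 c with hYc
  set h : Finset X → ℝ := g0 w (fun _ : Ω => ()) Yc with hh
  have hg : Gc w (fun _ : Ω => ()) Yc h := Gc_g0 hL
  have hcs : ClSys X (agC D) := ⟨Or.inl rfl, hC⟩
  have hX1 : Nonempty X := by
    rw [← Fintype.card_pos_iff, hX]
    have := T.kk_div
    by_contra h0
    have h0' : T.kk = 0 := by omega
    rw [h0'] at this
    simp at this
  obtain ⟨x0, hx0⟩ := hD
  have hn : 0 < n := by
    obtain ⟨c⟩ := hX1
    have := (x0 c).2
    omega
  -- agreement sets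
  have hag : ∀ ω ω' : Ω, agC D (agr ω.1 ω'.1) := by
    intro ω ω'
    by_cases hee : ω.1 = ω'.1
    · left
      rw [hee]
      unfold agr
      simp
    · exact Or.inr ⟨_, ω.2, _, ω'.2, hee, rfl⟩
  have huunit : H w (fun _ : Ω => ()) = 0 := H_unit hL
  -- final assembly
  have hmain : h Finset.univ ≤ (3 - 2 / al M ρ) * Real.log n := by
    have hal : 4 ≤ al M ρ := by
      unfold al
      have : (33 : ℝ) ≤ (M : ℝ) := by exact_mod_cast hM
      linarith
    refine lift_bound (T := T) (JC := JCF M e) (C := agC D) (m := m) hm hcs hX ?_ (Gc_empty hg)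
      (fun S T h => Gc_mono hg h) ?_ ?_ ?_ ?_ hal ?_
    · rintro U (rfl | ⟨x, hx, y, hy, hxy, rfl⟩) hU
      · exact absurd rfl hU
      · exact hsz x hx y hy hxy
    · intro S T
      have := Gc_submod hg S T (S ∩ T)
      have e1 : S ∪ T ∪ (S ∩ T) = S ∪ T :=
        Finset.union_eq_left.2 (Finset.inter_subset_left.trans Finset.subset_union_left)
      have e2 : S ∪ (S ∩ T) = S := Finset.union_eq_left.2 Finset.inter_subset_left
      have e3 : T ∪ (S ∩ T) = T := Finset.union_eq_left.2 Finset.inter_subset_right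
      rwa [e1, e2, e3] at this
    · intro S
      refine Gc_det hg fun x y _ hS i hi => ?_
      have h1 : cl (agC D) S ⊆ agr x.1 y.1 := by
        refine cl_le (hag x y) fun c hc => ?_
        exact Finset.mem_filter.2 ⟨Finset.mem_univ _, hS c hc⟩
      exact (Finset.mem_filter.1 (h1 hi)).2
    · exact Real.log_natCast_nonneg n
    · intro x
      have h1 : h {x} = H w (fun ω : Ω => ((), YS Yc {x} ω)) - H w (fun _ : Ω => ()) := rfl
      rw [h1, huunit, sub_zero]
      have h2 : H w (fun ω : Ω => ((), YS Yc {x} ω)) ≤ H w (fun ω : Ω => ω.1 x) := by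
        refine H_le_of_det hL _ _ fun a b hab => ?_
        rw [Prod.mk.injEq, YS_eq]
        refine ⟨rfl, fun i hi => ?_⟩
        rw [Finset.mem_singleton] at hi
        subst hi
        exact hab
      refine h2.trans ((H_le_log hL _).trans ?_)
      rw [Fintype.card_fin]
    · -- the entropic hypothesis
      intro B0 Y hY i0 u1 u2 h21 hu1 hu2
      set W : Ω → (X → Option (Fin n)) := YS Yc B0 with hW
      set Y' : JI M → Ω → Fin n := fun i ω => ω.1 (Y (e i)) with hY'
      have hgg : ∀ S : Finset (JI M), g0 w W Y' S = h (B0 ∪ S.image (fun i => Y (e i))) - h B0 := by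
        intro S
        have h1 : h (B0 ∪ S.image (fun i => Y (e i))) =
            H w (fun ω : Ω => ((), YS Yc (B0 ∪ S.image (fun i => Y (e i))) ω)) -
              H w (fun _ : Ω => ()) := rfl
        have h2 : h B0 = H w (fun ω : Ω => ((), YS Yc B0 ω)) - H w (fun _ : Ω => ()) := rfl
        have h3 : g0 w W Y' S = H w (fun ω => (W ω, YS Y' S ω)) - H w W := rfl
        have e1 : H w (fun ω : Ω => ((), YS Yc (B0 ∪ S.image (fun i => Y (e i))) ω)) =
            H w (fun ω => (W ω, YS Y' S ω)) := by
          refine H_eq_of_det hL _ _ fun a b => ?_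
          simp only [hW, hY', Prod.mk.injEq, YS_eq, Finset.mem_union, Finset.mem_image, true_and]
          constructor
          · rintro ⟨h4, h5⟩ c (hc | ⟨i, hi, rfl⟩)
            · exact h4 c hc
            · exact h5 i hi
          · intro h4
            exact ⟨fun c hc => h4 c (Or.inl hc), fun i hi => h4 _ (Or.inr ⟨i, hi, rfl⟩)⟩
        have e2 : H w (fun ω : Ω => ((), YS Yc B0 ω)) = H w W := by
          refine H_eq_of_det hL _ _ fun a b => ?_
          simp [hW]
        rw [h1, h2, h3, e1, e2]
        ring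
      have hcl : ∀ x y, W x = W y → JCl M (fun i => Y' i x = Y' i y) := by
        intro x y hxy
        rw [hW, YS_eq] at hxy
        have h1 : B0 ⊆ agr x.1 y.1 := fun c hc =>
          Finset.mem_filter.2 ⟨Finset.mem_univ _, hxy c hc⟩
        rcases hY _ (hag x y) h1 with h2 | h2
        · refine JCl_true fun i => ?_
          have h3 : Y (e i) ∈ agr x.1 y.1 := by rw [h2]; exact Finset.mem_univ _
          exact (Finset.mem_filter.1 h3).2
        · unfold JCF at h2
          have h3 : (fun i => e i ∈ Finset.univ.filter (fun i => Y i ∈ agr x.1 y.1)) =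
              (fun i => Y' i x = Y' i y) := by
            funext i
            simp only [hY', agr, Finset.mem_filter, Finset.mem_univ, true_and]
          rwa [h3] at h2
      have hb := ent_bound (w := w) (W := W) (Y := Y') hM hL hcl hρ hρ1 hρ2 h21 (e.symm i0)
        (by
          rw [hgg, Finset.image_singleton, Equiv.apply_symm_apply, Finset.union_comm,
            ← Finset.insert_eq]
          exact hu1)
        (by
          intro i hi
          rw [hgg, Finset.image_singleton, Finset.union_comm, ← Finset.insert_eq]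
          refine hu2 _ fun h => hi ?_
          rw [← h, Equiv.symm_apply_apply])
      rw [hgg] at hb
      have himg : (Finset.univ : Finset (JI M)).image (fun i => Y (e i)) =
          Finset.univ.image Y := by
        ext c
        simp only [Finset.mem_image, Finset.mem_univ, true_and]
        constructor
        · rintro ⟨i, rfl⟩; exact ⟨_, rfl⟩
        · rintro ⟨i, rfl⟩; exact ⟨e.symm i, by rw [Equiv.apply_symm_apply]⟩
      rw [himg] at hb
      refine hb.trans ?_
      have hM' : (33 : ℝ) ≤ (M : ℝ) := by exact_mod_cast hM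
      have h5 : 0 ≤ (al M ρ / 2 - 6) * (u1 - u2) := by
        apply mul_nonneg
        · unfold al; linarith
        · linarith
      have h6 : 6 * u1 + (6 * ((M : ℝ) - 1) + (1 - ρ)) * u2 =
          al M ρ / 2 * (u1 + u2) - (al M ρ / 2 - 6) * (u1 - u2) := by
        unfold al; ring
      linarith
  have hlow : Real.log D.card ≤ h Finset.univ := by
    have h1 : h Finset.univ = H w (fun ω : Ω => ((), YS Yc Finset.univ ω)) -
      H w (fun _ : Ω => ()) := rfl
    rw [h1, huunit, sub_zero, ← hcardΩ, ← H_unif (Ω := Ω)]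
    refine H_le_of_det hL _ _ fun a b hab => ?_
    rw [Prod.mk.injEq, YS_eq] at hab
    apply Subtype.ext
    funext c
    exact hab.2 c (Finset.mem_univ _)
  have hn' : (0 : ℝ) < n := by exact_mod_cast hn
  have hD0 : (0 : ℝ) < D.card := by
    have : 0 < D.card := Finset.card_pos.2 ⟨x0, hx0⟩
    exact_mod_cast this
  rw [Real.rpow_def_of_pos hn', ← Real.log_le_iff_le_exp hD0]
  rw [mul_comm (Real.log (n : ℝ))]
  exact hlow.trans hmain

end Run7.h695
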