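import Pool.Agent.Run7.h695.Ent
set_option autoImplicit false
set_option linter.unusedSectionVars false
set_option linter.unusedVariables false

/-! The entropy bound for one copy of the two-sided system. -/

namespace Run7.h695

open H137.PFR

inductive Nd | s1 | s2 | u | v | t1 | t2 | t3
  deriving DecidableEq

instance : Fintype Nd :=
  ⟨{Nd.s1, Nd.s2, Nd.u, Nd.v, Nd.t1, Nd.t2, Nd.t3}, by intro x; cases x <;> simp⟩

inductive Co1
  | nd (b : Bool) (n : Nd)
  | br (b : Bool) (n : Nd)
  | bb (b : Bool)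
  | z (b : Bool) (n : Nd)
  | rx
  deriving DecidableEq, Fintype

open Nd Co1

def Tie (p t : Nd) : Prop := (p = s1 ∧ t = t1) ∨ (p = s2 ∧ t = t2) ∨ (p = v ∧ t = t3)

/-- sets of coordinates closed under the rules of one copy -/
structure Cl1 (S : Co1 → Prop) : Prop where
  ndbr : ∀ b n, S (nd b n) → S (br b n)
  s2bb : ∀ b, S (br b s2) → S (bb b)
  vbr : ∀ b, S (nd b v) → S (br b s1)
  vbb : ∀ b, S (nd b v) → S (bb b)
  brv : ∀ b, S (br b s1) → S (bb b) → S (nd b v)
  ta : ∀ b p t, Tie p t → S (nd b p) → S (nd b u) → S (nd b t)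
  tb : ∀ b p t, Tie p t → S (nd b p) → S (nd b t) → S (nd b u)
  tc : ∀ b p t, Tie p t → S (nd b u) → S (nd b t) → S (nd b p)
  td : ∀ b p t, Tie p t → S (br b t) → S (br b u) → S (br b p)
  te : ∀ b p t, Tie p t → S (br b t) → S (br b p) → S (br b u)
  la : ∀ b n, S (z b n) → S (br b n) → S (nd (!b) n)
  lb : ∀ b n, S (z b n) → S (nd (!b) n) → S (br b n)
  lc : ∀ b n, S (br b n) → S (nd (!b) n) → S (z b n)
  ld : ∀ b, S (z b s2) → S (bb b) → S (br (!b) s2)
  le : ∀ b, S (z b s2) → S (br (!b) s2) → S (bb b)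
  zv : ∀ b, S (z b s1) → S (z b s2) → S (z b v)
  zt : ∀ b p t, Tie p t → S (z b u) → S (z b p) → S (z b t)
  rxa : S (nd false s1) → S (nd false s2) → S rx
  rxb : S (nd false v) → S rx → S (nd false s1)
  rxc : S (nd false v) → S rx → S (nd false s2)

/-- the pairs of nodes whose mutual information is controlled -/
def Pr2 (p q : Nd) : Prop := (p = s1 ∧ q = s2) ∨ Tie p q ∨ (p = u ∧ ∃ r, Tie r q)

def XX (b : Bool) : Finset Co1 :=
  Finset.univ.filter fun i => (∃ n, i = nd b n) ∨ (∃ n, i = br b n) ∨ i = bb b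

def ZZ (b : Bool) : Finset Co1 := Finset.univ.filter fun i => ∃ n, i = z b n

variable {Ω : Type} [Fintype Ω] {A BT : Type} [Fintype A] [Fintype BT]
  {w : Ω → ℝ} {W : Ω → BT} {Y : Co1 → Ω → A}

theorem Gc_mono {I : Type} [Fintype I] [DecidableEq I] {Y : I → Ω → A} {g : Finset I → ℝ} (hg : Gc w W Y g)
    {S T : Finset I} (h : S ⊆ T) : g S ≤ g T :=
  Gc_det hg fun _ _ _ hT i hi => hT i (h hi)

theorem Gc_nonneg {I : Type} [Fintype I] [DecidableEq I] {Y : I → Ω → A} {g : Finset I → ℝ} (hg : Gc w W Y g)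
    (S : Finset I) : 0 ≤ g S := by
  have := Gc_mono hg (Finset.empty_subset S)
  rwa [Gc_empty hg] at this

theorem Gc_subadd {I : Type} [Fintype I] [DecidableEq I] {Y : I → Ω → A} {g : Finset I → ℝ} (hg : Gc w W Y g)
    (S T : Finset I) : g (S ∪ T) ≤ g S + g T := by
  have := Gc_submod hg S T ∅
  rw [Gc_empty hg] at this
  simpa using this

/-- information is monotone -/
theorem Gc_info {I : Type} [Fintype I] [DecidableEq I] {Y : I → Ω → A} {g : Finset I → ℝ} (hg : Gc w W Y g)
    {S T S' T' : Finset I} (hS : Dt W Y S S') (hT : Dt W Y T T') :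
    g S' + g T' - g (S' ∪ T') ≤ g S + g T - g (S ∪ T) := by
  -- first replace T by T'
  have a1 := Gc_submod hg S T T'
  have a2 : g (T ∪ T') = g T := le_antisymm
    (Gc_det hg fun x y hW h i hi => by
      rcases Finset.mem_union.1 hi with hi | hi
      · exact h i hi
      · exact hT x y hW h i hi) (Gc_mono hg Finset.subset_union_left)
  have a3 : g (S ∪ T) ≤ g (S ∪ T ∪ T') := Gc_mono hg Finset.subset_union_left
  have b1 := Gc_submod hg S T' S'
  have b2 : g (S ∪ S') = g S := le_antisymm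
    (Gc_det hg fun x y hW h i hi => by
      rcases Finset.mem_union.1 hi with hi | hi
      · exact h i hi
      · exact hS x y hW h i hi) (Gc_mono hg Finset.subset_union_left)
  have b3 : g (S ∪ T') ≤ g (S ∪ T' ∪ S') := Gc_mono hg Finset.subset_union_left
  have b4 : T' ∪ S' = S' ∪ T' := Finset.union_comm _ _
  rw [b4] at b1
  linarith

theorem Dt_of (hcl : ∀ x y, W x = W y → Cl1 (fun i => Y i x = Y i y)) (S T : Finset Co1)
    (h : ∀ P : Co1 → Prop, Cl1 P → (∀ i ∈ S, P i) → ∀ i ∈ T, P i) : Dt W Y S T :=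
  fun x y hW hS => h _ (hcl x y hW) hS

section step

variable (hcl : ∀ x y, W x = W y → Cl1 (fun i => Y i x = Y i y))
include hcl

/-- comparison of the bars through the ties -/
theorem tie_cmp {g : Finset Co1 → ℝ} (hg : Gc w W Y g) (b : Bool) {η : ℝ}
    (hη : ∀ p q, Pr2 p q → g {nd b p} + g {nd b q} - g {nd b p, nd b q} ≤ η) (p t : Nd)
    (ht : Tie p t) : |g {br b u} - g {br b p}| ≤ η := by
  have i1 : g {br b u} + g {br b t} - g ({br b u} ∪ {br b t}) ≤ η := by
    have h1 := hη u t (Or.inr (Or.inr ⟨rfl, p, ht⟩))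
    have h2 := Gc_info hg (S := {nd b u}) (T := {nd b t}) (S' := {br b u}) (T' := {br b t})
      (Dt_of hcl _ _ fun P hP h i hi => by
        rw [Finset.mem_singleton] at hi; subst hi; exact hP.ndbr _ _ (h _ (by simp)))
      (Dt_of hcl _ _ fun P hP h i hi => by
        rw [Finset.mem_singleton] at hi; subst hi; exact hP.ndbr _ _ (h _ (by simp)))
    have h3 : ({nd b u} ∪ {nd b t} : Finset Co1) = {nd b u, nd b t} := rfl
    rw [h3] at h2
    linarith
  have i2 : g {br b p} + g {br b t} - g ({br b p} ∪ {br b t}) ≤ η := by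
    have h1 := hη p t (Or.inr (Or.inl ht))
    have h2 := Gc_info hg (S := {nd b p}) (T := {nd b t}) (S' := {br b p}) (T' := {br b t})
      (Dt_of hcl _ _ fun P hP h i hi => by
        rw [Finset.mem_singleton] at hi; subst hi; exact hP.ndbr _ _ (h _ (by simp)))
      (Dt_of hcl _ _ fun P hP h i hi => by
        rw [Finset.mem_singleton] at hi; subst hi; exact hP.ndbr _ _ (h _ (by simp)))
    have h3 : ({nd b p} ∪ {nd b t} : Finset Co1) = {nd b p, nd b t} := rfl
    rw [h3] at h2
    linarith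
  have j1 : g ({br b u} ∪ {br b t}) ≤ g ({br b p} ∪ {br b t}) :=
    Gc_det hg (Dt_of hcl _ _ fun P hP h i hi => by
      have h1 : P (br b p) := h _ (by simp)
      have h2 : P (br b t) := h _ (by simp)
      simp only [Finset.mem_union, Finset.mem_singleton] at hi
      rcases hi with rfl | rfl
      · exact hP.te b p t ht h2 h1
      · exact h2)
  have j2 : g ({br b p} ∪ {br b t}) ≤ g ({br b u} ∪ {br b t}) :=
    Gc_det hg (Dt_of hcl _ _ fun P hP h i hi => by
      have h1 : P (br b u) := h _ (by simp)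
      have h2 : P (br b t) := h _ (by simp)
      simp only [Finset.mem_union, Finset.mem_singleton] at hi
      rcases hi with rfl | rfl
      · exact hP.td b p t ht h2 h1
      · exact h2)
  have k1 := Gc_subadd hg {br b u} {br b t}
  have k2 := Gc_subadd hg {br b p} {br b t}
  rw [abs_le]
  constructor <;> linarith

theorem link_le {g : Finset Co1 → ℝ} (hg : Gc w W Y g) {b : Bool} (h0 : g (ZZ b) = 0)
    (S T : Finset Co1)
    (h : ∀ P : Co1 → Prop, Cl1 P → (∀ n, P (z b n)) → (∀ i ∈ S, P i) → ∀ i ∈ T, P i) :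
    g T ≤ g S := by
  have h1 : g T ≤ g (ZZ b ∪ S) := Gc_det hg (Dt_of hcl _ _ fun P hP hS =>
    h P hP (fun n => hS _ (by simp [ZZ])) (fun i hi => hS _ (Finset.mem_union_right _ hi)))
  have h2 := Gc_subadd hg (ZZ b) S
  linarith

theorem main_step {ρ u0 δ : ℝ} (hρ : ρ * ρ = 1 - ρ) (hρ1 : 0.618 ≤ ρ) (hρ2 : ρ ≤ 0.6181)
    (hδ0 : 0 ≤ δ)
    (hu : ∀ i, g0 w W Y {i} ≤ u0)
    (hI : ∀ b, g0 w W Y (XX b) + g0 w W Y (ZZ b) - g0 w W Y (XX b ∪ ZZ b) ≤ δ) :
    ∀ (N : ℕ) (b : Bool) (η : ℝ) (g : Finset Co1 → ℝ), 0 ≤ η → Gc w W Y g →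
      (∀ p q, Pr2 p q → g {nd b p} + g {nd b q} - g {nd b p, nd b q} ≤ η) →
      |g {br b s1} - ρ * g {nd b v}| ≤ ρ ^ N * u0 + 9 * η + 22 * δ := by
  intro N
  induction N with
  | zero =>
    intro b η g hη hg hpq
    have h1 : g {br b s1} ≤ u0 := (Gc_le_g0 hg _).trans (hu _)
    have h2 : g {nd b v} ≤ u0 := (Gc_le_g0 hg _).trans (hu _)
    have h3 := Gc_nonneg hg {br b s1}
    have h4 := Gc_nonneg hg {nd b v}
    have h5 : ρ * g {nd b v} ≤ 1 * u0 :=
      mul_le_mul (by linarith) h2 h4 (by norm_num)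
    have h6 : 0 ≤ ρ * g {nd b v} := mul_nonneg (by linarith) h4
    rw [abs_le, pow_zero]
    constructor <;> nlinarith
  | succ N ih =>
    intro b η g hη hg hpq
    obtain ⟨g', hg', hZ, hX⟩ := Gc_next hg (XX b) (ZZ b) (hI b)
    have mX1 : ∀ n, nd b n ∈ XX b := fun n => by simp [XX]
    have mX2 : ∀ n, br b n ∈ XX b := fun n => by simp [XX]
    have mX3 : bb b ∈ XX b := by simp [XX]
    -- links
    have l1 : ∀ n, g' {nd (!b) n} = g' {br b n} := fun n => le_antisymm
      (link_le hcl hg' hZ _ _ fun P hP hz h i hi => by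
        rw [Finset.mem_singleton] at hi; subst hi; exact hP.la _ _ (hz _) (h _ (by simp)))
      (link_le hcl hg' hZ _ _ fun P hP hz h i hi => by
        rw [Finset.mem_singleton] at hi; subst hi; exact hP.lb _ _ (hz _) (h _ (by simp)))
    have l2 : ∀ n m, g' {nd (!b) n, nd (!b) m} = g' {br b n, br b m} := fun n m => le_antisymm
      (link_le hcl hg' hZ _ _ fun P hP hz h i hi => by
        simp only [Finset.mem_insert, Finset.mem_singleton] at hi
        rcases hi with rfl | rfl
        · exact hP.la _ _ (hz _) (h _ (by simp))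
        · exact hP.la _ _ (hz _) (h _ (by simp)))
      (link_le hcl hg' hZ _ _ fun P hP hz h i hi => by
        simp only [Finset.mem_insert, Finset.mem_singleton] at hi
        rcases hi with rfl | rfl
        · exact hP.lb _ _ (hz _) (h _ (by simp))
        · exact hP.lb _ _ (hz _) (h _ (by simp)))
    have l3 : g' {br (!b) s2} = g' {bb b} := le_antisymm
      (link_le hcl hg' hZ _ _ fun P hP hz h i hi => by
        rw [Finset.mem_singleton] at hi; subst hi; exact hP.ld _ (hz _) (h _ (by simp)))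
      (link_le hcl hg' hZ _ _ fun P hP hz h i hi => by
        rw [Finset.mem_singleton] at hi; subst hi; exact hP.le _ (hz _) (h _ (by simp)))
    -- infos in the next state
    have hpq' : ∀ p q, Pr2 p q →
        g' {nd (!b) p} + g' {nd (!b) q} - g' {nd (!b) p, nd (!b) q} ≤ η + δ := by
      intro p q h
      rw [l1, l1, l2]
      have a1 := (hX {br b p} (by simpa using mX2 p)).2
      have a2 := (hX {br b q} (by simpa using mX2 q)).2
      have a3 := (hX {br b p, br b q} (by
        intro i hi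
        simp only [Finset.mem_insert, Finset.mem_singleton] at hi
        rcases hi with rfl | rfl
        · exact mX2 _
        · exact mX2 _)).1
      have a4 := Gc_info hg (S := {nd b p}) (T := {nd b q}) (S' := {br b p}) (T' := {br b q})
        (Dt_of hcl _ _ fun P hP h i hi => by
          rw [Finset.mem_singleton] at hi; subst hi; exact hP.ndbr _ _ (h _ (by simp)))
        (Dt_of hcl _ _ fun P hP h i hi => by
          rw [Finset.mem_singleton] at hi; subst hi; exact hP.ndbr _ _ (h _ (by simp)))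
      have e1 : ({nd b p} ∪ {nd b q} : Finset Co1) = {nd b p, nd b q} := rfl
      have e2 : ({br b p} ∪ {br b q} : Finset Co1) = {br b p, br b q} := rfl
      rw [e1, e2] at a4
      have a5 := hpq p q h
      linarith
    have hIH := ih (!b) (η + δ) g' (by linarith) hg' hpq'
    -- a = b + c - e1
    have c1 : g {nd b v} = g {br b s1, bb b} := le_antisymm
      (Gc_det hg (Dt_of hcl _ _ fun P hP h i hi => by
        rw [Finset.mem_singleton] at hi; subst hi
        exact hP.brv _ (h _ (by simp)) (h _ (by simp))))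
      (Gc_det hg (Dt_of hcl _ _ fun P hP h i hi => by
        simp only [Finset.mem_insert, Finset.mem_singleton] at hi
        rcases hi with rfl | rfl
        · exact hP.vbr _ (h _ (by simp))
        · exact hP.vbb _ (h _ (by simp))))
    have c2 : g {br b s1, bb b} ≤ g {br b s1} + g {bb b} := Gc_subadd hg {br b s1} {bb b}
    have c3 : g {br b s1} + g {bb b} - g {br b s1, bb b} ≤ η := by
      have h1 := hpq s1 s2 (Or.inl ⟨rfl, rfl⟩)
      have h2 := Gc_info hg (S := {nd b s1}) (T := {nd b s2}) (S' := {br b s1}) (T' := {bb b})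
        (Dt_of hcl _ _ fun P hP h i hi => by
          rw [Finset.mem_singleton] at hi; subst hi; exact hP.ndbr _ _ (h _ (by simp)))
        (Dt_of hcl _ _ fun P hP h i hi => by
          rw [Finset.mem_singleton] at hi; subst hi
          exact hP.s2bb _ (hP.ndbr _ _ (h _ (by simp))))
      have e1 : ({nd b s1} ∪ {nd b s2} : Finset Co1) = {nd b s1, nd b s2} := rfl
      have e2 : ({br b s1} ∪ {bb b} : Finset Co1) = {br b s1, bb b} := rfl
      rw [e1, e2] at h2
      linarith
    have d1 := hX {bb b} (by simpa using mX3)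
    have d2 := hX {br b v} (by simpa using mX2 v)
    have t1' := tie_cmp hcl hg' (!b) hpq' s1 t1 (Or.inl ⟨rfl, rfl⟩)
    have t2' := tie_cmp hcl hg' (!b) hpq' s2 t2 (Or.inr (Or.inl ⟨rfl, rfl⟩))
    have t3' := tie_cmp hcl hg b hpq s1 t1 (Or.inl ⟨rfl, rfl⟩)
    have t4' := tie_cmp hcl hg b hpq v t3 (Or.inr (Or.inr ⟨rfl, rfl⟩))
    have l1v := l1 v
    rw [abs_le] at t1' t2' t3' t4' hIH
    obtain ⟨t1a, t1b⟩ := t1'
    obtain ⟨t2a, t2b⟩ := t2'
    obtain ⟨t3a, t3b⟩ := t3'
    obtain ⟨t4a, t4b⟩ := t4'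
    obtain ⟨ia, ib⟩ := hIH
    obtain ⟨d1a, d1b⟩ := d1
    obtain ⟨d2a, d2b⟩ := d2
    rw [← l3] at d1a d1b
    rw [← l1v] at d2a d2b
    set a := g {nd b v} with ha
    set b0 := g {br b s1} with hb0
    set c := g {bb b} with hc
    set a' := g' {nd (!b) v} with ha'
    set β1 := g' {br (!b) s1} with hβ1
    set β2 := g' {br (!b) s2} with hβ2
    set bv := g {br b v} with hbv
    set bu := g {br b u} with hbu
    set bu' := g' {br (!b) u} with hbu'
    set K := ρ ^ N * u0 with hK
    have hpow : ρ ^ (N + 1) * u0 = ρ * K := by rw [hK, pow_succ]; ring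
    rw [hpow]
    set Xe := a - b0 - ρ * b0 with hXe
    have e5a : a' - b0 ≤ 2 * η := by linarith
    have e5b : -(2 * η + δ) ≤ a' - b0 := by linarith
    have hρ0 : 0 ≤ ρ := by linarith
    have f1 : ρ * (a' - b0) ≤ ρ * (2 * η + δ) := mul_le_mul_of_nonneg_left (by linarith) hρ0
    have f2 : -(ρ * (2 * η + δ)) ≤ ρ * (a' - b0) := by
      have := mul_le_mul_of_nonneg_left e5b hρ0
      linarith
    have X1 : Xe ≤ K + 12 * η + 34 * δ + ρ * (2 * η + δ) := by
      rw [hXe, c1]
      have : ρ * (a' - b0) = ρ * a' - ρ * b0 := by ring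
      linarith
    have X2 : -(K + 12 * η + 34 * δ + ρ * (2 * η + δ)) ≤ Xe := by
      rw [hXe, c1]
      have : ρ * (a' - b0) = ρ * a' - ρ * b0 := by ring
      linarith
    have hid : b0 - ρ * a = -(ρ * Xe) := by
      rw [hXe]
      have : ρ * (a - b0 - ρ * b0) = ρ * a - ρ * b0 - (ρ * ρ) * b0 := by ring
      rw [this, hρ]
      ring
    rw [hid, abs_neg, abs_mul, abs_of_nonneg hρ0]
    have hXabs : |Xe| ≤ K + 12 * η + 34 * δ + ρ * (2 * η + δ) := abs_le.2 ⟨X2, X1⟩
    have hfin : ρ * |Xe| ≤ ρ * (K + 12 * η + 34 * δ + ρ * (2 * η + δ)) :=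
      mul_le_mul_of_nonneg_left hXabs hρ0
    have hexp : ρ * (K + 12 * η + 34 * δ + ρ * (2 * η + δ)) =
        ρ * K + ρ * (12 * η + 34 * δ) + (ρ * ρ) * (2 * η + δ) := by ring
    rw [hexp, hρ] at hfin
    have hm1 : ρ * (12 * η + 34 * δ) ≤ 0.6181 * (12 * η + 34 * δ) :=
      mul_le_mul_of_nonneg_right hρ2 (by positivity)
    have hm2 : (1 - ρ) * (2 * η + δ) ≤ 0.382 * (2 * η + δ) :=
      mul_le_mul_of_nonneg_right (by linarith) (by positivity)
    linarith

end step

end Run7.h695
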