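import Pool.Agent.Run7.h695.Copy
set_option autoImplicit false
set_option linter.unusedSectionVars false
set_option linter.unusedVariables false

/-! The entropy bound for one copy: the final estimate. -/

namespace Run7.h695

open H137.PFR

open Nd Co1

variable {Ω : Type} [Fintype Ω] {A BT : Type} [Fintype A] [Fintype BT]
  {w : Ω → ℝ} {W : Ω → BT} {Y : Co1 → Ω → A}

/-- a side is generated by three nodes -/
theorem Cl1.side {P : Co1 → Prop} (hP : Cl1 P) (b : Bool) (h1 : P (nd b s1)) (h2 : P (nd b s2))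
    (h3 : P (nd b u)) : ∀ i ∈ XX b, P i := by
  have hv : P (nd b v) := hP.brv b (hP.ndbr _ _ h1) (hP.s2bb _ (hP.ndbr _ _ h2))
  have hnd : ∀ n, P (nd b n) := by
    intro n
    cases n
    · exact h1
    · exact h2
    · exact h3
    · exact hv
    · exact hP.ta b s1 t1 (Or.inl ⟨rfl, rfl⟩) h1 h3
    · exact hP.ta b s2 t2 (Or.inr (Or.inl ⟨rfl, rfl⟩)) h2 h3
    · exact hP.ta b v t3 (Or.inr (Or.inr ⟨rfl, rfl⟩)) hv h3
  intro i hi
  simp only [XX, Finset.mem_filter, Finset.mem_univ, true_and] at hi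
  rcases hi with ⟨n, rfl⟩ | ⟨n, rfl⟩ | rfl
  · exact hnd n
  · exact hP.ndbr _ _ (hnd n)
  · exact hP.s2bb _ (hP.ndbr _ _ h2)

theorem Cl1.zside {P : Co1 → Prop} (hP : Cl1 P) (b : Bool) (h1 : P (z b s1)) (h2 : P (z b s2))
    (h3 : P (z b u)) : ∀ n, P (z b n) := by
  have hv := hP.zv b h1 h2
  intro n
  cases n
  · exact h1
  · exact h2
  · exact h3
  · exact hv
  · exact hP.zt b s1 t1 (Or.inl ⟨rfl, rfl⟩) h3 h1
  · exact hP.zt b s2 t2 (Or.inr (Or.inl ⟨rfl, rfl⟩)) h3 h2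
  · exact hP.zt b v t3 (Or.inr (Or.inr ⟨rfl, rfl⟩)) h3 hv

theorem Cl1.full {P : Co1 → Prop} (hP : Cl1 P) (b : Bool) (hX : ∀ i ∈ XX b, P i)
    (hZ : ∀ n, P (z b n)) : ∀ i, P i := by
  have hnd : ∀ n, P (nd b n) := fun n => hX _ (by simp [XX])
  have hbr : ∀ n, P (br b n) := fun n => hX _ (by simp [XX])
  have hnd' : ∀ n, P (nd (!b) n) := fun n => hP.la b n (hZ n) (hbr n)
  have hbr' : ∀ n, P (br (!b) n) := fun n => hP.ndbr _ _ (hnd' n)
  have hz' : ∀ n, P (z (!b) n) := fun n => hP.lc (!b) n (hbr' n) (by simpa using hnd n)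
  have both : ∀ (Q : Bool → Prop), Q b → Q (!b) → ∀ c, Q c := by
    intro Q h1 h2 c
    cases b <;> cases c <;> simp_all
  have HND := both (fun c => ∀ n, P (nd c n)) hnd hnd'
  intro i
  cases i with
  | nd c n => exact HND c n
  | br c n => exact hP.ndbr _ _ (HND c n)
  | bb c => exact hP.s2bb _ (hP.ndbr _ _ (HND c s2))
  | z c n => exact both (fun c => ∀ n, P (z c n)) hZ hz' c n
  | rx => exact hP.rxa (HND _ _) (HND _ _)

theorem Pr2_gen {P : Co1 → Prop} (hP : Cl1 P) (p q : Nd) (h : Pr2 p q) :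
    ∃ r : Co1, ∀ P : Co1 → Prop, Cl1 P → P (nd false p) → P (nd false q) → P r →
      ∀ i ∈ XX false, P i := by
  rcases h with ⟨rfl, rfl⟩ | h | ⟨rfl, r, h⟩
  · exact ⟨nd false u, fun P hP a b c => hP.side _ a b c⟩
  · rcases h with ⟨rfl, rfl⟩ | ⟨rfl, rfl⟩ | ⟨rfl, rfl⟩
    · exact ⟨nd false s2, fun P hP a b c => hP.side _ a c
        (hP.tb false s1 t1 (Or.inl ⟨rfl, rfl⟩) a b)⟩
    · exact ⟨nd false s1, fun P hP a b c => hP.side _ c a
        (hP.tb false s2 t2 (Or.inr (Or.inl ⟨rfl, rfl⟩)) a b)⟩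
    · exact ⟨rx, fun P hP a b c => hP.side _ (hP.rxb a c) (hP.rxc a c)
        (hP.tb false v t3 (Or.inr (Or.inr ⟨rfl, rfl⟩)) a b)⟩
  · rcases h with ⟨rfl, rfl⟩ | ⟨rfl, rfl⟩ | ⟨rfl, rfl⟩
    · exact ⟨nd false s2, fun P hP a b c => hP.side _
        (hP.tc false s1 t1 (Or.inl ⟨rfl, rfl⟩) a b) c a⟩
    · exact ⟨nd false s1, fun P hP a b c => hP.side _ c
        (hP.tc false s2 t2 (Or.inr (Or.inl ⟨rfl, rfl⟩)) a b) a⟩
    · exact ⟨rx, fun P hP a b c => by
        have hv := hP.tc false v t3 (Or.inr (Or.inr ⟨rfl, rfl⟩)) a b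
        exact hP.side _ (hP.rxb hv c) (hP.rxc hv c) a⟩

theorem three_le {I : Type} [Fintype I] [DecidableEq I] {Y : I → Ω → A} {g : Finset I → ℝ}
    (hg : Gc w W Y g) {u0 : ℝ} (hu : ∀ i, g {i} ≤ u0) (a b c : I) : g {a, b, c} ≤ 3 * u0 := by
  have h1 := Gc_subadd hg {a} {b, c}
  have h2 := Gc_subadd hg {b} {c}
  have e1 : ({a} ∪ {b, c} : Finset I) = {a, b, c} := rfl
  have e2 : ({b} ∪ {c} : Finset I) = {b, c} := rfl
  rw [e1] at h1
  rw [e2] at h2
  linarith [hu a, hu b, hu c]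

theorem copy_bound (hw : Law w) (hcl : ∀ x y, W x = W y → Cl1 (fun i => Y i x = Y i y))
    {ρ u0 : ℝ} (hρ : ρ * ρ = 1 - ρ) (hρ1 : 0.618 ≤ ρ) (hρ2 : ρ ≤ 0.6181)
    (hu : ∀ i, g0 w W Y {i} ≤ u0) :
    0 ≤ 6 * u0 - g0 w W Y Finset.univ ∧
    ρ * u0 - 32 * (6 * u0 - g0 w W Y Finset.univ) ≤ g0 w W Y {br false s1} := by
  have hg : Gc w W Y (g0 w W Y) := Gc_g0 hw
  set g := g0 w W Y with hgdef
  set δ := 6 * u0 - g Finset.univ with hδ
  have hX : ∀ b, g (XX b) ≤ 3 * u0 := by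
    intro b
    refine le_trans (Gc_det hg (Dt_of hcl {nd b s1, nd b s2, nd b u} _ fun P hP h => ?_))
      (three_le hg hu _ _ _)
    exact hP.side b (h _ (by simp)) (h _ (by simp)) (h _ (by simp))
  have hZ : ∀ b, g (ZZ b) ≤ 3 * u0 := by
    intro b
    refine le_trans (Gc_det hg (Dt_of hcl {z b s1, z b s2, z b u} _ fun P hP h i hi => ?_))
      (three_le hg hu _ _ _)
    simp only [ZZ, Finset.mem_filter, Finset.mem_univ, true_and] at hi
    obtain ⟨n, rfl⟩ := hi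
    exact hP.zside b (h _ (by simp)) (h _ (by simp)) (h _ (by simp)) n
  have hU : ∀ b, g Finset.univ ≤ g (XX b ∪ ZZ b) := by
    intro b
    refine Gc_det hg (Dt_of hcl _ _ fun P hP h i _ => ?_)
    exact hP.full b (fun i hi => h i (Finset.mem_union_left _ hi))
      (fun n => h _ (Finset.mem_union_right _ (by simp [ZZ]))) i
  have hδ0 : 0 ≤ δ := by
    have h1 := hU false
    have h2 := Gc_subadd hg (XX false) (ZZ false)
    linarith [hX false, hZ false]
  refine ⟨hδ0, ?_⟩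
  have hI : ∀ b, g (XX b) + g (ZZ b) - g (XX b ∪ ZZ b) ≤ δ := by
    intro b
    linarith [hU b, hX b, hZ b]
  have hX3 : 3 * u0 - δ ≤ g (XX false) := by
    have h1 := hU false
    have h2 := Gc_subadd hg (XX false) (ZZ false)
    linarith [hZ false]
  have hpq : ∀ p q, Pr2 p q →
      g {nd false p} + g {nd false q} - g {nd false p, nd false q} ≤ δ := by
    intro p q h
    by_cases hne : ∃ P, Cl1 P
    · obtain ⟨P, hP⟩ := hne
      obtain ⟨r, hr⟩ := Pr2_gen hP p q h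
      have h1 : g (XX false) ≤ g ({nd false p, nd false q} ∪ {r}) :=
        Gc_det hg (Dt_of hcl _ _ fun P hP h => hr P hP (h _ (by simp)) (h _ (by simp))
          (h _ (by simp)))
      have h2 := Gc_subadd hg {nd false p, nd false q} {r}
      linarith [hu r, hu (nd false p), hu (nd false q)]
    · exfalso
      apply hne
      obtain ⟨ω0⟩ : Nonempty Ω := by
        by_contra hne
        rw [not_nonempty_iff] at hne
        have := hw.2
        simp at this
      exact ⟨_, hcl ω0 ω0 rfl⟩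
  have hv : u0 - δ ≤ g {nd false v} := by
    have h1 : g (XX false) ≤ g ({nd false v} ∪ {nd false u, rx}) :=
      Gc_det hg (Dt_of hcl _ _ fun P hP h => by
        have a : P (nd false v) := h _ (by simp)
        have b : P rx := h _ (by simp)
        exact hP.side _ (hP.rxb a b) (hP.rxc a b) (h _ (by simp)))
    have h2 := Gc_subadd hg {nd false v} {nd false u, rx}
    have h3 := Gc_subadd hg {nd false u} {rx}
    have e2 : ({nd false u} ∪ {rx} : Finset Co1) = {nd false u, rx} := rfl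
    rw [e2] at h3
    linarith [hu rx, hu (nd false u)]
  have hu0 : 0 ≤ u0 := (Gc_nonneg hg {rx}).trans (hu rx)
  -- limit over N
  have key : ∀ N : ℕ, ρ * g {nd false v} - (ρ ^ N * u0 + 9 * δ + 22 * δ) ≤ g {br false s1} := by
    intro N
    have h := main_step hcl hρ hρ1 hρ2 hδ0 hu hI N false δ g hδ0 hg hpq
    rw [abs_le] at h
    linarith [h.1]
  have hlim : Filter.Tendsto (fun N : ℕ => ρ * g {nd false v} - (ρ ^ N * u0 + 9 * δ + 22 * δ))
      Filter.atTop (nhds (ρ * g {nd false v} - (0 * u0 + 9 * δ + 22 * δ))) := by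
    have h1 : Filter.Tendsto (fun N : ℕ => ρ ^ N) Filter.atTop (nhds 0) :=
      tendsto_pow_atTop_nhds_zero_of_lt_one (by linarith) (by linarith)
    exact (((h1.mul_const u0).add_const _).add_const _).const_sub _
  have hfin := le_of_tendsto' hlim key
  have h5 : ρ * (u0 - δ) ≤ ρ * g {nd false v} := mul_le_mul_of_nonneg_left hv (by linarith)
  have h6 : ρ * (u0 - δ) = ρ * u0 - ρ * δ := by ring
  have h7 : ρ * δ ≤ 1 * δ := mul_le_mul_of_nonneg_right (by linarith) hδ0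
  linarith

end Run7.h695
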