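import Pool.Agent.Run7.h695.Model
set_option autoImplicit false
set_option linter.unusedSectionVars false
set_option linter.unusedVariables false

/-! Codes for the index system: counting. -/

open scoped Classical

namespace Run7.h695

open Nd Co1

theorem mk_code {I K V : Type} [Fintype I] [Fintype K] (n : ℕ) (f : I → K → V)
    (S : I → Finset V) (hS : ∀ i k, f i k ∈ S i) (hn : ∀ i, (S i).card ≤ n)
    (hinj : ∀ k k', (∀ i, f i k = f i k') → k = k') :
    ∃ D : Finset (I → Fin n), D.card = Fintype.card K ∧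
      ∀ x ∈ D, ∀ y ∈ D, ∃ k k', ∀ i, x i = y i ↔ f i k = f i k' := by
  have h1 : ∀ i, ∃ g : V → ℕ, ∀ a ∈ S i, g a < n ∧ ∀ b ∈ S i, g a = g b → a = b := by
    intro i
    have e := (S i).equivFin
    refine ⟨fun a => if h : a ∈ S i then (e ⟨a, h⟩ : ℕ) else 0, fun a ha => ⟨?_, fun b hb hab => ?_⟩⟩
    · simp only [ha, dif_pos]
      exact (e ⟨a, ha⟩).2.trans_le (hn i)
    · simp only [ha, hb, dif_pos] at hab
      exact congrArg Subtype.val (e.injective (Fin.ext hab))
  choose g hg using h1
  set F : K → I → Fin n := fun k i => ⟨g i (f i k), (hg i _ (hS i k)).1⟩ with hF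
  have hFeq : ∀ k k' i, F k i = F k' i ↔ f i k = f i k' := by
    intro k k' i
    simp only [hF, Fin.mk.injEq]
    exact ⟨fun h => (hg i _ (hS i k)).2 _ (hS i k') h, fun h => by rw [h]⟩
  have hFinj : Function.Injective F := by
    intro k k' h
    exact hinj k k' fun i => (hFeq k k' i).1 (congrFun h i)
  refine ⟨Finset.univ.image F, ?_, ?_⟩
  · rw [Finset.card_image_of_injective _ hFinj, Finset.card_univ]
  · intro x hx y hy
    obtain ⟨k, _, rfl⟩ := Finset.mem_image.1 hx
    obtain ⟨k', _, rfl⟩ := Finset.mem_image.1 hy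
    exact ⟨k, k', fun i => hFeq k k' i⟩

variable {M : Type} [AddCommGroup M] [Fintype M]

noncomputable def kerY (A : Mdl M) : Finset M := Finset.univ.filter (fun a => A.y a = 0)
noncomputable def kerYY (A : Mdl M) : Finset M := Finset.univ.filter (fun a => A.y (A.y a) = 0)
noncomputable def ranY (A : Mdl M) : Finset M := Finset.univ.image A.y
noncomputable def GS (A : Mdl M) : Finset (M × M × M) := Finset.univ.filter (fun a => a ∈ A.G)

theorem mem_ranY (A : Mdl M) (a : M) : a ∈ ranY A ↔ ∃ b, A.y b = a := by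
  simp [ranY]

theorem mem_GS (A : Mdl M) (a : M × M × M) : a ∈ GS A ↔ a ∈ A.G := by
  simp [GS]

theorem card_side (A : Mdl M) :
    Fintype.card M * ((GS A).card * ((kerY A).card * (kerYY A).card)) ≤
      Fintype.card {k : M × M × M × M // Gd A k} := by
  have hpre : ∀ γ : M × M × M, ∃ c : M × M, γ ∈ A.G → A.y c.1 = γ.2.1 ∧ A.y (A.y c.2) = γ.2.2 := by
    intro γ
    by_cases h : γ ∈ A.G
    · obtain ⟨⟨c, hc⟩, ⟨d, hd⟩⟩ := A.Gr γ.1 γ.2.1 γ.2.2 h
      exact ⟨(c, d), fun _ => ⟨hc, hd⟩⟩
    · exact ⟨(0, 0), fun h' => absurd h' h⟩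
  choose c hc using hpre
  have key : ((Finset.univ : Finset M) ×ˢ (GS A ×ˢ (kerY A ×ˢ kerYY A))).card ≤
      (Finset.univ.filter (fun k : M × M × M × M => Gd A k)).card := by
    refine Finset.card_le_card_of_injOn
      (fun t : M × (M × M × M) × M × M => ((c t.2.1).1 + t.2.2.1, (c t.2.1).2 + t.2.2.2, t.1,
        t.2.1.1)) ?_ ?_
    · rintro ⟨u, γ, κ1, κ2⟩ h
      simp only [Finset.coe_product, Set.mem_prod, Finset.mem_coe, GS, kerY, kerYY,
        Finset.mem_filter, Finset.mem_univ, true_and] at h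
      obtain ⟨hγ, hκ1, hκ2⟩ := h
      rw [Finset.mem_coe, Finset.mem_filter]
      refine ⟨Finset.mem_univ _, ?_⟩
      change (γ.1, A.y ((c γ).1 + κ1), A.y (A.y ((c γ).2 + κ2))) ∈ A.G
      rw [map_add, map_add, map_add, (hc γ hγ).1, (hc γ hγ).2, hκ1, hκ2, add_zero, add_zero]
      exact hγ
    · rintro ⟨u, γ, κ1, κ2⟩ h ⟨u', γ', κ1', κ2'⟩ h' heq
      simp only [Finset.coe_product, Set.mem_prod, Finset.mem_coe, GS, kerY, kerYY,
        Finset.mem_filter, Finset.mem_univ, true_and] at h h'
      obtain ⟨hγ, hκ1, hκ2⟩ := h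
      obtain ⟨hγ', hκ1', hκ2'⟩ := h'
      simp only [Prod.mk.injEq] at heq
      obtain ⟨e1, e2, e3, e4⟩ := heq
      have f1 : γ.2.1 = γ'.2.1 := by
        have := congrArg A.y e1
        rw [map_add, map_add, (hc γ hγ).1, (hc γ' hγ').1, hκ1, hκ1', add_zero, add_zero] at this
        exact this
      have f2 : γ.2.2 = γ'.2.2 := by
        have := congrArg (fun a => A.y (A.y a)) e2
        simp only [map_add] at this
        rw [(hc γ hγ).2, (hc γ' hγ').2, hκ2, hκ2', add_zero, add_zero] at this
        exact this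
      have f3 : γ = γ' := Prod.ext e4 (Prod.ext f1 f2)
      subst f3
      have g1 := add_left_cancel e1
      have g2 := add_left_cancel e2
      rw [g1, g2, e3]
  rw [Finset.card_product, Finset.card_product, Finset.card_product, Finset.card_univ] at key
  rwa [Fintype.card_subtype]

theorem jcode (A : Mdl M) (Mc : ℕ) (R : Type) [Fintype R] (n : ℕ)
    (hM : Fintype.card M ≤ n) (hker : (kerY A).card * (kerYY A).card ≤ n)
    (hR : Fintype.card R * (ranY A).card ≤ n) :
    ∃ D : Finset (JI Mc → Fin n),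
      (Fintype.card M * ((GS A).card * ((kerY A).card * (kerYY A).card))) ^ (Mc * 2) *
        Fintype.card R ≤ D.card ∧
      ∀ x ∈ D, ∀ y ∈ D, JCl Mc (fun i => x i = y i) := by
  have hs1 : ∀ x, ∃ c, (∃ a, A.y a = x) → A.y c = x := by
    intro x
    by_cases h : ∃ a, A.y a = x
    · obtain ⟨a, ha⟩ := h
      exact ⟨a, fun _ => ha⟩
    · exact ⟨0, fun h' => absurd h' h⟩
  have hs2 : ∀ x, ∃ c, (∃ a, A.y (A.y a) = x) → A.y (A.y c) = x := by
    intro x
    by_cases h : ∃ a, A.y (A.y a) = x
    · obtain ⟨a, ha⟩ := h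
      exact ⟨a, fun _ => ha⟩
    · exact ⟨0, fun h' => absurd h' h⟩
  choose sec1 hsec1 using hs1
  choose sec2 hsec2 using hs2
  set K2 := {k : M × M × M × M // Gd A k} with hK2
  set K := (Fin Mc × Bool → K2) × R with hK
  set kc : K → Fin Mc → Bool → M × M × M × M := fun k c b => (k.1 (c, b)).1 with hkc
  set f : JI Mc → K → (M × M) ⊕ (R ⊕ (R × M)) := fun i k =>
    match i with
    | Sum.inl (c, j) => Sum.inl (cv A.y sec1 sec2 (kc k c) j)
    | Sum.inr none => Sum.inr (Sum.inl k.2)
    | Sum.inr (some c) => Sum.inr (Sum.inr (k.2, A.y (kc k c false).1)) with hf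
  set S : JI Mc → Finset ((M × M) ⊕ (R ⊕ (R × M))) := fun i =>
    match i with
    | Sum.inl (c, rx) => (kerY A ×ˢ kerYY A).image Sum.inl
    | Sum.inl (c, _) => (Finset.univ : Finset M).image (fun a => Sum.inl (a, 0))
    | Sum.inr none => (Finset.univ : Finset R).image (fun r => Sum.inr (Sum.inl r))
    | Sum.inr (some c) => ((Finset.univ : Finset R) ×ˢ ranY A).image
        (fun r => Sum.inr (Sum.inr r)) with hSdef
  have hranpos : 0 < (ranY A).card := Finset.card_pos.2 ⟨A.y 0, Finset.mem_image_of_mem _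
    (Finset.mem_univ _)⟩
  have hRn : Fintype.card R ≤ n := (Nat.le_mul_of_pos_right _ hranpos).trans hR
  have h1S : ∀ i k, f i k ∈ S i := by
    intro i k
    rcases i with ⟨c, j⟩ | _ | c
    · cases j with
      | nd b n => simp [hf, hSdef, cv]
      | br b n => simp [hf, hSdef, cv]
      | bb b => simp [hf, hSdef, cv]
      | z b n => simp [hf, hSdef, cv]
      | rx =>
        simp only [hf, hSdef, cv, Finset.mem_image, Finset.mem_product]
        refine ⟨_, ⟨?_, ?_⟩, rfl⟩
        · simp only [kerY, Finset.mem_filter, Finset.mem_univ, true_and, map_sub]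
          rw [hsec1 _ ⟨_, rfl⟩, sub_self]
        · simp only [kerYY, Finset.mem_filter, Finset.mem_univ, true_and, map_sub]
          rw [hsec2 _ ⟨_, rfl⟩, sub_self]
    · simp [hf, hSdef]
    · simp [hf, hSdef, ranY]
  have h2S : ∀ i, (S i).card ≤ n := by
    intro i
    rcases i with ⟨c, j⟩ | _ | c
    · cases j with
      | nd b n => exact Finset.card_image_le.trans (by rw [Finset.card_univ]; exact hM)
      | br b n => exact Finset.card_image_le.trans (by rw [Finset.card_univ]; exact hM)
      | bb b => exact Finset.card_image_le.trans (by rw [Finset.card_univ]; exact hM)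
      | z b n => exact Finset.card_image_le.trans (by rw [Finset.card_univ]; exact hM)
      | rx => exact Finset.card_image_le.trans (by rw [Finset.card_product]; exact hker)
    · exact Finset.card_image_le.trans (by rw [Finset.card_univ]; exact hRn)
    · exact Finset.card_image_le.trans (by
        rw [Finset.card_product, Finset.card_univ]; exact hR)
  have h3S : ∀ k k', (∀ i, f i k = f i k') → k = k' := by
    intro k k' h
    refine Prod.ext ?_ ?_
    · funext ⟨c, b⟩
      apply Subtype.ext
      have g1 := h (Sum.inl (c, nd b s1))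
      have g2 := h (Sum.inl (c, nd b s2))
      have g3 := h (Sum.inl (c, nd b u))
      have g4 := h (Sum.inl (c, nd b v))
      simp only [hf, hkc, cv, nv, Sum.inl.injEq, Prod.mk.injEq, and_true] at g1 g2 g3 g4
      exact Prod.ext g1 (Prod.ext g2 (Prod.ext g3 g4))
    · have g1 := h (Sum.inr none)
      simpa [hf] using g1
  obtain ⟨D, hD1, hD2⟩ := mk_code n f S h1S h2S h3S
  · refine ⟨D, ?_, ?_⟩
    · have hcK : Fintype.card ((Fin Mc × Bool → {k : M × M × M × M // Gd A k}) × R) =
          Fintype.card {k : M × M × M × M // Gd A k} ^ (Mc * 2) * Fintype.card R := by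
        rw [Fintype.card_prod, Fintype.card_fun, Fintype.card_prod, Fintype.card_fin,
          Fintype.card_bool]
      rw [hD1.trans hcK]
      exact Nat.mul_le_mul_right _ (Nat.pow_le_pow_left (card_side A) _)
    · intro x hx y hy
      obtain ⟨k, k', hkk⟩ := hD2 x hx y hy
      have e : (fun i => x i = y i) = fun i => f i k = f i k' := by
        funext i
        exact propext (hkk i)
      rw [e]
      refine ⟨fun c => ?_, fun c => ⟨fun h1 h2 => ?_, fun h1 => ?_, fun h1 => ?_⟩⟩
      · have h1 := cv_cl A sec1 sec2 (kc k c) (kc k' c) (fun b => (k.1 (c, b)).2)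
          (fun b => (k'.1 (c, b)).2)
        have e2 : (fun i => f (Sum.inl (c, i)) k = f (Sum.inl (c, i)) k') =
            (fun i => cv A.y sec1 sec2 (kc k c) i = cv A.y sec1 sec2 (kc k' c) i) := by
          funext i
          simp [hf]
        rw [e2]
        exact h1
      · simp only [hf, Sum.inl.injEq, Sum.inr.injEq, cv, nv, Prod.mk.injEq, and_true] at h1 h2 ⊢
        exact ⟨h2, h1⟩
      · simp only [hf, Sum.inl.injEq, Sum.inr.injEq, cv, nv, Prod.mk.injEq, and_true] at h1 ⊢
        exact h1.2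
      · simp only [hf, Sum.inl.injEq, Sum.inr.injEq, cv, nv, Prod.mk.injEq, and_true] at h1 ⊢
        exact h1.1

end Run7.h695
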