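import Pool.Agent.Run7.h695.Psi
import Pool.Agent.Run7.h695.JCode
set_option autoImplicit false
set_option linter.unusedSectionVars false
set_option linter.unusedVariables false

/-! The module attached to a diagram. -/

open scoped Classical

namespace Run7.h695

/-- functions supported on a finite set of cells -/
def SG (S : Finset (ℕ × ℕ)) : AddSubgroup FF where
  carrier := {f | ∀ i l, (i, l) ∉ S → f i l = 0}
  add_mem' := by
    intro f g hf hg i l h
    change f i l + g i l = 0
    rw [hf i l h, hg i l h, add_zero]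
  zero_mem' := fun _ _ _ => rfl
  neg_mem' := by
    intro f hf i l h
    change - f i l = 0
    rw [hf i l h, neg_zero]

noncomputable def SGequiv (S : Finset (ℕ × ℕ)) : SG S ≃ (S → ZMod 2) where
  toFun f c := f.1 c.1.1 c.1.2
  invFun φ := ⟨fun i l => if h : (i, l) ∈ S then φ ⟨(i, l), h⟩ else 0, fun i l h => by
    simp [h]⟩
  left_inv f := by
    apply Subtype.ext
    funext i l
    by_cases h : (i, l) ∈ S
    · simp [h]
    · simp [h, f.2 i l h]
  right_inv φ := by
    funext c
    simp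

noncomputable instance (S : Finset (ℕ × ℕ)) : Fintype (SG S) := Fintype.ofEquiv _ (SGequiv S).symm

theorem card_SG (S : Finset (ℕ × ℕ)) : Fintype.card (SG S) = 2 ^ S.card := by
  rw [Fintype.card_congr (SGequiv S), Fintype.card_fun, ZMod.card, Fintype.card_coe]

/-- the cells of a diagram on the levels `a ≤ l < b` -/
def cells (p : ℕ → ℕ) (a b : ℕ) : Finset (ℕ × ℕ) :=
  ((Finset.Ico a b).sigma (fun l => Finset.range (p l))).image (fun x => (x.2, x.1))

theorem mem_cells {p : ℕ → ℕ} {a b i l : ℕ} : (i, l) ∈ cells p a b ↔ (a ≤ l ∧ l < b) ∧ i < p l := by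
  unfold cells
  rw [Finset.mem_image]
  constructor
  · rintro ⟨⟨x, y⟩, h1, h2⟩
    rw [Finset.mem_sigma, Finset.mem_Ico, Finset.mem_range] at h1
    simp only [Prod.mk.injEq] at h2
    obtain ⟨rfl, rfl⟩ := h2
    exact h1
  · rintro ⟨h1, h2⟩
    refine ⟨⟨l, i⟩, ?_, rfl⟩
    rw [Finset.mem_sigma, Finset.mem_Ico, Finset.mem_range]
    exact ⟨h1, h2⟩

theorem card_cells (p : ℕ → ℕ) (a b : ℕ) : (cells p a b).card = ∑ l ∈ Finset.Ico a b, p l := by
  unfold cells
  rw [Finset.card_image_of_injective, Finset.card_sigma]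
  · simp
  · rintro ⟨a, b⟩ ⟨c, d⟩ h
    simp only [Prod.mk.injEq] at h
    obtain ⟨rfl, rfl⟩ := h
    rfl

/-- the data for the model -/
structure MD (p mn msM msN : ℕ → ℕ) (H h r : ℕ) : Prop where
  anti : Antitone p
  supp : ∀ l, H ≤ l → p l = 0
  DM : PD mn msM h r
  DN : PD mn msN h r
  mnz : ∀ l, h ≤ l → mn l = 0
  leM : ∀ l, mn l ≤ p l
  leN : ∀ l, mn l ≤ p (l + 1) + p (l + 2)
  ltM : ∀ j < r, mn (msM j) < p (msM j)
  ltN : ∀ j < r, mn (msN j) < p (msN j + 1) + p (msN j + 2)

section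

variable {p mn msM msN : ℕ → ℕ} {H h r : ℕ} (D : MD p mn msM msN H h r)
include D

theorem MD.mem_iff (f : FF) : f ∈ SG (cells p 0 H) ↔ InD p f := by
  constructor
  · intro hf i l hil
    apply hf
    rw [mem_cells]
    omega
  · intro hf i l hil
    rw [mem_cells] at hil
    by_cases hl : H ≤ l
    · exact hf i l (by rw [D.supp l hl]; omega)
    · exact hf i l (by by_contra h; exact hil ⟨⟨by omega, by omega⟩, by omega⟩)

theorem MD.ex_zero (k : ℕ) : ∃ l, p l ≤ k := ⟨H, by rw [D.supp H le_rfl]; omega⟩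

end

/-- the length of a row -/
noncomputable def lam (p : ℕ → ℕ) (k : ℕ) : ℕ := if h : ∃ l, p l ≤ k then Nat.find h else 0

section

variable {p mn msM msN : ℕ → ℕ} {H h r : ℕ} (D : MD p mn msM msN H h r)
include D

theorem MD.lam_iff (k j : ℕ) : k < p j ↔ j < lam p k := by
  unfold lam
  rw [dif_pos (D.ex_zero k)]
  rw [Nat.lt_find_iff]
  constructor
  · intro h1 m hm h2
    have := D.anti hm
    omega
  · intro h1
    have := h1 j le_rfl
    omega

theorem MD.lam_ge (k : ℕ) : p (lam p k) ≤ k := by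
  by_contra h1
  push Not at h1
  rw [D.lam_iff] at h1
  omega

end

/-- row maps of the two summands -/
noncomputable def be1 (p : ℕ → ℕ) (k : ℕ) : ℕ := k + p (lam p k + 1)
noncomputable def be2 (p : ℕ → ℕ) (k : ℕ) : ℕ := k + p (lam p k - 2)

section

variable {p mn msM msN : ℕ → ℕ} {H h r : ℕ} (D : MD p mn msM msN H h r)
include D

theorem MD.be1_iff (k l : ℕ) : be1 p k < p (l + 1) + p (l + 2) ↔ k < p (l + 1) := by
  unfold be1
  rw [D.lam_iff k (l + 1)]
  constructor
  · intro h1
    by_contra h2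
    push Not at h2
    have h3 := D.lam_ge k
    have h4 : p (l + 1) ≤ p (lam p k) := D.anti h2
    have h5 : p (l + 2) ≤ p (lam p k + 1) := D.anti (by omega)
    omega
  · intro h1
    have h3 := (D.lam_iff k (l + 1)).2 h1
    have h4 : p (lam p k + 1) ≤ p (l + 2) := D.anti (by omega)
    omega

theorem MD.be2_iff (k l : ℕ) : be2 p k < p (l + 1) + p (l + 2) ↔ k < p (l + 2) := by
  unfold be2
  rw [D.lam_iff k (l + 2)]
  constructor
  · intro h1
    by_contra h2
    push Not at h2
    have h3 := D.lam_ge k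
    have h4 : p (l + 2) ≤ p (lam p k) := D.anti h2
    have h5 : p (l + 1) ≤ p (lam p k - 2) := D.anti (by omega)
    omega
  · intro h1
    have h3 := (D.lam_iff k (l + 2)).2 h1
    have h4 : p (lam p k - 2) ≤ p (l + 1) := D.anti (by omega)
    omega

theorem MD.be_surj (i : ℕ) (hi : i < p 1 + p 2) : (∃ k, be1 p k = i) ∨ ∃ k, be2 p k = i := by
  have hex : ∃ m, p (m + 1) + p (m + 2) ≤ i :=
    ⟨H, by rw [D.supp _ (by omega), D.supp _ (by omega)]; omega⟩
  have h1 : Nat.find hex ≠ 0 := by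
    intro h0
    have := Nat.find_spec hex
    rw [h0] at this
    simp only [zero_add] at this
    omega
  obtain ⟨m, hm⟩ : ∃ m, Nat.find hex = m + 1 := ⟨Nat.find hex - 1, by omega⟩
  have h2 := Nat.find_spec hex
  rw [hm] at h2
  have h3 : ¬ (p (m + 1) + p (m + 2) ≤ i) := Nat.find_min hex (by omega)
  push Not at h3
  have e2 : m + 1 + 1 = m + 2 := rfl
  have e3 : m + 1 + 2 = m + 3 := rfl
  rw [e2, e3] at h2
  have hlam : ∀ k j, k < p j → p (j + 1) ≤ k → lam p k = j + 1 := by
    intro k j ha hb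
    have c1 := (D.lam_iff k j).1 ha
    have c2 : ¬ (j + 1 < lam p k) := fun hc => by
      have := (D.lam_iff k (j + 1)).2 hc
      omega
    omega
  by_cases hc : i < p (m + 1) + p (m + 3)
  · left
    refine ⟨i - p (m + 3), ?_⟩
    unfold be1
    rw [hlam (i - p (m + 3)) (m + 1) (by omega) (by rw [e2]; omega)]
    have e4 : m + 1 + 1 + 1 = m + 3 := rfl
    rw [e4]
    omega
  · right
    refine ⟨i - p (m + 1), ?_⟩
    unfold be2
    have e5 : m + 2 + 1 = m + 3 := rfl
    rw [hlam (i - p (m + 1)) (m + 2) (by omega) (by rw [e5]; omega)]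
    have e6 : m + 2 + 1 - 2 = m + 1 := by omega
    rw [e6]
    omega

end

/-- the two components -/
noncomputable def c1 (p : ℕ → ℕ) (f : FF) : FF := fun k l => f (be1 p k) l
noncomputable def c2 (p : ℕ → ℕ) (f : FF) : FF := fun k l => f (be2 p k) l

/-- the set of triples -/
def Tr (p mn msM msN : ℕ → ℕ) (r r' : ℕ) (v a b : FF) : Prop :=
  ∃ (g : FF) (x : ℕ → ZMod 2), InD mn g ∧ (∀ s, r' ≤ s → x s = 0) ∧
    v = Psi mn msM r g x ∧ a = c1 p (Psi mn msN r g x) ∧ b = c2 p (Psi mn msN r g x)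

section

variable {p mn msM msN : ℕ → ℕ} {H h r : ℕ} (D : MD p mn msM msN H h r)
include D

theorem MD.memM {g : FF} (hg : InD mn g) (x : ℕ → ZMod 2) : InD p (Psi mn msM r g x) :=
  D.DM.mem D.leM D.ltM hg x

theorem MD.memN {g : FF} (hg : InD mn g) (x : ℕ → ZMod 2) :
    InD (fun l => p (l + 1) + p (l + 2)) (Psi mn msN r g x) :=
  D.DN.mem D.leN D.ltN hg x

theorem MD.c_zero {f : FF} (hf : InD (fun l => p (l + 1) + p (l + 2)) f) (h1 : c1 p f = 0)
    (h2 : c2 p f = 0) : f = 0 := by
  funext i l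
  by_cases hi : i < p 1 + p 2
  · rcases D.be_surj i hi with ⟨k, rfl⟩ | ⟨k, rfl⟩
    · exact congrFun (congrFun h1 k) l
    · exact congrFun (congrFun h2 k) l
  · apply hf
    have e1 : p (l + 1) ≤ p 1 := D.anti (by omega)
    have e2 : p (l + 2) ≤ p 2 := D.anti (by omega)
    simp only
    omega

end

theorem InD_add {p : ℕ → ℕ} {f g : FF} (hf : InD p f) (hg : InD p g) : InD p (f + g) := by
  intro i l h
  change f i l + g i l = 0
  rw [hf i l h, hg i l h, add_zero]

theorem FF_neg (f : FF) : -f = f := by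
  funext i l
  exact ZModModule.neg_eq_self (f i l)

theorem Tr_add {p mn msM msN : ℕ → ℕ} {r r' : ℕ} {v a b v' a' b' : FF}
    (h : Tr p mn msM msN r r' v a b) (h' : Tr p mn msM msN r r' v' a' b') :
    Tr p mn msM msN r r' (v + v') (a + a') (b + b') := by
  obtain ⟨g, x, hg, hx, rfl, rfl, rfl⟩ := h
  obtain ⟨g', x', hg', hx', rfl, rfl, rfl⟩ := h'
  refine ⟨g + g', x + x', InD_add hg hg', fun s hs => ?_, ?_, ?_, ?_⟩
  · change x s + x' s = 0
    rw [hx s hs, hx' s hs, add_zero]
  · rw [Psi_add]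
  · rw [Psi_add]; rfl
  · rw [Psi_add]; rfl

theorem Tr_zero {p mn msM msN : ℕ → ℕ} {r r' : ℕ} : Tr p mn msM msN r r' 0 0 0 := by
  refine ⟨0, 0, fun _ _ _ => rfl, fun _ _ => rfl, ?_, ?_, ?_⟩
  · rw [Psi_zero]
  · rw [Psi_zero]; rfl
  · rw [Psi_zero]; rfl

/-- the subgroup of triples -/
def TG (p mn msM msN : ℕ → ℕ) (H r r' : ℕ) :
    AddSubgroup (SG (cells p 0 H) × SG (cells p 0 H) × SG (cells p 0 H)) where
  carrier := {t | Tr p mn msM msN r r' t.1.1 t.2.1.1 t.2.2.1}
  add_mem' := fun h h' => Tr_add h h'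
  zero_mem' := Tr_zero
  neg_mem' := by
    rintro ⟨v, a, b⟩ h
    change Tr p mn msM msN r r' (-v.1) (-a.1) (-b.1)
    rw [FF_neg, FF_neg, FF_neg]
    exact h

section

variable {p mn msM msN : ℕ → ℕ} {H h r : ℕ} (D : MD p mn msM msN H h r)

/-- the shift on the module -/
def MD.Y : SG (cells p 0 H) →+ SG (cells p 0 H) where
  toFun f := ⟨yy f.1, by
    rw [D.mem_iff]
    intro i l h1
    have := (D.mem_iff f.1).1 f.2
    exact this i (l + 1) ((D.anti (by omega)).trans h1)⟩
  map_zero' := rfl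
  map_add' _ _ := rfl

theorem MD.Y_val (f : SG (cells p 0 H)) : (D.Y f).1 = yy f.1 := rfl

/-- the model attached to the data -/
def MD.mdl : Mdl (SG (cells p 0 H)) where
  y := D.Y
  P := TG p mn msM msN H r r
  G := TG p mn msM msN H r (r - 1)
  P1 := by
    rintro v ⟨g, x, hg, hx, h1, h2, h3⟩
    have h4 := D.c_zero (D.memN hg x) h2.symm h3.symm
    obtain ⟨rfl, rfl⟩ := D.DN.inj hg hx h4
    apply Subtype.ext
    rw [Psi_zero] at h1
    exact h1
  P1' := by
    rintro a b ⟨g, x, hg, hx, h1, h2, h3⟩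
    obtain ⟨rfl, rfl⟩ := D.DM.inj hg hx h1.symm
    rw [Psi_zero] at h2 h3
    exact ⟨Subtype.ext h2, Subtype.ext h3⟩
  GP := by
    rintro t ⟨g, x, hg, hx, h1⟩
    exact ⟨g, x, hg, fun s hs => hx s (by omega), h1⟩
  P2 := by
    rintro v a b ⟨g, x, hg, hx, h1, h2, h3⟩
    refine ⟨yy g, sh x, ?_, ?_, ?_, ?_, ?_⟩
    · intro i l hil
      exact hg i (l + 1) ((D.DM.anti (by omega)).trans hil)
    · intro s hs
      unfold sh
      split_ifs with h0
      · rfl
      · exact hx _ (by omega)
    · rw [← D.DM.equiv]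
      change yy v.1 = _
      rw [h1]
    · rw [← D.DN.equiv]
      change yy a.1 = _
      rw [h2]
      rfl
    · rw [← D.DN.equiv]
      change yy b.1 = _
      rw [h3]
      rfl
  Gr := by
    rintro v a b ⟨g, x, hg, hx, h1, h2, h3⟩
    have hN := D.memN hg x
    constructor
    · refine ⟨⟨fun i l => if l = 0 then 0 else a.1 i (l - 1), ?_⟩, ?_⟩
      · rw [D.mem_iff]
        intro i l hil
        change (if l = 0 then 0 else a.1 i (l - 1)) = 0
        split_ifs with h0
        · rfl
        · rw [h2]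
          apply hN
          by_contra hlt
          push Not at hlt
          rw [D.be1_iff] at hlt
          have : l - 1 + 1 = l := by omega
          rw [this] at hlt
          omega
      · apply Subtype.ext
        rw [MD.Y_val]
        funext i l
        simp [yy]
    · refine ⟨⟨fun i l => if l < 2 then 0 else b.1 i (l - 2), ?_⟩, ?_⟩
      · rw [D.mem_iff]
        intro i l hil
        change (if l < 2 then 0 else b.1 i (l - 2)) = 0
        split_ifs with h0
        · rfl
        · rw [h3]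
          apply hN
          by_contra hlt
          push Not at hlt
          rw [D.be2_iff] at hlt
          have : l - 2 + 2 = l := by omega
          rw [this] at hlt
          omega
      · apply Subtype.ext
        rw [MD.Y_val, MD.Y_val]
        funext i l
        simp [yy]

end

end Run7.h695
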