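import Pool.Agent.H137R2.PFR.Bsg
set_option autoImplicit false
set_option linter.unusedSectionVars false

/-! Conditional entropy set functions over a base law, closed under one-sided copies. -/

open scoped Classical

namespace Run7.h695

open H137.PFR

section gen

variable {Ω : Type} [Fintype Ω]

theorem H_le_of_det {α β : Type} [Fintype α] [Fintype β] {w : Ω → ℝ} (hw : Law w) (X : Ω → α)
    (Z : Ω → β) (h : ∀ x y, X x = X y → Z x = Z y) : H w Z ≤ H w X := by
  obtain ⟨ω0⟩ : Nonempty Ω := by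
    by_contra hne
    rw [not_nonempty_iff] at hne
    have := hw.2
    simp at this
  have h1 := H_comp_le hw X (fun a => if h' : ∃ x, X x = a then Z h'.choose else Z ω0)
  have h2 : (fun ω => (fun a => if h' : ∃ x, X x = a then Z h'.choose else Z ω0) (X ω)) = Z := by
    funext ω
    have h3 : ∃ x, X x = X ω := ⟨ω, rfl⟩
    simp only [h3, dif_pos]
    exact h _ _ h3.choose_spec
  rw [h2] at h1
  exact h1

theorem H_eq_of_det {α β : Type} [Fintype α] [Fintype β] {w : Ω → ℝ} (hw : Law w) (X : Ω → α)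
    (Z : Ω → β) (h : ∀ x y, X x = X y ↔ Z x = Z y) : H w Z = H w X :=
  le_antisymm (H_le_of_det hw X Z fun x y => (h x y).1) (H_le_of_det hw Z X fun x y => (h x y).2)

theorem H_push {Ω' α : Type} [Fintype Ω'] [Fintype α] (w' : Ω' → ℝ) (π : Ω' → Ω) (X : Ω → α) :
    H w' (fun x => X (π x)) = H (push w' π) X := by
  unfold H
  rw [push_push]

end gen

variable {Ω : Type} [Fintype Ω] {I A BT : Type} [Fintype I] [DecidableEq I] [Fintype A]
  [Fintype BT]

/-- the joint variable of the coordinates in `S` -/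
noncomputable def YS (Y : I → Ω → A) (S : Finset I) (ω : Ω) : I → Option A :=
  fun i => if i ∈ S then some (Y i ω) else none

theorem YS_eq (Y : I → Ω → A) (S : Finset I) (x y : Ω) :
    YS Y S x = YS Y S y ↔ ∀ i ∈ S, Y i x = Y i y := by
  constructor
  · intro h i hi
    have := congrFun h i
    simpa [YS, hi] using this
  · intro h
    funext i
    by_cases hi : i ∈ S
    · simp [YS, hi, h i hi]
    · simp [YS, hi]

/-- set functions of conditional entropies given a refinement of the base -/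
def Gc (w : Ω → ℝ) (W : Ω → BT) (Y : I → Ω → A) (g : Finset I → ℝ) : Prop :=
  ∃ (Ω' : Type) (_ : Fintype Ω') (w' : Ω' → ℝ) (π : Ω' → Ω) (D : Type) (_ : Fintype D)
    (Z : Ω' → D), Law w' ∧ push w' π = w ∧ (∀ x y, Z x = Z y → W (π x) = W (π y)) ∧
      ∀ S, g S = H w' (fun x => (Z x, YS Y S (π x))) - H w' Z

/-- the base set function -/
noncomputable def g0 (w : Ω → ℝ) (W : Ω → BT) (Y : I → Ω → A) (S : Finset I) : ℝ :=
  H w (fun x => (W x, YS Y S x)) - H w W

/-- `S` determines `T` over the base -/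
def Dt (W : Ω → BT) (Y : I → Ω → A) (S T : Finset I) : Prop :=
  ∀ x y, W x = W y → (∀ i ∈ S, Y i x = Y i y) → ∀ i ∈ T, Y i x = Y i y

variable {w : Ω → ℝ} {W : Ω → BT} {Y : I → Ω → A}

theorem Gc_g0 (hw : Law w) : Gc w W Y (g0 w W Y) :=
  ⟨Ω, inferInstance, w, fun x => x, BT, inferInstance, W, hw, B_push_id w,
    fun _ _ h => h, fun _ => rfl⟩

theorem Gc_empty {g : Finset I → ℝ} (hg : Gc w W Y g) : g ∅ = 0 := by
  obtain ⟨Ω', _, w', π, D, _, Z, hw', hp, hZ, h⟩ := hg
  rw [h, sub_eq_zero]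
  refine H_eq_of_det hw' _ _ fun x y => ?_
  rw [Prod.mk.injEq, YS_eq]
  simp

theorem Gc_det {g : Finset I → ℝ} (hg : Gc w W Y g) {S T : Finset I} (hD : Dt W Y S T) :
    g T ≤ g S := by
  obtain ⟨Ω', _, w', π, D, _, Z, hw', hp, hZ, h⟩ := hg
  rw [h, h]
  refine sub_le_sub_right (H_le_of_det hw' _ _ fun x y hxy => ?_) _
  rw [Prod.mk.injEq, YS_eq] at hxy ⊢
  exact ⟨hxy.1, hD _ _ (hZ _ _ hxy.1) hxy.2⟩

theorem Gc_submod {g : Finset I → ℝ} (hg : Gc w W Y g) (S T U : Finset I) :
    g (S ∪ T ∪ U) + g U ≤ g (S ∪ U) + g (T ∪ U) := by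
  obtain ⟨Ω', _, w', π, D, _, Z, hw', hp, hZ, h⟩ := hg
  rw [h, h, h, h]
  have h1 := H_submod hw' (fun x => YS Y S (π x)) (fun x => YS Y T (π x))
    (fun x => (Z x, YS Y U (π x)))
  have e1 : H w' (fun x => (YS Y S (π x), YS Y T (π x), Z x, YS Y U (π x))) =
      H w' (fun x => (Z x, YS Y (S ∪ T ∪ U) (π x))) := by
    refine H_eq_of_det hw' _ _ fun x y => ?_
    simp only [Prod.mk.injEq, YS_eq, Finset.mem_union]
    constructor
    · rintro ⟨a, b⟩
      exact ⟨fun i hi => b i (Or.inl (Or.inl hi)), fun i hi => b i (Or.inl (Or.inr hi)), a,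
        fun i hi => b i (Or.inr hi)⟩
    · rintro ⟨a, b, c, d⟩
      refine ⟨c, fun i hi => ?_⟩
      rcases hi with (hi | hi) | hi
      · exact a i hi
      · exact b i hi
      · exact d i hi
  have e2 : ∀ S : Finset I, H w' (fun x => (YS Y S (π x), Z x, YS Y U (π x))) =
      H w' (fun x => (Z x, YS Y (S ∪ U) (π x))) := by
    intro S
    refine H_eq_of_det hw' _ _ fun x y => ?_
    simp only [Prod.mk.injEq, YS_eq, Finset.mem_union]
    constructor
    · rintro ⟨a, b⟩
      exact ⟨fun i hi => b i (Or.inl hi), a, fun i hi => b i (Or.inr hi)⟩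
    · rintro ⟨a, c, d⟩
      refine ⟨c, fun i hi => ?_⟩
      rcases hi with hi | hi
      · exact a i hi
      · exact d i hi
  rw [e1, e2 S, e2 T] at h1
  linarith

theorem Gc_le_g0 {g : Finset I → ℝ} (hg : Gc w W Y g) (S : Finset I) : g S ≤ g0 w W Y S := by
  obtain ⟨Ω', _, w', π, D, _, Z, hw', hp, hZ, h⟩ := hg
  rw [h]
  unfold g0
  have h1 := H_submod hw' Z (fun x => YS Y S (π x)) (fun x => W (π x))
  have e1 : H w' (fun x => (Z x, YS Y S (π x), W (π x))) = H w' (fun x => (Z x, YS Y S (π x))) := by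
    refine H_eq_of_det hw' _ _ fun x y => ?_
    simp only [Prod.mk.injEq]
    exact ⟨fun h => ⟨h.1, h.2, hZ _ _ h.1⟩, fun h => ⟨h.1, h.2.1⟩⟩
  have e2 : H w' (fun x => (Z x, W (π x))) = H w' Z := by
    refine H_eq_of_det hw' _ _ fun x y => ?_
    simp only [Prod.mk.injEq]
    exact ⟨fun h => ⟨h, hZ _ _ h⟩, fun h => h.1⟩
  have e3 : H w' (fun x => W (π x)) = H w W := by rw [H_push w' π W, hp]
  have e4 : H w' (fun x => (YS Y S (π x), W (π x))) = H w (fun x => (W x, YS Y S x)) := by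
    rw [H_push w' π (fun x => (YS Y S x, W x)), hp]
    refine H_eq_of_det (hp ▸ law_push hw' π) _ _ fun x y => ?_
    simp only [Prod.mk.injEq]
    exact and_comm
  rw [e1, e2, e3, e4] at h1
  linarith

/-- the one-sided copy -/
theorem Gc_next {g : Finset I → ℝ} (hg : Gc w W Y g) (X Z : Finset I) {δ : ℝ}
    (hδ : g0 w W Y X + g0 w W Y Z - g0 w W Y (X ∪ Z) ≤ δ) :
    ∃ g', Gc w W Y g' ∧ g' Z = 0 ∧ ∀ S ⊆ X, g S - δ ≤ g' S ∧ g' S ≤ g S := by
  obtain ⟨Ω', _, w', π, D, _, Zf, hw', hp, hZ, h⟩ := hg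
  set C : Ω' → BT × (I → Option A) := fun x => (W (π x), YS Y X (π x)) with hC
  set w2 : BSG.Pr C → ℝ := BSG.ww w' C with hw2
  have hL2 : Law w2 := BSG.law_ww hw' C
  set π2 : BSG.Pr C → Ω := fun q => π q.1.2 with hπ2
  set Z2 : BSG.Pr C → D × BT × (I → Option A) :=
    fun q => (Zf q.1.1, W (π q.1.2), YS Y Z (π q.1.2)) with hZ2
  have hp2 : push w2 π2 = w := by
    rw [← hp]
    exact BSG.push_snd hw'.1 C π
  have hCq : ∀ q : BSG.Pr C, W (π q.1.1) = W (π q.1.2) ∧ ∀ i ∈ X, Y i (π q.1.1) = Y i (π q.1.2) := by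
    intro q
    have h1 : (W (π q.1.1), YS Y X (π q.1.1)) = (W (π q.1.2), YS Y X (π q.1.2)) := q.2
    simpa only [Prod.mk.injEq, YS_eq] using h1
  have hfst : ∀ {α : Type} [Fintype α] (f : Ω' → α), H w2 (fun q => f q.1.1) = H w' f := by
    intro α _ f
    unfold H
    rw [hw2, BSG.push_fst hw'.1 C f]
  have hsnd : ∀ {α : Type} [Fintype α] (f : Ω → α), H w2 (fun q => f (π q.1.2)) = H w f := by
    intro α _ f
    rw [H_push w2 π2 f, hp2]
  refine ⟨fun S => H w2 (fun q => (Z2 q, YS Y S (π2 q))) - H w2 Z2,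
    ⟨BSG.Pr C, inferInstance, w2, π2, _, inferInstance, Z2, hL2, hp2, ?_, fun S => rfl⟩, ?_, ?_⟩
  · intro x y hxy
    simp only [hZ2, Prod.mk.injEq] at hxy
    exact hxy.2.1
  · simp only [sub_eq_zero]
    refine H_eq_of_det hL2 _ _ fun x y => ?_
    simp only [hZ2, hπ2, Prod.mk.injEq, YS_eq]
    tauto
  · intro S hS
    -- upper bound
    have hY : ∀ q : BSG.Pr C, YS Y S (π q.1.2) = YS Y S (π q.1.1) := by
      intro q
      funext i
      by_cases hi : i ∈ S
      · simp [YS, hi, (hCq q).2 i (hS hi)]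
      · simp [YS, hi]
    set Zc : BSG.Pr C → BT × (I → Option A) := fun q => (W (π q.1.2), YS Y Z (π q.1.2)) with hZc
    have hgS : g S = H w2 (fun q => (Zf q.1.1, YS Y S (π q.1.1))) - H w2 (fun q => Zf q.1.1) := by
      rw [h, hfst (fun x => (Zf x, YS Y S (π x))), hfst Zf]
    constructor
    · -- I(S ; Zc | Zf) ≤ δ
      have hCI := BSG.H_CI hL2 (BSG.CI_ww hw'.1 C Zf
        (fun x => (W (π x), YS Y Z (π x))))
      -- (Zf1, Zc, C1) + C1 = (Zf1,C1) + (Zc,C1)
      have s1 := H_submod hL2 (fun q : BSG.Pr C => C q.1.1) Zc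
        (fun q : BSG.Pr C => (Zf q.1.1, YS Y S (π q.1.1)))
      have a1 : H w2 (fun q : BSG.Pr C => (C q.1.1, Zc q, Zf q.1.1, YS Y S (π q.1.1))) =
          H w2 (fun q : BSG.Pr C => (Zf q.1.1, (W (π q.1.2), YS Y Z (π q.1.2)), C q.1.1)) := by
        refine H_eq_of_det hL2 _ _ fun x y => ?_
        simp only [hC, hZc, Prod.mk.injEq, YS_eq]
        constructor
        · rintro ⟨a, b, c⟩
          exact ⟨c, b, a, fun i hi => c.2 i (hS hi)⟩
        · rintro ⟨a, b, c, d⟩
          exact ⟨c, b, a⟩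
      have a2 : H w2 (fun q : BSG.Pr C => (C q.1.1, Zf q.1.1, YS Y S (π q.1.1))) =
          H w2 (fun q : BSG.Pr C => (Zf q.1.1, C q.1.1)) := by
        refine H_eq_of_det hL2 _ _ fun x y => ?_
        simp only [hC, Prod.mk.injEq, YS_eq]
        constructor
        · rintro ⟨a, b⟩
          exact ⟨b, a, fun i hi => b.2 i (hS hi)⟩
        · rintro ⟨a, b, c⟩
          exact ⟨b, a⟩
      have a3 : H w2 (fun q : BSG.Pr C => (Zc q, Zf q.1.1, YS Y S (π q.1.1))) =
          H w2 (fun q => (Z2 q, YS Y S (π2 q))) := by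
        refine H_eq_of_det hL2 _ _ fun x y => ?_
        simp only [hZ2, hZc, hπ2, Prod.mk.injEq, hY]
        tauto
      have a4 : H w2 (fun q : BSG.Pr C => (Zc q, Zf q.1.1)) = H w2 Z2 := by
        refine H_eq_of_det hL2 _ _ fun x y => ?_
        simp only [hZ2, hZc, Prod.mk.injEq]
        tauto
      -- entropies of C1, (Zc, C1), Zc
      have b1 : H w2 (fun q : BSG.Pr C => C q.1.1) = g0 w W Y X + H w W := by
        rw [hfst C]
        have : H w' C = H w (fun x => (W x, YS Y X x)) := by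
          rw [← hp]; exact H_push w' π (fun x => (W x, YS Y X x))
        rw [this]
        unfold g0
        ring
      have b2 : H w2 (fun q : BSG.Pr C => ((W (π q.1.2), YS Y Z (π q.1.2)), C q.1.1)) =
          g0 w W Y (X ∪ Z) + H w W := by
        have e : H w2 (fun q : BSG.Pr C => ((W (π q.1.2), YS Y Z (π q.1.2)), C q.1.1)) =
            H w2 (fun q => (fun x => (W x, YS Y (X ∪ Z) x)) (π q.1.2)) := by
          refine H_eq_of_det hL2 _ _ fun x y => ?_
          have hx : C x.1.1 = C x.1.2 := x.2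
          have hy : C y.1.1 = C y.1.2 := y.2
          rw [hx, hy]
          simp only [hC, Prod.mk.injEq, YS_eq, Finset.mem_union]
          constructor
          · rintro ⟨a, b⟩
            exact ⟨⟨a, fun i hi => b i (Or.inr hi)⟩, a, fun i hi => b i (Or.inl hi)⟩
          · rintro ⟨⟨a, b⟩, c, d⟩
            refine ⟨a, fun i hi => ?_⟩
            rcases hi with hi | hi
            · exact d i hi
            · exact b i hi
        rw [e, hsnd (fun x => (W x, YS Y (X ∪ Z) x))]
        unfold g0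
        ring
      have b3 : H w2 Zc = g0 w W Y Z + H w W := by
        have := hsnd (fun x => (W x, YS Y Z x))
        rw [hZc, this]
        unfold g0
        ring
      -- I(Zf1 ; C.. ) : (Zc,Zf1) + ... need H(Zc, Zf1) ≤ H(Zc) + H(Zf1) - H(W)
      have s2 := H_submod hL2 Zc (fun q : BSG.Pr C => Zf q.1.1) (fun q : BSG.Pr C => W (π q.1.2))
      have c1 : H w2 (fun q : BSG.Pr C => (Zc q, Zf q.1.1, W (π q.1.2))) = H w2 Z2 := by
        refine H_eq_of_det hL2 _ _ fun x y => ?_
        simp only [hZ2, hZc, Prod.mk.injEq]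
        tauto
      have c2 : H w2 (fun q : BSG.Pr C => (Zc q, W (π q.1.2))) = H w2 Zc := by
        refine H_eq_of_det hL2 _ _ fun x y => ?_
        simp only [hZc, Prod.mk.injEq]
        tauto
      have c3 : H w2 (fun q : BSG.Pr C => (Zf q.1.1, W (π q.1.2))) =
          H w2 (fun q : BSG.Pr C => Zf q.1.1) := by
        refine H_eq_of_det hL2 _ _ fun x y => ?_
        simp only [Prod.mk.injEq]
        constructor
        · intro h3
          refine ⟨h3, ?_⟩
          rw [← (hCq x).1, ← (hCq y).1]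
          exact hZ _ _ h3
        · exact fun h3 => h3.1
      have c4 : H w2 (fun q : BSG.Pr C => W (π q.1.2)) = H w W := hsnd W
      rw [a1, a2, a3] at s1
      rw [c1, c2, c3, c4] at s2
      have hCI' : H w2 (fun q : BSG.Pr C => (Zf q.1.1, (W (π q.1.2), YS Y Z (π q.1.2)), C q.1.1)) +
          H w2 (fun q : BSG.Pr C => C q.1.1) = H w2 (fun q : BSG.Pr C => (Zf q.1.1, C q.1.1)) +
          H w2 (fun q : BSG.Pr C => ((W (π q.1.2), YS Y Z (π q.1.2)), C q.1.1)) := hCI
      rw [b1, b2] at hCI'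
      rw [b3] at s2
      rw [hgS]
      linarith
    · have s1 := H_submod hL2 Zc (fun q : BSG.Pr C => YS Y S (π q.1.1)) (fun q => Zf q.1.1)
      have e1 : H w2 (fun q => (Z2 q, YS Y S (π2 q))) =
          H w2 (fun q => (Zc q, YS Y S (π q.1.1), Zf q.1.1)) := by
        refine H_eq_of_det hL2 _ _ fun x y => ?_
        simp only [hZ2, hZc, hπ2, Prod.mk.injEq, hY]
        tauto
      have e2 : H w2 (fun q : BSG.Pr C => (Zc q, Zf q.1.1)) = H w2 Z2 := by
        refine H_eq_of_det hL2 _ _ fun x y => ?_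
        simp only [hZ2, hZc, Prod.mk.injEq]
        tauto
      have e3 : H w2 (fun q : BSG.Pr C => (YS Y S (π q.1.1), Zf q.1.1)) =
          H w2 (fun q => (Zf q.1.1, YS Y S (π q.1.1))) := by
        refine H_eq_of_det hL2 _ _ fun x y => ?_
        simp only [Prod.mk.injEq]
        tauto
      rw [← e1, e2, e3] at s1
      rw [hgS]
      linarith

end Run7.h695
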