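import Pool.Agent.Run7.h695.Round
import Pool.Agent.Run7.h695.CodeBd
set_option autoImplicit false
set_option linter.unusedSectionVars false
set_option linter.unusedVariables false

/-! From codes for the index system to uniform families. -/

open scoped Classical

namespace Run7.h695

/-- a code gives a uniform family -/
theorem fam_of_code {Pos : Type} [Fintype Pos] {n' n : ℕ} (hn : Fintype.card Pos * n' ≤ n)
    (D : Finset (Pos → Fin n')) :
    ∃ F : Finset (Finset (Fin n)), F.card = D.card ∧ (∀ A ∈ F, A.card = Fintype.card Pos) ∧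
      ∀ A ∈ F, ∀ B ∈ F, A ≠ B → ∃ x ∈ D, ∃ y ∈ D, x ≠ y ∧
        (A ∩ B).card = (Finset.univ.filter (fun i => x i = y i)).card := by
  obtain ⟨φ⟩ : Nonempty (Pos × Fin n' ↪ Fin n) := by
    apply Function.Embedding.nonempty_of_card_le
    rw [Fintype.card_prod, Fintype.card_fin, Fintype.card_fin]
    exact hn
  set G : (Pos → Fin n') → Finset (Fin n) := fun x => Finset.univ.image (fun i => φ (i, x i))
    with hG
  have hinj : ∀ x : Pos → Fin n', Function.Injective (fun i => φ (i, x i)) := by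
    intro x i j hij
    have := φ.injective hij
    exact (Prod.mk.inj this).1
  have hcard : ∀ x, (G x).card = Fintype.card Pos := by
    intro x
    rw [hG]
    simp only
    rw [Finset.card_image_of_injective _ (hinj x), Finset.card_univ]
  have hint : ∀ x y, (G x ∩ G y).card = (Finset.univ.filter (fun i => x i = y i)).card := by
    intro x y
    rw [← Finset.card_image_of_injective _ (hinj x)]
    congr 1
    ext a
    simp only [hG, Finset.mem_inter, Finset.mem_image, Finset.mem_univ, true_and,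
      Finset.mem_filter]
    constructor
    · rintro ⟨⟨i, hi⟩, ⟨j, hj⟩⟩
      have h1 := φ.injective (hi.trans hj.symm)
      obtain ⟨h2, h3⟩ := Prod.mk.inj h1
      subst h2
      exact ⟨i, h3, hi⟩
    · rintro ⟨i, hi, hi2⟩
      exact ⟨⟨i, hi2⟩, ⟨i, by rw [← hi]; exact hi2⟩⟩
  have hGinj : Function.Injective G := by
    intro x y hxy
    have h1 := hint x y
    rw [hxy, Finset.inter_self, hcard, ← Finset.card_univ] at h1
    have h2 := (Finset.card_filter_eq_iff (s := Finset.univ)).1 h1.symm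
    funext i
    exact h2 i (Finset.mem_univ i)
  refine ⟨D.image G, Finset.card_image_of_injective _ hGinj, ?_, ?_⟩
  · intro A hA
    obtain ⟨x, _, rfl⟩ := Finset.mem_image.1 hA
    exact hcard x
  · intro A hA B hB hAB
    obtain ⟨x, hx, rfl⟩ := Finset.mem_image.1 hA
    obtain ⟨y, hy, rfl⟩ := Finset.mem_image.1 hB
    exact ⟨x, hx, y, hy, fun h => hAB (by rw [h]), hint x y⟩

/-- positions of the lifted code -/
abbrev PosT {m : ℕ} (T : Wts m) : Type :=
  (Σ i : Fin m, Fin (T.s (2 * i))) ⊕ ((Σ i : Fin m, Fin (T.s (2 * i + 1) - T.s (2 * i))) ⊕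
    Fin (T.s (2 * m)))

theorem s_le {m : ℕ} (T : Wts m) (i : ℕ) : T.s (2 * i) ≤ T.s (2 * i + 1) :=
  (T.smono (Nat.lt_succ_self _)).le

theorem card_PosT {m : ℕ} (T : Wts m) : Fintype.card (PosT T) = T.kk := by
  unfold PosT
  rw [Fintype.card_sum, Fintype.card_sum, Fintype.card_sigma, Fintype.card_sigma, Fintype.card_fin,
    ← add_assoc, ← Finset.sum_add_distrib]
  unfold Wts.kk
  congr 1
  refine Finset.sum_congr rfl fun i _ => ?_
  rw [Fintype.card_fin, Fintype.card_fin]
  have := s_le T i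
  omega

theorem card_filter_PosT {m : ℕ} (T : Wts m) (P1 P2 : Fin m → Prop) (P3 : Prop) :
    (Finset.univ.filter (fun x : PosT T => match x with
      | Sum.inl a => P1 a.1
      | Sum.inr (Sum.inl a) => P2 a.1
      | Sum.inr (Sum.inr _) => P3)).card =
    ∑ i : Fin m, ((if P1 i then T.s (2 * i) else 0) +
      (if P2 i then T.s (2 * i + 1) - T.s (2 * i) else 0)) + if P3 then T.s (2 * m) else 0 := by
  rw [Finset.card_filter, Fintype.sum_sum_type, Fintype.sum_sum_type, Fintype.sum_sigma,
    Fintype.sum_sigma, ← add_assoc, Finset.sum_add_distrib]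
  congr 1
  · congr 1
    · refine Finset.sum_congr rfl fun i _ => ?_
      split_ifs <;> simp
    · refine Finset.sum_congr rfl fun i _ => ?_
      split_ifs <;> simp
  · split_ifs <;> simp

/-- values of the lifted code -/
def fL {Mc m : ℕ} (T : Wts m) (e : JI Mc ≃ Fin m) {N : ℕ} (q : ℕ) (Cj : Finset (JI Mc → Fin N))
    (pos : PosT T) (k : ZMod q × ZMod q × {x // x ∈ Cj}) :
    ZMod q ⊕ ((ZMod q × Fin N) ⊕ (JI Mc → Fin N)) :=
  match pos with
  | Sum.inl a => Sum.inl (k.1 + (a.1.1 : ZMod q) * k.2.1)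
  | Sum.inr (Sum.inl a) => Sum.inr (Sum.inl (k.1 + (a.1.1 : ZMod q) * k.2.1,
      k.2.2.1 (e.symm a.1)))
  | Sum.inr (Sum.inr _) => Sum.inr (Sum.inr k.2.2.1)

theorem pad_inj {m q : ℕ} [Fact q.Prime] (hmq : m ≤ q) (s s' t t' : ZMod q) (i j : ℕ) (hi : i < m)
    (hj : j < m) (hij : i ≠ j) (e1 : s + (i : ZMod q) * t = s' + (i : ZMod q) * t')
    (e2 : s + (j : ZMod q) * t = s' + (j : ZMod q) * t') : s = s' ∧ t = t' := by
  have e3 : ((i : ZMod q) - j) * (t - t') = 0 := by linear_combination e1 - e2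
  have hne : ((i : ZMod q) - j) ≠ 0 := by
    intro h0
    have h3 : (i : ZMod q) = (j : ZMod q) := sub_eq_zero.1 h0
    rw [ZMod.natCast_eq_natCast_iff] at h3
    exact hij (h3.eq_of_lt_of_lt (by omega) (by omega))
  have e4 : t - t' = 0 := (mul_eq_zero.1 e3).resolve_left hne
  have e5 : t = t' := sub_eq_zero.1 e4
  refine ⟨?_, e5⟩
  rw [e5] at e1
  exact add_right_cancel e1

theorem lift_size {Mc m : ℕ} (hm : 2 ≤ m) (T : Wts m) (e : JI Mc ≃ Fin m) {N q : ℕ}
    [Fact q.Prime] (hmq : m ≤ q) (Cj : Finset (JI Mc → Fin N)) (hCj : ∀ x ∈ Cj, ∀ y ∈ Cj,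
      JCl Mc (fun i => x i = y i)) (k k' : ZMod q × ZMod q × {x // x ∈ Cj}) (hk : k ≠ k') :
    T.Sz (JCF Mc e) (Finset.univ.filter (fun pos : PosT T => fL T e q Cj pos k =
      fL T e q Cj pos k')).card := by
  obtain ⟨s, t, c⟩ := k
  obtain ⟨s', t', c'⟩ := k'
  set P1 : Fin m → Prop := fun i => s + (i.1 : ZMod q) * t = s' + (i.1 : ZMod q) * t' with hP1
  set P2 : Fin m → Prop := fun i => P1 i ∧ c.1 (e.symm i) = c'.1 (e.symm i) with hP2
  have hset : (Finset.univ.filter (fun pos : PosT T => fL T e q Cj pos (s, t, c) =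
      fL T e q Cj pos (s', t', c'))).card =
      ∑ i : Fin m, ((if P1 i then T.s (2 * i) else 0) +
      (if P2 i then T.s (2 * i + 1) - T.s (2 * i) else 0)) +
        if c.1 = c'.1 then T.s (2 * m) else 0 := by
    refine Eq.trans ?_ ((card_filter_PosT T P1 P2 (c.1 = c'.1)).trans ?_)
    · congr 1
      ext pos
      simp only [Finset.mem_filter, Finset.mem_univ, true_and]
      rcases pos with a | a | a
      · simp [fL, hP1]
      · simp [fL, hP1, hP2]
      · simp [fL]
    · congr!
  rw [hset]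
  by_cases hst : s = s' ∧ t = t'
  · obtain ⟨rfl, rfl⟩ := hst
    have hcc : c ≠ c' := fun h => hk (by rw [h])
    have hcc' : c.1 ≠ c'.1 := fun h => hcc (Subtype.ext h)
    rw [if_neg hcc', add_zero]
    right; right; right
    refine ⟨Finset.univ.filter (fun i => c.1 (e.symm i) = c'.1 (e.symm i)), ?_, ?_, ?_⟩
    · unfold JCF
      have h1 := hCj c.1 c.2 c'.1 c'.2
      have h2 : (fun i => e i ∈ Finset.univ.filter (fun i => c.1 (e.symm i) = c'.1 (e.symm i))) =
          (fun i => c.1 i = c'.1 i) := by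
        funext i
        simp
      rw [h2]
      exact h1
    · intro h1
      apply hcc'
      funext j
      have h2 : e j ∈ Finset.univ.filter (fun i => c.1 (e.symm i) = c'.1 (e.symm i)) := by
        rw [h1]; exact Finset.mem_univ _
      simpa using h2
    · refine Finset.sum_congr rfl fun i _ => ?_
      have hp : P1 i := rfl
      rw [if_pos hp]
      have h3 := s_le T i
      by_cases h4 : c.1 (e.symm i) = c'.1 (e.symm i)
      · rw [if_pos (show P2 i from ⟨hp, h4⟩), if_pos (by simpa using h4)]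
        omega
      · rw [if_neg (fun h : P2 i => h4 h.2), if_neg (by simpa using h4)]
        rfl
  · have huniq : ∀ i j : Fin m, P1 i → P1 j → i = j := by
      intro i j hi hj
      by_contra hij
      exact hst (pad_inj hmq s s' t t' i.1 j.1 i.2 j.2 (fun h => hij (Fin.ext h)) hi hj)
    by_cases hex : ∃ i, P1 i
    · obtain ⟨i, hi⟩ := hex
      have hsum : ∑ i : Fin m, ((if P1 i then T.s (2 * i) else 0) +
          (if P2 i then T.s (2 * i + 1) - T.s (2 * i) else 0)) =
          T.s (2 * i) + (if P2 i then T.s (2 * i + 1) - T.s (2 * i) else 0) := by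
        rw [Finset.sum_eq_single i]
        · rw [if_pos hi]
        · intro j _ hji
          rw [if_neg (fun h => hji (huniq j i h hi)), if_neg (fun h : P2 j => hji (huniq j i h.1 hi)),
            add_zero]
        · intro h; exact absurd (Finset.mem_univ _) h
      rw [hsum]
      have h3 := s_le T i
      have h5 := i.2
      by_cases hcc : c.1 = c'.1
      · rw [if_pos hcc, if_pos (show P2 i from ⟨hi, by rw [hcc]⟩)]
        right; right; left
        exact ⟨2 * i + 1, by omega, by omega⟩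
      · rw [if_neg hcc]
        right; left
        by_cases h4 : P2 i
        · rw [if_pos h4]
          exact ⟨2 * i + 1, by omega, by omega⟩
        · rw [if_neg h4]
          exact ⟨2 * i, by omega, by omega⟩
    · push Not at hex
      have hsum : ∑ i : Fin m, ((if P1 i then T.s (2 * i) else 0) +
          (if P2 i then T.s (2 * i + 1) - T.s (2 * i) else 0)) = 0 := by
        refine Finset.sum_eq_zero fun i _ => ?_
        rw [if_neg (hex i), if_neg (fun h : P2 i => hex i h.1), add_zero]
      rw [hsum, zero_add]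
      split_ifs
      · right; left
        exact ⟨2 * m, le_rfl, rfl⟩
      · left; rfl

theorem lift_code {Mc m : ℕ} (hm : 2 ≤ m) (T : Wts m) (e : JI Mc ≃ Fin m) {N n' n q : ℕ}
    (hq : q.Prime) (hmq : m ≤ q) (Cj : Finset (JI Mc → Fin N)) (hCj : ∀ x ∈ Cj, ∀ y ∈ Cj,
      JCl Mc (fun i => x i = y i)) (hN : 1 ≤ N) (h1 : q * N ≤ n') (h2 : Cj.card ≤ n')
    (hn : T.kk * n' ≤ n) :
    ∃ F : Finset (Finset (Fin n)), F.card = q * q * Cj.card ∧ (∀ A ∈ F, A.card = T.kk) ∧
      ∀ A ∈ F, ∀ B ∈ F, A ≠ B → T.Sz (JCF Mc e) (A ∩ B).card := by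
  have : Fact q.Prime := ⟨hq⟩
  set S : PosT T → Finset (ZMod q ⊕ ((ZMod q × Fin N) ⊕ (JI Mc → Fin N))) := fun pos =>
    match pos with
    | Sum.inl a => (Finset.univ : Finset (ZMod q)).image Sum.inl
    | Sum.inr (Sum.inl a) => (Finset.univ : Finset (ZMod q × Fin N)).image
        (fun b => Sum.inr (Sum.inl b))
    | Sum.inr (Sum.inr _) => Cj.image (fun b => Sum.inr (Sum.inr b)) with hS
  have hfS : ∀ pos k, fL T e q Cj pos k ∈ S pos := by
    intro pos k
    rcases pos with a | a | a
    · exact Finset.mem_image_of_mem _ (Finset.mem_univ _)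
    · exact Finset.mem_image_of_mem (fun b => Sum.inr (Sum.inl b)) (Finset.mem_univ _)
    · exact Finset.mem_image_of_mem (fun b => Sum.inr (Sum.inr b)) k.2.2.2
  have hSn : ∀ pos, (S pos).card ≤ n' := by
    intro pos
    rcases pos with a | a | a
    · refine Finset.card_image_le.trans ?_
      rw [Finset.card_univ, ZMod.card]
      exact (Nat.le_mul_of_pos_right _ (by omega)).trans h1
    · refine Finset.card_image_le.trans ?_
      rw [Finset.card_univ, Fintype.card_prod, ZMod.card, Fintype.card_fin]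
      exact h1
    · exact Finset.card_image_le.trans h2
  have hspos : ∀ j, 0 < T.s j := fun j => by
    unfold Wts.s
    have := T.wpos
    omega
  have hfinj : ∀ k k', (∀ pos, fL T e q Cj pos k = fL T e q Cj pos k') → k = k' := by
    rintro ⟨s, t, c⟩ ⟨s', t', c'⟩ hkk
    have h3 := hkk (Sum.inr (Sum.inr ⟨0, hspos _⟩))
    have h4 := hkk (Sum.inl ⟨⟨0, by omega⟩, ⟨0, hspos _⟩⟩)
    have h5 := hkk (Sum.inl ⟨⟨1, by omega⟩, ⟨0, hspos _⟩⟩)
    simp only [fL, Sum.inl.injEq, Sum.inr.injEq] at h3 h4 h5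
    obtain ⟨rfl, rfl⟩ := pad_inj hmq s s' t t' 0 1 (by omega) (by omega) (by omega) h4 h5
    have h6 : c = c' := Subtype.ext h3
    rw [h6]
  obtain ⟨D, hD1, hD2⟩ := mk_code n' (fL T e q Cj) S hfS hSn hfinj
  obtain ⟨F, hF1, hF2, hF3⟩ := fam_of_code (n := n) (by rw [card_PosT]; exact hn) D
  refine ⟨F, ?_, ?_, ?_⟩
  · rw [hF1, hD1, Fintype.card_prod, Fintype.card_prod, ZMod.card, Fintype.card_coe, mul_assoc]
  · intro A hA
    rw [hF2 A hA, card_PosT]
  · intro A hA B hB hAB
    obtain ⟨x, hx, y, hy, hxy, hc⟩ := hF3 A hA B hB hAB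
    obtain ⟨k, k', hkk⟩ := hD2 x hx y hy
    rw [hc]
    have hk : k ≠ k' := by
      rintro rfl
      exact hxy (funext fun i => (hkk i).2 rfl)
    have h1 := lift_size hm T e hmq Cj hCj k k' hk
    have h2 : Finset.univ.filter (fun i => x i = y i) =
        Finset.univ.filter (fun pos : PosT T => fL T e q Cj pos k = fL T e q Cj pos k') := by
      ext i
      simp only [Finset.mem_filter, Finset.mem_univ, true_and]
      exact hkk i
    rw [h2]
    exact h1

end Run7.h695
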