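import Mathlib
set_option autoImplicit false
set_option linter.unusedSectionVars false
set_option linter.unusedVariables false

/-! The weights of the lifting construction. -/

open scoped Classical

namespace Run7.h695

structure Wts (m : ℕ) where
  p : ℕ
  w : ℕ
  d : ℕ → ℕ
  hp : m + 1 < p
  hpo : p % 2 = 1
  hw : w % p = 1
  hwE : (m + 1) * (p * d (2 * m)) < w
  hd0 : 0 < d 0
  hgr : ∀ j, (4 * m + 4) * d j ≤ d (j + 1)
  hd2 : ∀ j ≤ 2 * m, 2 ^ (2 * m - j) ∣ d j
  hd3 : ∀ j ≤ 2 * m, ¬ 2 ^ (2 * m - j + 1) ∣ d j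

namespace Wts

variable {m : ℕ} (T : Wts m)

def s (j : ℕ) : ℕ := T.w + T.p * T.d j

theorem dpos : ∀ j, 0 < T.d j := by
  intro j
  induction j with
  | zero => exact T.hd0
  | succ j ih =>
    have := T.hgr j
    have h2 : 0 < (4 * m + 4) * T.d j := by positivity
    omega

theorem dlt (j : ℕ) : T.d j < T.d (j + 1) := by
  have h1 := T.hgr j
  have h2 := T.dpos j
  have h3 : 1 * T.d j < (4 * m + 4) * T.d j := by
    apply Nat.mul_lt_mul_of_pos_right <;> omega
  omega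

theorem dmono : StrictMono T.d := strictMono_nat_of_lt_succ T.dlt

theorem wpos : 0 < T.w := by
  have := T.hwE
  omega

theorem ppos : 0 < T.p := by
  have := T.hp
  omega

theorem smono : StrictMono T.s := by
  intro a b h
  unfold s
  have := T.dmono h
  have h2 := Nat.mul_lt_mul_of_pos_left this T.ppos
  omega

theorem sum_s {ι : Type} (I : Finset ι) (f : ι → ℕ) :
    ∑ i ∈ I, T.s (f i) = I.card * T.w + T.p * ∑ i ∈ I, T.d (f i) := by
  unfold s
  rw [Finset.sum_add_distrib, Finset.sum_const, smul_eq_mul, Finset.mul_sum]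

theorem sum_d_le {ι : Type} (I : Finset ι) (f : ι → ℕ) (N : ℕ) (hf : ∀ i ∈ I, f i ≤ N) :
    ∑ i ∈ I, T.d (f i) ≤ I.card * T.d N := by
  have := Finset.sum_le_card_nsmul I (fun i => T.d (f i)) (T.d N)
    (fun i hi => T.dmono.monotone (hf i hi))
  rwa [smul_eq_mul] at this

theorem sum_lt {ι : Type} (I : Finset ι) (f : ι → ℕ) (hf : ∀ i ∈ I, f i ≤ 2 * m)
    (ht : I.card ≤ m + 1) : T.p * ∑ i ∈ I, T.d (f i) < T.w := by
  have h1 := T.sum_d_le I f _ hf
  have h2 : I.card * T.d (2 * m) ≤ (m + 1) * T.d (2 * m) := Nat.mul_le_mul_right _ ht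
  have h3 : T.p * ∑ i ∈ I, T.d (f i) ≤ T.p * ((m + 1) * T.d (2 * m)) :=
    Nat.mul_le_mul_left _ (h1.trans h2)
  have h4 : T.p * ((m + 1) * T.d (2 * m)) = (m + 1) * (T.p * T.d (2 * m)) := by ring
  have := T.hwE
  omega

theorem div_s {ι : Type} (I : Finset ι) (f : ι → ℕ) (hf : ∀ i ∈ I, f i ≤ 2 * m)
    (ht : I.card ≤ m + 1) : (∑ i ∈ I, T.s (f i)) / T.w = I.card := by
  rw [T.sum_s]
  have h := T.sum_lt I f hf ht
  rw [Nat.add_comm, Nat.add_mul_div_right _ _ T.wpos, Nat.div_eq_of_lt h, Nat.zero_add]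

theorem w_mod : T.w ≡ 1 [MOD T.p] := by
  unfold Nat.ModEq
  rw [T.hw, Nat.mod_eq_of_lt]
  have := T.hp
  omega

theorem mod_s {ι : Type} (I : Finset ι) (f : ι → ℕ) :
    (∑ i ∈ I, T.s (f i)) ≡ I.card [MOD T.p] := by
  rw [T.sum_s]
  have h1 : I.card * T.w ≡ I.card * 1 [MOD T.p] := Nat.ModEq.mul_left _ T.w_mod
  have h2 : T.p * ∑ i ∈ I, T.d (f i) ≡ 0 [MOD T.p] :=
    (Nat.modEq_zero_iff_dvd).2 (dvd_mul_right _ _)
  simpa using h1.add h2

/-- uniqueness of the digits -/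
theorem digits : ∀ (n : ℕ) (A B : Multiset ℕ), A.card ≤ n → A.card ≤ 4 * m + 3 →
    B.card ≤ 4 * m + 3 → (A.map T.d).sum = (B.map T.d).sum → A = B := by
  have hsmall : ∀ (A : Multiset ℕ) (a : ℕ), A.card ≤ 4 * m + 3 → (∀ x ∈ A, x ≤ a) →
      (A.map T.d).sum < T.d (a + 1) := by
    intro A a hA ha
    have h1 : (A.map T.d).sum ≤ (A.map T.d).card • T.d a := by
      refine Multiset.sum_le_card_nsmul _ _ fun x hx => ?_
      obtain ⟨y, hy, rfl⟩ := Multiset.mem_map.1 hx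
      exact T.dmono.monotone (ha y hy)
    rw [Multiset.card_map, smul_eq_mul] at h1
    have h2 : A.card * T.d a ≤ (4 * m + 3) * T.d a := Nat.mul_le_mul_right _ hA
    have h3 : (4 * m + 3) * T.d a < (4 * m + 4) * T.d a :=
      Nat.mul_lt_mul_of_pos_right (by omega) (T.dpos a)
    have h4 := T.hgr a
    omega
  have hmax : ∀ A : Multiset ℕ, A ≠ 0 → ∃ a ∈ A, ∀ x ∈ A, x ≤ a := by
    intro A hA
    obtain ⟨x, hx⟩ := Multiset.exists_mem_of_ne_zero hA
    obtain ⟨a, ha, hm⟩ := Finset.exists_max_image A.toFinset id ⟨x, Multiset.mem_toFinset.2 hx⟩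
    exact ⟨a, Multiset.mem_toFinset.1 ha, fun x hx => hm x (Multiset.mem_toFinset.2 hx)⟩
  have hle : ∀ (A : Multiset ℕ) (a : ℕ), a ∈ A → T.d a ≤ (A.map T.d).sum := by
    intro A a ha
    exact Multiset.single_le_sum (fun _ _ => Nat.zero_le _) _ (Multiset.mem_map_of_mem _ ha)
  have hzero : ∀ A : Multiset ℕ, (A.map T.d).sum = 0 → A = 0 := by
    intro A hA
    by_contra hne
    obtain ⟨x, hx⟩ := Multiset.exists_mem_of_ne_zero hne
    have := hle A x hx
    have := T.dpos x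
    omega
  intro n
  induction n with
  | zero =>
    intro A B hA _ _ h
    have hA0 : A = 0 := Multiset.card_eq_zero.1 (by omega)
    subst hA0
    rw [Multiset.map_zero, Multiset.sum_zero] at h
    exact (hzero B h.symm).symm
  | succ n ih =>
    intro A B hA hA2 hB h
    by_cases hA0 : A = 0
    · subst hA0
      rw [Multiset.map_zero, Multiset.sum_zero] at h
      exact (hzero B h.symm).symm
    by_cases hB0 : B = 0
    · subst hB0
      rw [Multiset.map_zero, Multiset.sum_zero] at h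
      exact hzero A h
    obtain ⟨a, ha, ham⟩ := hmax A hA0
    obtain ⟨b, hb, hbm⟩ := hmax B hB0
    have hab : a = b := by
      rcases lt_trichotomy a b with hlt | heq | hgt
      · have h1 := hsmall A a hA2 ham
        have h2 := hle B b hb
        have h3 : T.d (a + 1) ≤ T.d b := T.dmono.monotone hlt
        omega
      · exact heq
      · have h1 := hsmall B b hB hbm
        have h2 := hle A a ha
        have h3 : T.d (b + 1) ≤ T.d a := T.dmono.monotone hgt
        omega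
    subst hab
    obtain ⟨A', rfl⟩ := Multiset.exists_cons_of_mem ha
    obtain ⟨B', rfl⟩ := Multiset.exists_cons_of_mem hb
    rw [Multiset.card_cons] at hA hA2 hB
    rw [Multiset.map_cons, Multiset.map_cons, Multiset.sum_cons, Multiset.sum_cons] at h
    rw [ih A' B' (by omega) (by omega) (by omega) (by omega)]

/-- the size of the ground set -/
def kk : ℕ := ∑ i : Fin m, T.s (2 * i + 1) + T.s (2 * m)

/-- the allowed intersection sizes -/
def Sz (JC : Finset (Fin m) → Prop) (n : ℕ) : Prop :=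
  n = 0 ∨ (∃ j, j ≤ 2 * m ∧ n = T.s j) ∨ (∃ j, j < 2 * m ∧ n = T.s j + T.s (2 * m)) ∨
    ∃ A : Finset (Fin m), JC A ∧ A ≠ Finset.univ ∧
      n = ∑ i : Fin m, T.s (2 * i + if i ∈ A then 1 else 0)

theorem s_div (j : ℕ) (hj : j ≤ 2 * m) : T.s j / T.w = 1 := by
  have := T.div_s ({()} : Finset Unit) (fun _ => j) (fun _ _ => hj) (by simp)
  simpa using this

theorem s_mod (j : ℕ) : T.s j ≡ 1 [MOD T.p] := by
  have := T.mod_s ({()} : Finset Unit) (fun _ => j)
  simpa using this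

theorem s2_div (hm : 1 ≤ m) (j l : ℕ) (hj : j ≤ 2 * m) (hl : l ≤ 2 * m) :
    (T.s j + T.s l) / T.w = 2 := by
  have := T.div_s (Finset.univ : Finset Bool) (fun b => if b then j else l)
    (fun b _ => by cases b <;> simp [hj, hl]) (by simp; omega)
  simpa using this

theorem s2_mod (j l : ℕ) : (T.s j + T.s l) ≡ 2 [MOD T.p] := (T.s_mod j).add (T.s_mod l)

theorem big_div (f : Fin m → ℕ) (hf : ∀ i, f i ≤ 2 * m) : (∑ i, T.s (f i)) / T.w = m := by
  have := T.div_s (Finset.univ : Finset (Fin m)) f (fun i _ => hf i) (by simp)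
  simpa using this

theorem big_mod (f : Fin m → ℕ) : (∑ i, T.s (f i)) ≡ m [MOD T.p] := by
  have := T.mod_s (Finset.univ : Finset (Fin m)) f
  simpa using this

theorem kk_eq : T.kk = (m + 1) * T.w + T.p * (∑ i : Fin m, T.d (2 * i + 1) + T.d (2 * m)) := by
  unfold kk
  have := T.sum_s (Finset.univ : Finset (Fin m)) (fun i => 2 * (i : ℕ) + 1)
  rw [this]
  unfold s
  simp
  ring

theorem kk_div : T.kk / T.w = m + 1 := by
  rw [T.kk_eq, Nat.add_comm, Nat.add_mul_div_right _ _ T.wpos, Nat.div_eq_of_lt, Nat.zero_add]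
  have h1 := T.sum_d_le (Finset.univ : Finset (Fin m)) (fun i => 2 * (i : ℕ) + 1) (2 * m)
    (fun i _ => by have := i.2; omega)
  have h2 : T.p * (∑ i : Fin m, T.d (2 * i + 1) + T.d (2 * m)) ≤
      T.p * ((m + 1) * T.d (2 * m)) := by
    apply Nat.mul_le_mul_left
    simp at h1
    linarith
  have h4 : T.p * ((m + 1) * T.d (2 * m)) = (m + 1) * (T.p * T.d (2 * m)) := by ring
  have := T.hwE
  omega

theorem kk_mod : T.kk ≡ m + 1 [MOD T.p] := (T.big_mod _).add (T.s_mod _)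

theorem two_mul_le (A : Finset (Fin m)) (i : Fin m) :
    2 * (i : ℕ) + (if i ∈ A then 1 else 0) ≤ 2 * m := by
  have := i.2
  split_ifs <;> omega

/-- the counts -/
theorem sz_count (hm : 1 ≤ m) {JC : Finset (Fin m) → Prop} {n : ℕ} (h : T.Sz JC n ∨ n = T.kk) :
    n ≡ n / T.w [MOD T.p] ∧
      (n / T.w = 0 ∨ n / T.w = 1 ∨ n / T.w = 2 ∨ n / T.w = m ∨ n / T.w = m + 1) := by
  rcases h with (rfl | ⟨j, hj, rfl⟩ | ⟨j, hj, rfl⟩ | ⟨A, _, _, rfl⟩) | rfl
  · simp [Nat.ModEq]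
  · rw [T.s_div j hj]; exact ⟨T.s_mod j, by simp⟩
  · rw [T.s2_div hm j (2 * m) hj.le le_rfl]; exact ⟨T.s2_mod _ _, by simp⟩
  · rw [T.big_div _ (two_mul_le A)]; exact ⟨T.big_mod _, by simp⟩
  · rw [T.kk_div]; exact ⟨T.kk_mod, by simp⟩

end Wts

/-- concrete weights -/
def mkWts (m : ℕ) : Wts m where
  p := 2 * m + 3
  w := 1 + (2 * m + 3) * ((m + 1) * ((2 * m + 3) * (8 * m + 9) ^ (2 * m)))
  d := fun j => 2 ^ (2 * m - j) * (8 * m + 9) ^ j
  hp := by omega
  hpo := by omega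
  hw := by
    rw [Nat.add_mul_mod_self_left, Nat.mod_eq_of_lt]
    omega
  hwE := by
    simp only [Nat.sub_self, pow_zero, one_mul]
    have : (m + 1) * ((2 * m + 3) * (8 * m + 9) ^ (2 * m)) ≤
        (2 * m + 3) * ((m + 1) * ((2 * m + 3) * (8 * m + 9) ^ (2 * m))) :=
      Nat.le_mul_of_pos_left _ (by omega)
    omega
  hd0 := by positivity
  hgr := by
    intro j
    have h1 : 2 ^ (2 * m - j) ≤ 2 * 2 ^ (2 * m - (j + 1)) := by
      rw [← pow_succ']
      exact Nat.pow_le_pow_right (by norm_num) (by omega)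
    calc (4 * m + 4) * (2 ^ (2 * m - j) * (8 * m + 9) ^ j)
        ≤ (4 * m + 4) * (2 * 2 ^ (2 * m - (j + 1)) * (8 * m + 9) ^ j) := by gcongr
      _ = 2 ^ (2 * m - (j + 1)) * ((8 * m + 9) ^ j * (8 * m + 8)) := by ring
      _ ≤ 2 ^ (2 * m - (j + 1)) * ((8 * m + 9) ^ j * (8 * m + 9)) := by gcongr; norm_num
      _ = _ := by rw [← pow_succ]
  hd2 := fun j _ => dvd_mul_right _ _
  hd3 := by
    intro j _ h
    rw [pow_succ] at h
    have h2 : 2 ∣ (8 * m + 9) ^ j := Nat.dvd_of_mul_dvd_mul_left (by positivity) h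
    have h3 : 2 ∣ 8 * m + 9 := Nat.Prime.dvd_of_dvd_pow Nat.prime_two h2
    omega

end Run7.h695
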