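import Pool.Agent.Run7.h695.Clos
import Pool.Agent.Run7.h695.Wts
set_option autoImplicit false
set_option linter.unusedSectionVars false
set_option linter.unusedVariables false

/-! The lifting construction, part 1: counts and units. -/

open scoped Classical

namespace Run7.h695

open Finset

/-- the situation in which the rigid structure is derived -/
structure LS {m : ℕ} (T : Wts m) (JC : Finset (Fin m) → Prop) {X : Type} [Fintype X]
    (C : Finset X → Prop) (h : Finset X → ℝ) (c0 : ℝ) : Prop where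
  hm : 5 ≤ m
  cs : ClSys X C
  card : Fintype.card X = T.kk
  sz : ∀ U, C U → U ≠ Finset.univ → T.Sz JC U.card
  h0 : h ∅ = 0
  mono : ∀ S T : Finset X, S ⊆ T → h S ≤ h T
  sub : ∀ S T : Finset X, h (S ∪ T) + h (S ∩ T) ≤ h S + h T
  hcl : ∀ S, h (cl C S) ≤ h S
  one : ∀ x, h {x} ≤ c0
  big : 5 / 2 * c0 < h Finset.univ

variable {m : ℕ} {T : Wts m} {JC : Finset (Fin m) → Prop} {X : Type} [Fintype X]
  {C : Finset X → Prop} {h : Finset X → ℝ} {c0 : ℝ}

theorem dvdc {q : ℕ} {P : X → Prop} {i1 i2 : DecidablePred P}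
    (h : q ∣ (@Finset.filter X P i1 Finset.univ).card) :
    q ∣ (@Finset.filter X P i2 Finset.univ).card := by
  convert h

/-- number of units of a set, by size -/
def cnt (T : Wts m) (U : Finset X) : ℕ := U.card / T.w

theorem cnt_mono {U V : Finset X} (hUV : U ⊆ V) : cnt T U ≤ cnt T V :=
  Nat.div_le_div_right (Finset.card_le_card hUV)

theorem cnt_le (U : Finset X) : cnt T U * T.w ≤ U.card := Nat.div_mul_le_self _ _

theorem cnt_lt (U : Finset X) : U.card < (cnt T U + 1) * T.w := by
  have := Nat.lt_mul_div_succ U.card T.wpos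
  unfold cnt
  rw [mul_comm]
  exact this

namespace LS

variable (L : LS T JC C h c0)
include L

theorem univ_card : (Finset.univ : Finset X).card = T.kk := by
  rw [Finset.card_univ]; exact L.card

theorem cnt_univ : cnt T (Finset.univ : Finset X) = m + 1 := by
  unfold cnt
  rw [L.univ_card]
  exact T.kk_div

theorem szk {U : Finset X} (hU : C U) : T.Sz JC U.card ∨ U.card = T.kk := by
  by_cases h : U = Finset.univ
  · right; rw [h]; exact L.univ_card
  · left; exact L.sz U hU h

theorem cnt_mod {U : Finset X} (hU : C U) : U.card ≡ cnt T U [MOD T.p] :=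
  (T.sz_count (by have := L.hm; omega) (L.szk hU)).1

theorem cnt_cases {U : Finset X} (hU : C U) :
    cnt T U = 0 ∨ cnt T U = 1 ∨ cnt T U = 2 ∨ cnt T U = m ∨ cnt T U = m + 1 :=
  (T.sz_count (by have := L.hm; omega) (L.szk hU)).2

theorem eq_univ {U : Finset X} (hU : C U) (h : cnt T U = m + 1) : U = Finset.univ := by
  by_contra hne
  have hm := L.hm
  rcases L.sz U hU hne with h1 | ⟨j, hj, h1⟩ | ⟨j, hj, h1⟩ | ⟨A, _, _, h1⟩
  · unfold cnt at h; rw [h1] at h; simp at h
  · unfold cnt at h; rw [h1, T.s_div j hj] at h; omega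
  · unfold cnt at h; rw [h1, T.s2_div (by omega) j _ hj.le le_rfl] at h; omega
  · unfold cnt at h; rw [h1, T.big_div _ (Wts.two_mul_le A)] at h; omega

theorem cnt_univ_ne {U : Finset X} (hU : C U) (hne : U ≠ Finset.univ) : cnt T U ≤ m := by
  have h1 := L.cnt_cases hU
  have hm := L.hm
  rcases h1 with h1 | h1 | h1 | h1 | h1
  · omega
  · omega
  · omega
  · omega
  · exact absurd (L.eq_univ hU h1) hne

theorem cnt_pos {U : Finset X} (hU : C U) (hne : U.Nonempty) : 1 ≤ cnt T U := by
  by_contra h0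
  have h0' : cnt T U = 0 := by omega
  have hm := L.hm
  have hpos := Finset.card_pos.2 hne
  rcases L.szk hU with (h1 | ⟨j, hj, h1⟩ | ⟨j, hj, h1⟩ | ⟨A, _, _, h1⟩) | h1
  · omega
  · unfold cnt at h0'; rw [h1, T.s_div j hj] at h0'; omega
  · unfold cnt at h0'; rw [h1, T.s2_div (by omega) j _ hj.le le_rfl] at h0'; omega
  · unfold cnt at h0'; rw [h1, T.big_div _ (Wts.two_mul_le A)] at h0'; omega
  · unfold cnt at h0'; rw [h1, T.kk_div] at h0'; omega

theorem kk_lt : (Finset.univ : Finset X).card < (m + 2) * T.w := by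
  have := cnt_lt (T := T) (Finset.univ : Finset X)
  rwa [L.cnt_univ] at this

theorem big_inter {A B : Finset X} (hA : C A) (hB : C B) (hcA : cnt T A = m)
    (hcB : cnt T B = m) : cnt T (A ∩ B) = m := by
  have hC := L.cs.inter A B hA hB
  have hle : cnt T (A ∩ B) ≤ m :=
    (cnt_mono (T := T) (Finset.inter_subset_left (s₁ := A) (s₂ := B))).trans hcA.le
  by_contra hne
  have hm := L.hm
  have h2 : cnt T (A ∩ B) ≤ 2 := by
    rcases L.cnt_cases hC with h1 | h1 | h1 | h1 | h1 <;> omega
  have h3 := Finset.card_union_add_card_inter A B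
  have h4 : (A ∪ B).card ≤ (Finset.univ : Finset X).card := Finset.card_le_card (Finset.subset_univ _)
  have h5 := L.kk_lt
  have h6 := cnt_lt (T := T) (A ∩ B)
  have h7 : (cnt T (A ∩ B) + 1) * T.w ≤ 3 * T.w := Nat.mul_le_mul_right _ (by omega)
  have h8 := cnt_le (T := T) A
  have h9 := cnt_le (T := T) B
  rw [hcA] at h8
  rw [hcB] at h9
  have h10 : (m + 5) * T.w ≤ (2 * m) * T.w := Nat.mul_le_mul_right _ (by omega)
  have e1 : (m + 5) * T.w = (m + 2) * T.w + 3 * T.w := by ring
  have e2 : (2 * m) * T.w = m * T.w + m * T.w := by ring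
  omega

/-- the least big set above `S` -/
theorem hull {S H : Finset X} (hH : C H) (hcH : cnt T H = m) (hSH : S ⊆ H) :
    ∃ H0, C H0 ∧ cnt T H0 = m ∧ S ⊆ H0 ∧ ∀ H', C H' → cnt T H' = m → S ⊆ H' → H0 ⊆ H' := by
  set F : Finset (Finset X) := Finset.univ.filter (fun U => C U ∧ cnt T U = m ∧ S ⊆ U) with hF
  have hcu := L.cnt_univ
  have key : C (F.inf id) ∧ S ⊆ F.inf id ∧ (cnt T (F.inf id) = m ∨ F.inf id = Finset.univ) := by
    refine Finset.inf_induction
      (p := fun U : Finset X => C U ∧ S ⊆ U ∧ (cnt T U = m ∨ U = Finset.univ)) ?_ ?_ ?_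
    · exact ⟨L.cs.univ, Finset.subset_univ _, Or.inr rfl⟩
    · rintro a ⟨ha, ha1, ha2⟩ b ⟨hb, hb1, hb2⟩
      refine ⟨L.cs.inter a b ha hb, Finset.subset_inter ha1 hb1, ?_⟩
      rcases ha2 with ha2 | rfl
      · rcases hb2 with hb2 | rfl
        · exact Or.inl (L.big_inter ha hb ha2 hb2)
        · left
          change cnt T (a ∩ Finset.univ) = m
          rw [Finset.inter_univ]; exact ha2
      · rcases hb2 with hb2 | rfl
        · left
          change cnt T (Finset.univ ∩ b) = m
          rw [Finset.univ_inter]; exact hb2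
        · right
          change Finset.univ ∩ Finset.univ = _
          rw [Finset.univ_inter]
    · intro U hU
      rw [hF, Finset.mem_filter] at hU
      exact ⟨hU.2.1, hU.2.2.2, Or.inl hU.2.2.1⟩
  have hle : ∀ H', C H' → cnt T H' = m → S ⊆ H' → F.inf id ⊆ H' := fun H' h1 h2 h3 =>
    Finset.inf_le (f := id) (Finset.mem_filter.2 ⟨Finset.mem_univ _, h1, h2, h3⟩)
  refine ⟨F.inf id, key.1, ?_, key.2.1, hle⟩
  rcases key.2.2 with h1 | h1
  · exact h1
  · exfalso
    have h2 := hle H hH hcH hSH
    rw [h1] at h2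
    have h3 : H = Finset.univ := Finset.univ_subset_iff.1 h2
    rw [h3, hcu] at hcH
    omega

theorem ne_univ {U : Finset X} (h : cnt T U ≤ m) : U ≠ Finset.univ := by
  intro h1
  rw [h1, L.cnt_univ] at h
  omega

/-- existence of a generating extension -/
theorem exists_ext {S : Finset X} (hS : C S) (hne : S ≠ Finset.univ)
    (hyp : ∀ y, (¬ ∃ H, C H ∧ cnt T H = m ∧ S ⊆ H ∧ y ∈ H) →
      cnt T (cp C S y) = cnt T S ∨ cp C S y = Finset.univ) :
    ∃ y, cp C S y = Finset.univ := by
  by_contra hno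
  push Not at hno
  have hm := L.hm
  have hp := T.hp
  by_cases hbig : ∃ H, C H ∧ cnt T H = m ∧ S ⊆ H
  · obtain ⟨H, hH, hcH, hSH⟩ := hbig
    obtain ⟨H0, hC0, hc0, hS0, hmin⟩ := L.hull hH hcH hSH
    have n1 : T.p ∣ (Finset.univ.filter (fun x => x ∉ H0 ∧ cp C H0 x ≠ Finset.univ)).card := by
      refine dvdc (L.cs.fib_dvd hC0 T.p (fun V => V ≠ Finset.univ) ?_)
      intro V hV hHV _ hVu U hU hHU hUV
      have c1 : cnt T U = m := by
        have a1 : cnt T U ≤ cnt T V := cnt_mono hUV
        have a2 := L.cnt_univ_ne hV hVu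
        have a3 : cnt T H0 ≤ cnt T U := cnt_mono hHU
        omega
      have b1 := L.cnt_mod hU
      have b2 := L.cnt_mod hC0
      rw [c1] at b1
      rw [hc0] at b2
      exact b1.trans b2.symm
    set Z := Finset.univ.filter (fun x => cp C H0 x = Finset.univ) with hZ
    have hdec : (Finset.univ : Finset X).card = Z.card + (H0.card +
        (Finset.univ.filter (fun x => x ∉ H0 ∧ cp C H0 x ≠ Finset.univ)).card) := by
      rw [← Finset.card_filter_add_card_filter_not (s := (Finset.univ : Finset X))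
        (fun x => cp C H0 x = Finset.univ)]
      congr 1
      rw [← Finset.card_filter_add_card_filter_not
        (s := Finset.univ.filter (fun x => ¬ cp C H0 x = Finset.univ)) (fun x => x ∈ H0)]
      congr 1
      · congr 1
        ext x
        simp only [Finset.mem_filter, Finset.mem_univ, true_and]
        constructor
        · exact fun h => h.2
        · intro hx
          refine ⟨fun h => ?_, hx⟩
          have h1 := cp_le hC0 (Finset.Subset.refl _) hx (C := C) (S := H0)
          rw [h] at h1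
          exact L.ne_univ hc0.le (Finset.univ_subset_iff.1 h1)
      · congr 1
        ext x
        simp only [Finset.mem_filter, Finset.mem_univ, true_and]
        tauto
    have n2 : T.p ∣ (Finset.univ.filter (fun x => x ∉ S ∧ (cnt T (cp C S x) = cnt T S ∧
        ¬ ∃ H, C H ∧ cnt T H = m ∧ cp C S x ⊆ H))).card := by
      refine dvdc (L.cs.fib_dvd hS T.p (fun V => cnt T V = cnt T S ∧
        ¬ ∃ H, C H ∧ cnt T H = m ∧ V ⊆ H) ?_)
      intro V hV hSV _ hQ U hU hSU hUV
      have c1 : cnt T U = cnt T S := by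
        have a1 : cnt T U ≤ cnt T V := cnt_mono hUV
        have a3 : cnt T S ≤ cnt T U := cnt_mono hSU
        omega
      have b1 := L.cnt_mod hU
      have b2 := L.cnt_mod hS
      rw [c1] at b1
      exact b1.trans b2.symm
    have hZe : Z = Finset.univ.filter (fun x => x ∉ S ∧ (cnt T (cp C S x) = cnt T S ∧
        ¬ ∃ H, C H ∧ cnt T H = m ∧ cp C S x ⊆ H)) := by
      ext x
      simp only [hZ, Finset.mem_filter, Finset.mem_univ, true_and]
      constructor
      · intro hx
        have hnb : ¬ ∃ H, C H ∧ cnt T H = m ∧ S ⊆ H ∧ x ∈ H := by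
          rintro ⟨H', a, b, c, d⟩
          have h1 := cp_le a (hmin H' a b c) d
          rw [hx] at h1
          exact L.ne_univ b.le (Finset.univ_subset_iff.1 h1)
        refine ⟨fun hxS => ?_, ?_, ?_⟩
        · exact hnb ⟨H0, hC0, hc0, hS0, hS0 hxS⟩
        · rcases hyp x hnb with h1 | h1
          · exact h1
          · exact absurd h1 (hno x)
        · rintro ⟨H', a, b, c⟩
          exact hnb ⟨H', a, b, (sub_cp S x).trans c, c (mem_cp S x)⟩
      · rintro ⟨_, _, hx⟩
        by_contra hu
        have h1 := L.cs.cp_mem H0 x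
        have h2 := L.cnt_univ_ne h1 hu
        have h3 : cnt T H0 ≤ cnt T (cp C H0 x) := cnt_mono (sub_cp _ _)
        exact hx ⟨cp C H0 x, h1, by omega,
          cp_le h1 (hS0.trans (sub_cp _ _)) (mem_cp _ _)⟩
    rw [← hZe] at n2
    have e1 : T.kk ≡ 0 + (m + 0) [MOD T.p] := by
      rw [← L.univ_card, hdec]
      refine Nat.ModEq.add ((Nat.modEq_zero_iff_dvd).2 n2) (Nat.ModEq.add ?_
        ((Nat.modEq_zero_iff_dvd).2 n1))
      have := L.cnt_mod hC0
      rwa [hc0] at this
    have e2 := T.kk_mod.symm.trans e1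
    have e3 := e2.eq_of_lt_of_lt (by omega) (by omega)
    omega
  · have hnb : ∀ y, ¬ ∃ H, C H ∧ cnt T H = m ∧ S ⊆ H ∧ y ∈ H := by
      rintro y ⟨H, a, b, c, _⟩
      exact hbig ⟨H, a, b, c⟩
    have hall : ∀ y, cnt T (cp C S y) = cnt T S := by
      intro y
      rcases hyp y (hnb y) with h1 | h1
      · exact h1
      · exact absurd h1 (hno y)
    have n1 : T.p ∣ (Finset.univ.filter (fun x => x ∉ S ∧ cnt T (cp C S x) = cnt T S)).card := by
      refine dvdc (L.cs.fib_dvd hS T.p (fun V => cnt T V = cnt T S) ?_)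
      intro V hV hSV _ hQ U hU hSU hUV
      have c1 : cnt T U = cnt T S := by
        have a1 : cnt T U ≤ cnt T V := cnt_mono hUV
        have a3 : cnt T S ≤ cnt T U := cnt_mono hSU
        omega
      have b1 := L.cnt_mod hU
      have b2 := L.cnt_mod hS
      rw [c1] at b1
      exact b1.trans b2.symm
    have hdec : (Finset.univ : Finset X).card = S.card +
        (Finset.univ.filter (fun x => x ∉ S ∧ cnt T (cp C S x) = cnt T S)).card := by
      rw [← Finset.card_filter_add_card_filter_not (s := (Finset.univ : Finset X))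
        (fun x => x ∈ S)]
      congr 1
      · congr 1
        ext x
        simp
      · congr 1
        ext x
        simp [hall]
    have e1 : T.kk ≡ cnt T S + 0 [MOD T.p] := by
      rw [← L.univ_card, hdec]
      exact Nat.ModEq.add (L.cnt_mod hS) ((Nat.modEq_zero_iff_dvd).2 n1)
    have e2 := T.kk_mod.symm.trans e1
    have h5 := L.cnt_univ_ne hS hne
    have e3 := e2.eq_of_lt_of_lt (by omega) (by omega)
    omega

theorem ext2 {S : Finset X} (hS : C S) (hne : S ≠ Finset.univ) (h2 : 2 ≤ cnt T S) :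
    ∃ y, cp C S y = Finset.univ := by
  have hm := L.hm
  refine L.exists_ext hS hne fun y hy => ?_
  have h1 : cnt T S ≤ cnt T (cp C S y) := cnt_mono (sub_cp _ _)
  have hC := L.cs.cp_mem S y
  rcases L.cnt_cases hC with h3 | h3 | h3 | h3 | h3
  · omega
  · omega
  · left; omega
  · exact absurd ⟨cp C S y, hC, h3, sub_cp _ _, mem_cp _ _⟩ hy
  · exact Or.inr (L.eq_univ hC h3)

theorem c0_nonneg (x : X) : 0 ≤ c0 := by
  have h1 := L.mono ∅ {x} (Finset.empty_subset _)
  have h2 := L.one x
  rw [L.h0] at h1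
  linarith

theorem hnn (S : Finset X) : 0 ≤ h S := by
  have h1 := L.mono ∅ S (Finset.empty_subset _)
  rwa [L.h0] at h1

theorem hadd (S T : Finset X) : h (S ∪ T) ≤ h S + h T := by
  have h1 := L.sub S T
  have h2 := L.hnn (S ∩ T)
  linarith

theorem hcp (S : Finset X) (x : X) : h (cp C S x) ≤ h S + c0 := by
  have h1 := L.hcl (insert x S)
  have h2 := L.hadd {x} S
  have h3 := L.one x
  rw [← Finset.insert_eq] at h2
  unfold cp
  linarith

theorem huniv {S : Finset X} (hS : C S) (h2 : 2 ≤ cnt T S) (x : X) :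
    h Finset.univ ≤ h S + c0 := by
  by_cases hne : S = Finset.univ
  · rw [hne]
    have := L.c0_nonneg x
    linarith
  · obtain ⟨y, hy⟩ := L.ext2 hS hne h2
    rw [← hy]
    exact L.hcp S y

theorem cnt_pt (x : X) : cnt T (cl C {x}) = 1 := by
  have h1 : 1 ≤ cnt T (cl C {x}) :=
    L.cnt_pos (L.cs.cl_mem _) ⟨x, subset_cl _ (Finset.mem_singleton_self x)⟩
  by_contra hne
  have h2 := L.huniv (L.cs.cl_mem {x}) (by omega) x
  have h3 := L.hcl {x}
  have h4 := L.one x
  have h5 := L.big
  have h6 := L.c0_nonneg x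
  linarith

end LS

end Run7.h695
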