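import Pool.Agent.Run7.h695.Lift1
set_option autoImplicit false
set_option linter.unusedSectionVars false
set_option linter.unusedVariables false

/-! The lifting construction, part 2: units. -/

open scoped Classical

namespace Run7.h695

open Finset

variable {m : ℕ} {T : Wts m} {JC : Finset (Fin m) → Prop} {X : Type} [Fintype X]
  {C : Finset X → Prop} {h : Finset X → ℝ} {c0 : ℝ}

/-- the least nonempty closed set inside the closure of `x` -/
noncomputable def ut (C : Finset X → Prop) (x : X) : Finset X :=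
  (Finset.univ.filter (fun U => C U ∧ U.Nonempty ∧ U ⊆ cl C {x})).inf id

namespace LS

variable (L : LS T JC C h c0)
include L

/-- nonempty closed subsets of a set with count one meet -/
theorem meet {V A B : Finset X} (hcV : cnt T V ≤ 1) (hA : C A) (hB : C B) (hAn : A.Nonempty)
    (hBn : B.Nonempty) (hAV : A ⊆ V) (hBV : B ⊆ V) : (A ∩ B).Nonempty := by
  by_contra hne
  rw [Finset.not_nonempty_iff_eq_empty] at hne
  have h1 := Finset.card_union_add_card_inter A B
  rw [hne, Finset.card_empty] at h1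
  have h2 := Finset.card_le_card (Finset.union_subset hAV hBV)
  have h3 := cnt_lt (T := T) V
  have h4 := cnt_le (T := T) A
  have h5 := cnt_le (T := T) B
  have h6 : 1 * T.w ≤ cnt T A * T.w := Nat.mul_le_mul_right _ (L.cnt_pos hA hAn)
  have h7 : 1 * T.w ≤ cnt T B * T.w := Nat.mul_le_mul_right _ (L.cnt_pos hB hBn)
  have h8 : (cnt T V + 1) * T.w ≤ 2 * T.w := Nat.mul_le_mul_right _ (by omega)
  omega

theorem ut_spec (x : X) : C (ut C x) ∧ (ut C x).Nonempty ∧ ut C x ⊆ cl C {x} ∧
    ∀ U, C U → U.Nonempty → U ⊆ cl C {x} → ut C x ⊆ U := by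
  have hle : ∀ U, C U → U.Nonempty → U ⊆ cl C {x} → ut C x ⊆ U := fun U h1 h2 h3 =>
    Finset.inf_le (f := id) (Finset.mem_filter.2 ⟨Finset.mem_univ _, h1, h2, h3⟩)
  have hself : ut C x ⊆ cl C {x} := hle _ (L.cs.cl_mem _)
    ⟨x, subset_cl _ (Finset.mem_singleton_self x)⟩ (Finset.Subset.refl _)
  have key : C (ut C x) ∧ (ut C x = Finset.univ ∨ ((ut C x).Nonempty ∧ ut C x ⊆ cl C {x})) := by
    unfold ut
    refine Finset.inf_induction
      (p := fun U : Finset X => C U ∧ (U = Finset.univ ∨ (U.Nonempty ∧ U ⊆ cl C {x}))) ?_ ?_ ?_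
    · exact ⟨L.cs.univ, Or.inl rfl⟩
    · rintro a ⟨ha, ha2⟩ b ⟨hb, hb2⟩
      refine ⟨L.cs.inter a b ha hb, ?_⟩
      rcases ha2 with rfl | ha2
      · rcases hb2 with rfl | hb2
        · left
          change Finset.univ ∩ Finset.univ = _
          rw [Finset.univ_inter]
        · right
          change (Finset.univ ∩ b).Nonempty ∧ Finset.univ ∩ b ⊆ _
          rw [Finset.univ_inter]; exact hb2
      · rcases hb2 with rfl | hb2
        · right
          change (a ∩ Finset.univ).Nonempty ∧ a ∩ Finset.univ ⊆ _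
          rw [Finset.inter_univ]; exact ha2
        · right
          exact ⟨L.meet (L.cnt_pt x).le ha hb ha2.1 hb2.1 ha2.2 hb2.2,
            Finset.inter_subset_left.trans ha2.2⟩
    · intro U hU
      rw [Finset.mem_filter] at hU
      exact ⟨hU.2.1, Or.inr hU.2.2⟩
  refine ⟨key.1, ?_, hself, hle⟩
  rcases key.2 with h1 | h1
  · rw [h1]; exact ⟨x, Finset.mem_univ _⟩
  · exact h1.1

theorem ut_cnt (x : X) : cnt T (ut C x) = 1 := by
  have h1 := L.cnt_pos (L.ut_spec x).1 (L.ut_spec x).2.1
  have h2 : cnt T (ut C x) ≤ cnt T (cl C {x}) := cnt_mono (L.ut_spec x).2.2.1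
  rw [L.cnt_pt] at h2
  omega

theorem ut_eq {x y : X} (hy : y ∈ cl C {x}) : ut C y = ut C x := by
  obtain ⟨a1, a2, a3, a4⟩ := L.ut_spec x
  obtain ⟨b1, b2, b3, b4⟩ := L.ut_spec y
  have h1 : cl C {y} ⊆ cl C {x} := cl_le (L.cs.cl_mem _) (Finset.singleton_subset_iff.2 hy)
  have h2 : ut C x ⊆ ut C y := a4 _ b1 b2 (b3.trans h1)
  exact (b4 _ a1 a2 (h2.trans b3)).antisymm h2

theorem ut_eq_of_cnt {V : Finset X} (hV : C V) (hc : cnt T V ≤ 1) {x y : X} (hx : x ∈ V)
    (hy : y ∈ V) : ut C x = ut C y := by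
  obtain ⟨a1, a2, a3, a4⟩ := L.ut_spec x
  obtain ⟨b1, b2, b3, b4⟩ := L.ut_spec y
  have h1 : cl C {x} ⊆ V := cl_le hV (Finset.singleton_subset_iff.2 hx)
  have h2 : cl C {y} ⊆ V := cl_le hV (Finset.singleton_subset_iff.2 hy)
  obtain ⟨z, hz⟩ := L.meet hc a1 b1 a2 b2 (a3.trans h1) (b3.trans h2)
  rw [Finset.mem_inter] at hz
  rw [← L.ut_eq (a3 hz.1), ← L.ut_eq (b3 hz.2)]

/-- the part of a closed set in one unit -/
theorem fiber_card {U : Finset X} (hU : C U) {x0 : X} (hx0 : x0 ∈ U) :
    (U.filter (fun x => ut C x = ut C x0)).card ≡ 1 [MOD T.p] ∧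
      T.w ≤ (U.filter (fun x => ut C x = ut C x0)).card := by
  obtain ⟨a1, a2, a3, a4⟩ := L.ut_spec x0
  set K := ut C x0 with hK
  have hKU : K ⊆ U := a3.trans (cl_le hU (Finset.singleton_subset_iff.2 hx0))
  have hcK : cnt T K = 1 := L.ut_cnt x0
  have hKf : ∀ x ∈ K, ut C x = K := fun x hx => L.ut_eq (a3 hx)
  have hfil : U.filter (fun x => ut C x = K) = K ∪
      Finset.univ.filter (fun x => x ∉ K ∧ (cnt T (cp C K x) = 1 ∧ cp C K x ⊆ U)) := by
    ext x
    simp only [Finset.mem_filter, Finset.mem_union, Finset.mem_univ, true_and]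
    constructor
    · rintro ⟨hxU, hxK⟩
      by_cases hx : x ∈ K
      · exact Or.inl hx
      · right
        have h1 : K ⊆ cl C {x} := hxK ▸ (L.ut_spec x).2.2.1
        have h2 : cp C K x = cl C {x} := by
          refine (cp_le (L.cs.cl_mem _) h1 (subset_cl _ (Finset.mem_singleton_self x))).antisymm ?_
          exact cl_le (L.cs.cp_mem _ _) (Finset.singleton_subset_iff.2 (mem_cp _ _))
        refine ⟨hx, ?_, ?_⟩
        · rw [h2]; exact L.cnt_pt x
        · rw [h2]; exact cl_le hU (Finset.singleton_subset_iff.2 hxU)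
    · rintro (hx | ⟨hx, h1, h2⟩)
      · exact ⟨hKU hx, hKf x hx⟩
      · refine ⟨h2 (mem_cp _ _), ?_⟩
        obtain ⟨y, hy⟩ := a2
        have := L.ut_eq_of_cnt (L.cs.cp_mem K x) h1.le (mem_cp K x) (sub_cp K x hy)
        rw [this, hKf y hy]
  have hdisj : Disjoint K
      (Finset.univ.filter (fun x => x ∉ K ∧ (cnt T (cp C K x) = 1 ∧ cp C K x ⊆ U))) := by
    rw [Finset.disjoint_left]
    intro x hx hx2
    exact (Finset.mem_filter.1 hx2).2.1 hx
  have n1 : T.p ∣
      (Finset.univ.filter (fun x => x ∉ K ∧ (cnt T (cp C K x) = 1 ∧ cp C K x ⊆ U))).card := by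
    refine dvdc (L.cs.fib_dvd a1 T.p (fun V => cnt T V = 1 ∧ V ⊆ U) ?_)
    intro V hV hSV _ hQ U' hU' hSU hUV
    have c1 : cnt T U' = cnt T K := by
      have b1 : cnt T U' ≤ cnt T V := cnt_mono hUV
      have b3 : cnt T K ≤ cnt T U' := cnt_mono hSU
      omega
    have b1 := L.cnt_mod hU'
    have b2 := L.cnt_mod a1
    rw [c1] at b1
    exact b1.trans b2.symm
  rw [hfil, Finset.card_union_of_disjoint hdisj]
  constructor
  · have b2 := L.cnt_mod a1
    rw [hcK] at b2
    simpa using b2.add ((Nat.modEq_zero_iff_dvd).2 n1)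
  · have b3 := cnt_le (T := T) K
    rw [hcK] at b3
    omega

/-- the number of units meeting a closed set is its count -/
theorem uc_eq {U : Finset X} (hU : C U) : (U.image (ut C)).card = cnt T U := by
  have h1 := Finset.card_eq_sum_card_image (ut C) U
  have h2 : ∀ K ∈ U.image (ut C), (U.filter (fun x => ut C x = K)).card ≡ 1 [MOD T.p] ∧
      T.w ≤ (U.filter (fun x => ut C x = K)).card := by
    intro K hK
    obtain ⟨x0, hx0, rfl⟩ := Finset.mem_image.1 hK
    exact L.fiber_card hU hx0
  have h3 : U.card ≡ (U.image (ut C)).card [MOD T.p] := by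
    have : ∀ t : Finset (Finset X), (∀ K ∈ t,
        (U.filter (fun x => ut C x = K)).card ≡ 1 [MOD T.p]) →
        ∑ K ∈ t, (U.filter (fun x => ut C x = K)).card ≡ t.card [MOD T.p] := by
      intro t
      induction t using Finset.induction_on with
      | empty => intro _; simp [Nat.ModEq]
      | insert a s ha ih =>
        intro hall
        rw [Finset.sum_insert ha, Finset.card_insert_of_notMem ha, add_comm s.card 1]
        exact (hall a (Finset.mem_insert_self _ _)).add
          (ih fun K hK => hall K (Finset.mem_insert_of_mem hK))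
    rw [h1]
    exact this _ fun K hK => (h2 K hK).1
  have h4 : (U.image (ut C)).card * T.w ≤ U.card := by
    rw [h1]
    have := Finset.card_nsmul_le_sum (U.image (ut C))
      (fun K => (U.filter (fun x => ut C x = K)).card) T.w (fun K hK => (h2 K hK).2)
    rwa [smul_eq_mul] at this
  have h5 : (U.image (ut C)).card ≤ cnt T U := (Nat.le_div_iff_mul_le T.wpos).2 h4
  have h6 := L.cnt_mod hU
  have hm := L.hm
  have h7 : cnt T U ≤ m + 1 := by
    rcases L.cnt_cases hU with h | h | h | h | h <;> omega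
  have hp := T.hp
  exact (h3.symm.trans h6).eq_of_lt_of_lt (by omega) (by omega)

theorem cnt_two {U : Finset X} (hU : C U) {x y : X} (hx : x ∈ U) (hy : y ∈ U)
    (hne : ut C x ≠ ut C y) : 2 ≤ cnt T U := by
  rw [← L.uc_eq hU]
  exact Finset.one_lt_card.2 ⟨_, Finset.mem_image_of_mem _ hx, _, Finset.mem_image_of_mem _ hy, hne⟩

theorem h_pair (x y : X) : h (cl C {x, y}) ≤ 2 * c0 := by
  have h1 := L.hcl {x, y}
  have h2 := L.hadd {x} {y}
  have e : ({x} ∪ {y} : Finset X) = {x, y} := rfl
  rw [e] at h2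
  linarith [L.one x, L.one y]

theorem pair_ne_univ (x y : X) : cl C {x, y} ≠ Finset.univ := by
  intro h1
  have h2 := L.h_pair x y
  rw [h1] at h2
  have h3 := L.big
  have h4 := L.c0_nonneg x
  linarith

/-- size of a unit -/
noncomputable def us (L : LS T JC C h c0) (K : Finset X) : ℕ :=
  (Finset.univ.filter (fun x => ut C x = K)).card

theorem mem_pair (x y : X) : x ∈ cl C {x, y} ∧ y ∈ cl C {x, y} :=
  ⟨subset_cl _ (by simp), subset_cl _ (by simp)⟩

/-- two units: either a big set or a large total size -/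
theorem pair_size {x y : X} (hne : ut C x ≠ ut C y) :
    cnt T (cl C {x, y}) = m ∨
      2 * T.w + T.p * T.d (2 * m) ≤ L.us (ut C x) + L.us (ut C y) := by
  have hm := L.hm
  have hC := L.cs.cl_mem (C := C) {x, y}
  have hmem := L.mem_pair x y
  have h2 := L.cnt_two hC hmem.1 hmem.2 hne
  have hun := L.pair_ne_univ x y
  have hle := L.cnt_univ_ne hC hun
  by_cases hbig : cnt T (cl C {x, y}) = m
  · exact Or.inl hbig
  right
  have hc2 : cnt T (cl C {x, y}) = 2 := by
    rcases L.cnt_cases hC with h | h | h | h | h <;> omega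
  -- size
  have hsize : 2 * T.w + T.p * T.d (2 * m) ≤ (cl C {x, y}).card := by
    rcases L.sz _ hC hun with h1 | ⟨j, hj, h1⟩ | ⟨j, hj, h1⟩ | ⟨A, _, _, h1⟩
    · unfold cnt at hc2; rw [h1] at hc2; simp at hc2
    · unfold cnt at hc2; rw [h1, T.s_div j hj] at hc2; omega
    · rw [h1]; unfold Wts.s; omega
    · unfold cnt at hc2; rw [h1, T.big_div _ (Wts.two_mul_le A)] at hc2; omega
  refine hsize.trans ?_
  have himg : (cl C {x, y}).image (ut C) = {ut C x, ut C y} := by
    symm
    apply Finset.eq_of_subset_of_card_le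
    · intro K hK
      simp only [Finset.mem_insert, Finset.mem_singleton] at hK
      rcases hK with rfl | rfl
      · exact Finset.mem_image_of_mem _ hmem.1
      · exact Finset.mem_image_of_mem _ hmem.2
    · rw [L.uc_eq hC, hc2, Finset.card_pair hne]
  have hsub : cl C {x, y} ⊆ (Finset.univ.filter (fun z => ut C z = ut C x)) ∪
      (Finset.univ.filter (fun z => ut C z = ut C y)) := by
    intro z hz
    have h1 : ut C z ∈ (cl C {x, y}).image (ut C) := Finset.mem_image_of_mem _ hz
    rw [himg, Finset.mem_insert, Finset.mem_singleton] at h1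
    rw [Finset.mem_union, Finset.mem_filter, Finset.mem_filter]
    rcases h1 with h1 | h1
    · exact Or.inl ⟨Finset.mem_univ _, h1⟩
    · exact Or.inr ⟨Finset.mem_univ _, h1⟩
  exact (Finset.card_le_card hsub).trans (Finset.card_union_le _ _)

theorem us_ge (x : X) : T.w ≤ L.us (ut C x) := by
  unfold us
  exact (L.fiber_card L.cs.univ (Finset.mem_univ x)).2

/-- the units -/
noncomputable def units (L : LS T JC C h c0) : Finset (Finset X) :=
  (Finset.univ : Finset X).image (ut C)

theorem units_card : L.units.card = m + 1 := by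
  unfold units
  rw [L.uc_eq L.cs.univ, L.cnt_univ]

theorem units_sum : ∑ K ∈ L.units, L.us K = T.kk := by
  unfold units us
  rw [← Finset.card_eq_sum_card_image, L.univ_card]

theorem us_ge' {K : Finset X} (hK : K ∈ L.units) : T.w ≤ L.us K := by
  obtain ⟨x, _, rfl⟩ := Finset.mem_image.1 hK
  exact L.us_ge x

theorem sigma_le : T.p * ∑ i : Fin m, T.d (2 * i + 1) ≤ m * (T.p * T.d (2 * m - 1)) := by
  have h1 := T.sum_d_le (Finset.univ : Finset (Fin m)) (fun i => 2 * (i : ℕ) + 1) (2 * m - 1)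
    (fun i _ => by have := i.2; omega)
  rw [Finset.card_univ, Fintype.card_fin] at h1
  calc _ ≤ T.p * (m * T.d (2 * m - 1)) := Nat.mul_le_mul_left _ h1
    _ = _ := by ring

theorem g_ge : (4 * m + 4) * (T.p * T.d (2 * m - 1)) ≤ T.p * T.d (2 * m) := by
  have h1 := T.hgr (2 * m - 1)
  have h2 : 2 * m - 1 + 1 = 2 * m := by have := L.hm; omega
  rw [h2] at h1
  calc _ = T.p * ((4 * m + 4) * T.d (2 * m - 1)) := by ring
    _ ≤ _ := Nat.mul_le_mul_left _ h1

/-- there are big sets -/
theorem exists_big : ∃ H, C H ∧ cnt T H = m := by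
  by_contra hno
  push Not at hno
  have hm := L.hm
  have hpair : ∀ K ∈ L.units, ∀ K' ∈ L.units, K ≠ K' →
      2 * T.w + T.p * T.d (2 * m) ≤ L.us K + L.us K' := by
    intro K hK K' hK' hne
    obtain ⟨x, _, rfl⟩ := Finset.mem_image.1 hK
    obtain ⟨y, _, rfl⟩ := Finset.mem_image.1 hK'
    rcases L.pair_size hne with h1 | h1
    · exact absurd h1 (hno _ (L.cs.cl_mem _))
    · exact h1
  have hcard := L.units_card
  have hex : ∀ s : Finset (Finset X), 0 < s.card → ∃ a, a ∈ s := fun s hs => by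
    rwa [Finset.card_pos] at hs
  obtain ⟨a, ha⟩ := hex L.units (by omega)
  obtain ⟨b, hb⟩ := hex (L.units.erase a) (by rw [Finset.card_erase_of_mem ha]; omega)
  have hb1 := (Finset.mem_erase.1 hb).2
  have hcb : ((L.units.erase a).erase b).card = m - 1 := by
    rw [Finset.card_erase_of_mem hb, Finset.card_erase_of_mem ha]; omega
  obtain ⟨c, hc⟩ := hex ((L.units.erase a).erase b) (by omega)
  have hc1 : c ∈ L.units := (Finset.mem_erase.1 (Finset.mem_erase.1 hc).2).2
  have hcc : (((L.units.erase a).erase b).erase c).card = m - 2 := by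
    rw [Finset.card_erase_of_mem hc, hcb]; omega
  obtain ⟨d, hd⟩ := hex (((L.units.erase a).erase b).erase c) (by omega)
  have hd1 : d ∈ L.units := (Finset.mem_erase.1 (Finset.mem_erase.1 (Finset.mem_erase.1 hd).2).2).2
  have hcd : ((((L.units.erase a).erase b).erase c).erase d).card = m - 3 := by
    rw [Finset.card_erase_of_mem hd, hcc]; omega
  have hsum := L.units_sum
  rw [← Finset.add_sum_erase _ _ ha, ← Finset.add_sum_erase _ _ hb, ← Finset.add_sum_erase _ _ hc,
    ← Finset.add_sum_erase _ _ hd] at hsum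
  have hrest : ((((L.units.erase a).erase b).erase c).erase d).card • T.w ≤
      ∑ K ∈ (((L.units.erase a).erase b).erase c).erase d, L.us K := by
    refine Finset.card_nsmul_le_sum _ _ _ fun K hK => L.us_ge' ?_
    exact Finset.mem_of_mem_erase (Finset.mem_of_mem_erase (Finset.mem_of_mem_erase
      (Finset.mem_of_mem_erase hK)))
  rw [hcd, smul_eq_mul] at hrest
  have h1 := hpair a ha b hb1 (fun h => (Finset.mem_erase.1 hb).1 h.symm)
  have h2 := hpair c hc1 d hd1 (fun h => (Finset.mem_erase.1 hd).1 h.symm)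
  have hk := T.kk_eq
  have hs := L.sigma_le
  have hg := L.g_ge
  have e1 : (m + 1) * T.w = 4 * T.w + (m - 3) * T.w := by
    rw [← add_mul]
    congr 1
    omega
  have e2 : T.p * (∑ i : Fin m, T.d (2 * i + 1) + T.d (2 * m)) =
      T.p * ∑ i : Fin m, T.d (2 * i + 1) + T.p * T.d (2 * m) := by ring
  have hpos : 0 < T.p * T.d (2 * m - 1) := Nat.mul_pos T.ppos (T.dpos _)
  have h5 : m * (T.p * T.d (2 * m - 1)) < (4 * m + 4) * (T.p * T.d (2 * m - 1)) :=
    Nat.mul_lt_mul_of_pos_right (by omega) hpos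
  omega

/-- no branching inside a unit -/
theorem no_branch {x y : X} (hxy : ut C x = ut C y) : cnt T (cl C {x, y}) = 1 := by
  have hm := L.hm
  have hmem := L.mem_pair x y
  have hC := L.cs.cl_mem (C := C) {x, y}
  have h1 := L.cnt_pos hC ⟨x, hmem.1⟩
  by_contra hne
  have h2 := L.huniv hC (by omega) x
  -- h {x,y} + h (ut x) ≤ 2 c0
  have s1 := L.sub (cl C {x}) (cl C {y})
  have s2 : h (cl C {x, y}) ≤ h (cl C {x} ∪ cl C {y}) := by
    refine (L.hcl _).trans (L.mono _ _ ?_)
    intro z hz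
    simp only [Finset.mem_insert, Finset.mem_singleton] at hz
    rcases hz with rfl | rfl
    · exact Finset.mem_union_left _ (subset_cl _ (Finset.mem_singleton_self _))
    · exact Finset.mem_union_right _ (subset_cl _ (Finset.mem_singleton_self _))
  have s3 : h (ut C x) ≤ h (cl C {x} ∩ cl C {y}) := by
    refine L.mono _ _ (Finset.subset_inter (L.ut_spec x).2.2.1 ?_)
    rw [hxy]
    exact (L.ut_spec y).2.2.1
  have s4 := (L.hcl {x}).trans (L.one x)
  have s5 := (L.hcl {y}).trans (L.one y)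
  -- another unit
  obtain ⟨z, hz⟩ : ∃ z, ut C z ≠ ut C x := by
    by_contra hall
    push Not at hall
    have h3 : L.units ⊆ {ut C x} := by
      intro K hK
      obtain ⟨z, _, rfl⟩ := Finset.mem_image.1 hK
      rw [Finset.mem_singleton]
      exact hall z
    have h4 := Finset.card_le_card h3
    rw [L.units_card, Finset.card_singleton] at h4
    omega
  obtain ⟨a1, a2, a3, a4⟩ := L.ut_spec x
  obtain ⟨κ, hκ⟩ := a2
  have hcz := L.cs.cp_mem (ut C x) z
  have hc2 : 2 ≤ cnt T (cp C (ut C x) z) := by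
    refine L.cnt_two hcz (mem_cp _ z) (sub_cp _ _ hκ) ?_
    rw [L.ut_eq (a3 hκ)]
    exact hz
  have t1 := L.huniv hcz hc2 x
  have t2 := L.hcp (ut C x) z
  have t3 := L.big
  linarith

end LS

end Run7.h695
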