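import Pool.Agent.Run7.h695.Lift2
set_option autoImplicit false
set_option linter.unusedSectionVars false
set_option linter.unusedVariables false

/-! The lifting construction, part 3: the rigid structure and the bound. -/

open scoped Classical

namespace Run7.h695

open Finset

variable {m : ℕ} {T : Wts m} {JC : Finset (Fin m) → Prop} {X : Type} [Fintype X]
  {C : Finset X → Prop} {h : Finset X → ℝ} {c0 : ℝ}

/-- the core data -/
structure Core (L : LS T JC C h c0) (H0 e : Finset X) : Prop where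
  c : C H0
  cn : cnt T H0 = m
  mn : ∀ H', C H' → cnt T H' = m → H0 ⊆ H'
  he : e ∈ L.units
  im : ∀ H', C H' → cnt T H' = m → H'.image (ut C) = L.units.erase e

namespace LS

variable (L : LS T JC C h c0)
include L

theorem exists_core : ∃ H0 e, Core L H0 e := by
  obtain ⟨H, hH, hcH⟩ := L.exists_big
  obtain ⟨H0, a, b, _, hmin⟩ := L.hull hH hcH (Finset.empty_subset H)
  have hmin' : ∀ H', C H' → cnt T H' = m → H0 ⊆ H' := fun H' h1 h2 =>
    hmin H' h1 h2 (Finset.empty_subset _)
  have hsub : ∀ U : Finset X, U.image (ut C) ⊆ L.units := fun U =>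
    Finset.image_subset_image (Finset.subset_univ _)
  have h1 : (L.units \ H0.image (ut C)).card = 1 := by
    rw [Finset.card_sdiff_of_subset (hsub _), L.units_card, L.uc_eq a, b]
    omega
  obtain ⟨e, he⟩ := Finset.card_eq_one.1 h1
  have he1 : e ∈ L.units \ H0.image (ut C) := by rw [he]; exact Finset.mem_singleton_self e
  rw [Finset.mem_sdiff] at he1
  have him0 : H0.image (ut C) = L.units.erase e := by
    apply Finset.eq_of_subset_of_card_le
    · intro K hK
      rw [Finset.mem_erase]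
      exact ⟨fun h => he1.2 (h ▸ hK), hsub _ hK⟩
    · rw [Finset.card_erase_of_mem he1.1, L.units_card, L.uc_eq a, b]
      omega
  refine ⟨H0, e, a, b, hmin', he1.1, fun H' h2 h3 => ?_⟩
  rw [← him0]
  symm
  apply Finset.eq_of_subset_of_card_le (Finset.image_subset_image (hmin' H' h2 h3))
  rw [L.uc_eq a, L.uc_eq h2, b, h3]

end LS

variable {L : LS T JC C h c0} {H0 e : Finset X}

namespace Core

variable (K0 : Core L H0 e)
include K0

theorem not_mem_big {U : Finset X} (hU : C U) (hc : cnt T U = m) {x : X} (hx : x ∈ U) :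
    ut C x ≠ e := by
  have h1 := K0.im U hU hc
  have h2 : ut C x ∈ U.image (ut C) := Finset.mem_image_of_mem _ hx
  rw [h1, Finset.mem_erase] at h2
  exact h2.1

theorem e_pair {K : Finset X} (hK : K ∈ L.units.erase e) :
    2 * T.w + T.p * T.d (2 * m) ≤ L.us K + L.us e := by
  rw [Finset.mem_erase] at hK
  obtain ⟨x, _, rfl⟩ := Finset.mem_image.1 hK.2
  obtain ⟨y, _, hy⟩ := Finset.mem_image.1 K0.he
  have hne : ut C x ≠ ut C y := by rw [hy]; exact hK.1
  rcases L.pair_size hne with h1 | h1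
  · exact absurd hy (K0.not_mem_big (L.cs.cl_mem _) h1 (L.mem_pair x y).2)
  · rwa [hy] at h1

theorem kk_split : ∑ K ∈ L.units.erase e, L.us K + L.us e =
    (m + 1) * T.w + T.p * ∑ i : Fin m, T.d (2 * i + 1) + T.p * T.d (2 * m) := by
  rw [Finset.sum_erase_add _ _ K0.he, L.units_sum, T.kk_eq]
  ring

theorem us_e : T.w + T.p * T.d (2 * m) ≤ L.us e + 2 * (T.p * T.d (2 * m - 1)) := by
  have hm := L.hm
  have h1 : (L.units.erase e).card • (2 * T.w + T.p * T.d (2 * m)) ≤
      ∑ K ∈ L.units.erase e, (L.us K + L.us e) :=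
    Finset.card_nsmul_le_sum _ _ _ fun K hK => K0.e_pair hK
  rw [Finset.card_erase_of_mem K0.he, L.units_card, smul_eq_mul, Finset.sum_add_distrib,
    Finset.sum_const, Finset.card_erase_of_mem K0.he, L.units_card, smul_eq_mul,
    Nat.add_sub_cancel] at h1
  have h2 := K0.kk_split
  have h3 := L.sigma_le
  by_contra hlt
  push Not at hlt
  have h4 : (m - 1) * (L.us e + 2 * (T.p * T.d (2 * m - 1)) + 1) ≤
      (m - 1) * (T.w + T.p * T.d (2 * m)) := Nat.mul_le_mul_left _ hlt
  set E := L.us e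
  set g := T.p * T.d (2 * m)
  set s2 := T.p * T.d (2 * m - 1)
  set σ := T.p * ∑ i : Fin m, T.d (2 * i + 1)
  set S := ∑ K ∈ L.units.erase e, L.us K
  obtain ⟨n, hn⟩ : ∃ n, m = n + 1 := ⟨m - 1, by omega⟩
  have hn1 : m - 1 = n := by omega
  rw [hn1] at h4
  have hm2 : (m : ℤ) = n + 1 := by exact_mod_cast hn
  zify at h1 h2 h3 h4
  rw [hm2] at h1 h2 h3
  have hn3 : (3 : ℤ) ≤ n := by
    have : (4 : ℕ) ≤ n := by omega
    exact_mod_cast (by omega : 3 ≤ n)
  have hs0 : (0 : ℤ) ≤ s2 := by positivity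
  nlinarith

theorem us_ne {K : Finset X} (hK : K ∈ L.units.erase e) :
    L.us K ≤ T.w + (m + 2) * (T.p * T.d (2 * m - 1)) := by
  have hm := L.hm
  have h1 : ((L.units.erase e).erase K).card • T.w ≤
      ∑ K ∈ (L.units.erase e).erase K, L.us K :=
    Finset.card_nsmul_le_sum _ _ _ fun K' hK' =>
      L.us_ge' (Finset.mem_of_mem_erase (Finset.mem_of_mem_erase hK'))
  rw [Finset.card_erase_of_mem hK, Finset.card_erase_of_mem K0.he, L.units_card, smul_eq_mul,
    Nat.add_sub_cancel] at h1
  have h2 := K0.kk_split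
  rw [← Finset.add_sum_erase _ _ hK] at h2
  have h3 := L.sigma_le
  have h4 := K0.us_e
  have e1 : (m + 1) * T.w = (m - 1) * T.w + 2 * T.w := by
    rw [← add_mul]
    congr 1
    omega
  have e2 : (m + 2) * (T.p * T.d (2 * m - 1)) = m * (T.p * T.d (2 * m - 1)) +
    2 * (T.p * T.d (2 * m - 1)) := by ring
  omega

theorem big_pair {x y : X} (hx : ut C x ≠ e) (hy : ut C y ≠ e) (hne : ut C x ≠ ut C y) :
    cnt T (cl C {x, y}) = m := by
  have hm := L.hm
  rcases L.pair_size hne with h1 | h1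
  · exact h1
  · exfalso
    have h2 := K0.us_ne (Finset.mem_erase.2 ⟨hx, Finset.mem_image_of_mem _ (Finset.mem_univ x)⟩)
    have h3 := K0.us_ne (Finset.mem_erase.2 ⟨hy, Finset.mem_image_of_mem _ (Finset.mem_univ y)⟩)
    have h4 := L.g_ge
    have hpos : 0 < T.p * T.d (2 * m - 1) := Nat.mul_pos T.ppos (T.dpos _)
    have h5 : (2 * m + 4) * (T.p * T.d (2 * m - 1)) < (4 * m + 4) * (T.p * T.d (2 * m - 1)) :=
      Nat.mul_lt_mul_of_pos_right (by omega) hpos
    have h6 : (2 * m + 4) * (T.p * T.d (2 * m - 1)) = (m + 2) * (T.p * T.d (2 * m - 1)) +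
      (m + 2) * (T.p * T.d (2 * m - 1)) := by ring
    omega

end Core

namespace LS

variable (L)
include L

theorem one_size {V : Finset X} (hV : C V) (hc : cnt T V = 1) :
    ∃ j, j ≤ 2 * m ∧ V.card = T.s j := by
  have hm := L.hm
  rcases L.szk hV with (h1 | ⟨j, hj, h1⟩ | ⟨j, hj, h1⟩ | ⟨A, _, _, h1⟩) | h1
  · unfold cnt at hc; rw [h1] at hc; simp at hc
  · exact ⟨j, hj, h1⟩
  · unfold cnt at hc; rw [h1, T.s2_div (by omega) j _ hj.le le_rfl] at hc; omega
  · unfold cnt at hc; rw [h1, T.big_div _ (Wts.two_mul_le A)] at hc; omega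
  · unfold cnt at hc; rw [h1, T.kk_div] at hc; omega

theorem big_size {V : Finset X} (hV : C V) (hc : cnt T V = m) :
    ∃ A : Finset (Fin m), JC A ∧ A ≠ Finset.univ ∧
      V.card = ∑ i : Fin m, T.s (2 * i + if i ∈ A then 1 else 0) := by
  have hm := L.hm
  rcases L.szk hV with (h1 | ⟨j, hj, h1⟩ | ⟨j, hj, h1⟩ | ⟨A, hA, hA2, h1⟩) | h1
  · unfold cnt at hc; rw [h1] at hc; simp at hc; omega
  · unfold cnt at hc; rw [h1, T.s_div j hj] at hc; omega
  · unfold cnt at hc; rw [h1, T.s2_div (by omega) j _ hj.le le_rfl] at hc; omega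
  · exact ⟨A, hA, hA2, h1⟩
  · unfold cnt at hc; rw [h1, T.kk_div] at hc; omega

/-- closed sets of count one are generated by a point -/
theorem pt_gen {V : Finset X} (hV : C V) (hc : cnt T V = 1) : ∃ y, cl C {y} = V := by
  by_contra hno
  push Not at hno
  have hne : V.Nonempty := by
    by_contra h1
    rw [Finset.not_nonempty_iff_eq_empty] at h1
    rw [h1] at hc
    unfold cnt at hc
    simp at hc
  obtain ⟨x0, hx0⟩ := hne
  obtain ⟨a1, a2, a3, a4⟩ := L.ut_spec x0
  set K := ut C x0 with hK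
  have hKV : K ⊆ V := a3.trans (cl_le hV (Finset.singleton_subset_iff.2 hx0))
  obtain ⟨j, hj, hjs⟩ := L.one_size hV hc
  set q := 2 ^ (2 * m - j + 1) with hq
  -- smaller closed sets
  have hsmall : ∀ U, C U → K ⊆ U → U ⊆ V → U ≠ V → U.card ≡ T.w [MOD q] := by
    intro U hU hKU hUV hUne
    have hcU : cnt T U = 1 := by
      have b1 : cnt T U ≤ cnt T V := cnt_mono hUV
      have b2 : cnt T K ≤ cnt T U := cnt_mono hKU
      have b3 := L.ut_cnt x0
      rw [← hK] at b3
      omega
    obtain ⟨j', hj', hjs'⟩ := L.one_size hU hcU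
    have hlt : U.card < V.card := Finset.card_lt_card (hUV.ssubset_of_ne hUne)
    rw [hjs, hjs'] at hlt
    have hjj : j' < j := T.smono.lt_iff_lt.1 hlt
    have hd : q ∣ T.d j' := (Nat.pow_dvd_pow 2 (by omega)).trans (T.hd2 j' hj')
    rw [hjs']
    unfold Wts.s
    have : T.p * T.d j' ≡ 0 [MOD q] := (Nat.modEq_zero_iff_dvd).2 (hd.mul_left _)
    simpa using (Nat.ModEq.refl T.w).add this
  have hKne : K ≠ V := by
    intro h1
    rw [h1] at a3
    exact hno x0 ((cl_le hV (Finset.singleton_subset_iff.2 hx0)).antisymm a3)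
  have hKq := hsmall K a1 (Finset.Subset.refl _) hKV hKne
  have n1 : q ∣ (Finset.univ.filter (fun x => x ∉ K ∧ (cp C K x ⊆ V ∧ cp C K x ≠ V))).card := by
    refine dvdc (L.cs.fib_dvd a1 q (fun U => U ⊆ V ∧ U ≠ V) ?_)
    intro W hW hKW _ hQ U hU hKU hUW
    have hUV : U ⊆ V := hUW.trans hQ.1
    have hUne : U ≠ V := fun h => hQ.2 (hQ.1.antisymm (h ▸ hUW))
    exact (hsmall U hU hKU hUV hUne).trans hKq.symm
  have hset : Finset.univ.filter (fun x => x ∉ K ∧ (cp C K x ⊆ V ∧ cp C K x ≠ V)) = V \ K := by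
    ext x
    simp only [Finset.mem_filter, Finset.mem_univ, true_and, Finset.mem_sdiff]
    constructor
    · rintro ⟨h1, h2, h3⟩
      exact ⟨h2 (mem_cp _ _), h1⟩
    · rintro ⟨h1, h2⟩
      refine ⟨h2, cp_le hV hKV h1, ?_⟩
      have h3 : ut C x = K := L.ut_eq_of_cnt hV hc.le h1 hx0
      have h4 : K ⊆ cl C {x} := h3 ▸ (L.ut_spec x).2.2.1
      have h5 : cp C K x = cl C {x} := by
        refine (cp_le (L.cs.cl_mem _) h4 (subset_cl _ (Finset.mem_singleton_self x))).antisymm ?_
        exact cl_le (L.cs.cp_mem _ _) (Finset.singleton_subset_iff.2 (mem_cp _ _))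
      rw [h5]
      exact hno x
  rw [hset, Finset.card_sdiff_of_subset hKV] at n1
  have n2 : K.card ≡ V.card [MOD q] := (Nat.modEq_iff_dvd' (Finset.card_le_card hKV)).2 n1
  have n3 := n2.symm.trans hKq
  rw [hjs] at n3
  unfold Wts.s at n3
  have n4 : T.p * T.d j ≡ 0 [MOD q] := by
    have : T.w + T.p * T.d j ≡ T.w + 0 [MOD q] := by simpa using n3
    exact Nat.ModEq.add_left_cancel' _ this
  have n5 : q ∣ T.p * T.d j := (Nat.modEq_zero_iff_dvd).1 n4
  have hcop : Nat.Coprime q T.p := by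
    rw [hq]
    apply Nat.Coprime.pow_left
    rw [Nat.coprime_two_left, Nat.odd_iff]
    exact T.hpo
  exact T.hd3 j hj (hcop.dvd_of_dvd_mul_left n5)

/-- each unit is the closure of a point -/
theorem unit_gen (x : X) : ∃ y, ut C y = ut C x ∧ ∀ z, z ∈ cl C {y} ↔ ut C z = ut C x := by
  obtain ⟨y, hy, hmax⟩ := Finset.exists_max_image
    (Finset.univ.filter (fun z => ut C z = ut C x)) (fun z => (cl C {z}).card)
    ⟨x, by simp⟩
  have hy' : ut C y = ut C x := (Finset.mem_filter.1 hy).2
  refine ⟨y, hy', fun z => ⟨fun hz => (L.ut_eq hz).trans hy', fun hz => ?_⟩⟩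
  obtain ⟨v, hv⟩ := L.pt_gen (L.cs.cl_mem (C := C) {z, y}) (L.no_branch (hz.trans hy'.symm))
  have hmem := L.mem_pair z y
  have h1 : cl C {y} ⊆ cl C {v} := by
    rw [hv]
    exact cl_le (L.cs.cl_mem _) (Finset.singleton_subset_iff.2 hmem.2)
  have h2 : ut C v = ut C x := by
    rw [← hy']
    exact (L.ut_eq (h1 (subset_cl _ (Finset.mem_singleton_self y)))).symm
  have h3 := hmax v (Finset.mem_filter.2 ⟨Finset.mem_univ _, h2⟩)
  have h4 : cl C {y} = cl C {v} := Finset.eq_of_subset_of_card_le h1 h3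
  rw [h4, hv]
  exact hmem.1

theorem us_size {K : Finset X} (hK : K ∈ L.units) : ∃ j, j ≤ 2 * m ∧ L.us K = T.s j := by
  obtain ⟨x, _, rfl⟩ := Finset.mem_image.1 hK
  obtain ⟨y, _, hy⟩ := L.unit_gen x
  obtain ⟨j, hj, hjs⟩ := L.one_size (L.cs.cl_mem {y}) (L.cnt_pt y)
  refine ⟨j, hj, ?_⟩
  rw [← hjs]
  unfold us
  congr 1
  ext z
  rw [hy z]
  simp

end LS

/-- comparing two index functions -/
theorem perm_eq {m : ℕ} (f g : Fin m → ℕ) (hf : ∀ i, f i ≤ 2 * i + 1)
    (hg : ∀ i, g i = 2 * i ∨ g i = 2 * i + 1)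
    (hmul : (Finset.univ : Finset (Fin m)).val.map f = (Finset.univ : Finset (Fin m)).val.map g) :
    f = g := by
  have hcount : ∀ (P : ℕ → Prop) [DecidablePred P], (Finset.univ.filter (fun i => P (f i))).card =
      (Finset.univ.filter (fun i => P (g i))).card := by
    intro P _
    have h1 := congrArg (Multiset.countP P) hmul
    rw [Multiset.countP_map, Multiset.countP_map] at h1
    simpa [Finset.card, Finset.filter] using h1
  have hset : ∀ t : ℕ, t < m → ∀ i : Fin m, f i ≤ 2 * t + 1 → (i : ℕ) ≤ t := by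
    intro t ht i hi
    have h1 : (Finset.univ.filter (fun i : Fin m => (i : ℕ) ≤ t)) ⊆
        Finset.univ.filter (fun i => f i ≤ 2 * t + 1) := by
      intro l hl
      rw [Finset.mem_filter] at hl ⊢
      have := hf l
      exact ⟨hl.1, by omega⟩
    have h2 : (Finset.univ.filter (fun i => g i ≤ 2 * t + 1)) =
        (Finset.univ.filter (fun i : Fin m => (i : ℕ) ≤ t)) := by
      ext l
      simp only [Finset.mem_filter, Finset.mem_univ, true_and]
      rcases hg l with h | h <;> omega
    have h3 := hcount (fun n => n ≤ 2 * t + 1)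
    rw [h2] at h3
    have h4 := Finset.eq_of_subset_of_card_le h1 h3.le
    have h5 : i ∈ Finset.univ.filter (fun i => f i ≤ 2 * t + 1) :=
      Finset.mem_filter.2 ⟨Finset.mem_univ _, hi⟩
    rw [← h4, Finset.mem_filter] at h5
    exact h5.2
  have hlow : ∀ i : Fin m, 2 * (i : ℕ) ≤ f i := by
    intro i
    by_contra hlt
    push Not at hlt
    have h1 : 1 ≤ (i : ℕ) := by omega
    have h2 := hset (i - 1) (by have := i.2; omega) i (by omega)
    omega
  funext i
  have h1 := hcount (fun n => n = 2 * (i : ℕ) + 1)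
  have h2 : (Finset.univ.filter (fun l => f l = 2 * (i : ℕ) + 1)) =
      if f i = 2 * i + 1 then {i} else ∅ := by
    ext l
    split_ifs with hh
    · simp only [Finset.mem_filter, Finset.mem_univ, true_and, Finset.mem_singleton]
      constructor
      · intro h
        have := hf l
        have := hlow l
        exact Fin.ext (by omega)
      · rintro rfl; exact hh
    · simp only [Finset.mem_filter, Finset.mem_univ, true_and, Finset.notMem_empty, iff_false]
      intro h
      have := hf l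
      have := hlow l
      have : l = i := Fin.ext (by omega)
      rw [this] at h
      exact hh h
  have h3 : (Finset.univ.filter (fun l => g l = 2 * (i : ℕ) + 1)) =
      if g i = 2 * i + 1 then {i} else ∅ := by
    ext l
    split_ifs with hh
    · simp only [Finset.mem_filter, Finset.mem_univ, true_and, Finset.mem_singleton]
      constructor
      · intro h
        have := hg l
        exact Fin.ext (by omega)
      · rintro rfl; exact hh
    · simp only [Finset.mem_filter, Finset.mem_univ, true_and, Finset.notMem_empty, iff_false]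
      intro h
      have := hg l
      have : l = i := Fin.ext (by omega)
      rw [this] at h
      exact hh h
  rw [h2, h3] at h1
  have h4 := hf i
  have h5 := hlow i
  have h6 := hg i
  split_ifs at h1 with hA hB hB
  · omega
  · simp at h1
  · simp at h1
  · omega

end Run7.h695
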