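import Pool.Agent.Run7.h695.Lift3
set_option autoImplicit false
set_option linter.unusedSectionVars false
set_option linter.unusedVariables false

/-! The lifting construction, part 4: the bound. -/

open scoped Classical

namespace Run7.h695

open Finset

variable {m : ℕ} {T : Wts m} {JC : Finset (Fin m) → Prop} {X : Type} [Fintype X]
  {C : Finset X → Prop} {h : Finset X → ℝ} {c0 : ℝ} {L : LS T JC C h c0} {H0 e : Finset X}

theorem Wts.sum_cancel {m : ℕ} (T : Wts m) {ι κ : Type} (I : Finset ι) (I' : Finset κ) (f : ι → ℕ)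
    (g : κ → ℕ) (hc : I.card = I'.card) (h : ∑ i ∈ I, T.s (f i) = ∑ i ∈ I', T.s (g i)) :
    ∑ i ∈ I, T.d (f i) = ∑ i ∈ I', T.d (g i) := by
  rw [T.sum_s, T.sum_s, hc] at h
  have h1 := Nat.add_left_cancel h
  exact Nat.eq_of_mul_eq_mul_left T.ppos h1

namespace Core

variable (K0 : Core L H0 e)
include K0

theorem exists_pts : ∃ Y : Fin m → X, (∀ i, ut C (Y i) ≠ e) ∧
    (∀ i z, z ∈ cl C {Y i} ↔ ut C z = ut C (Y i)) ∧
    (∀ i, (cl C {Y i}).card = T.s (2 * i + 1)) ∧
    (∀ i j, i ≠ j → ut C (Y i) ≠ ut C (Y j)) ∧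
    ∀ x, ut C x ≠ e → ∃ i, ut C x = ut C (Y i) := by
  have hm := L.hm
  have hsz : ∀ K : Finset X, ∃ j, K ∈ L.units → j ≤ 2 * m ∧ L.us K = T.s j := by
    intro K
    by_cases hK : K ∈ L.units
    · obtain ⟨j, hj⟩ := L.us_size hK
      exact ⟨j, fun _ => hj⟩
    · exact ⟨0, fun h => absurd h hK⟩
  choose jf hjf using hsz
  have hpos : 0 < T.p * T.d (2 * m - 1) := Nat.mul_pos T.ppos (T.dpos _)
  have hg := L.g_ge
  have hg3 : 3 * (T.p * T.d (2 * m - 1)) < T.p * T.d (2 * m) := by
    have : 3 * (T.p * T.d (2 * m - 1)) < (4 * m + 4) * (T.p * T.d (2 * m - 1)) :=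
      Nat.mul_lt_mul_of_pos_right (by omega) hpos
    omega
  have hje : jf e = 2 * m := by
    obtain ⟨h1, h2⟩ := hjf e K0.he
    by_contra hne
    have h3 : jf e ≤ 2 * m - 1 := by omega
    have h4 := T.smono.monotone h3
    have h5 := K0.us_e
    rw [h2] at h5
    have h6 : T.s (2 * m - 1) = T.w + T.p * T.d (2 * m - 1) := rfl
    omega
  have huse : L.us e = T.s (2 * m) := by rw [(hjf e K0.he).2, hje]
  have hsum : ∑ K ∈ L.units.erase e, T.s (jf K) = ∑ i : Fin m, T.s (2 * i + 1) := by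
    have h1 := L.units_sum
    rw [← Finset.sum_erase_add _ _ K0.he, huse] at h1
    unfold Wts.kk at h1
    have h2 := Nat.add_right_cancel h1
    rw [← h2]
    refine Finset.sum_congr rfl fun K hK => ?_
    exact ((hjf K (Finset.mem_of_mem_erase hK)).2).symm
  have hcard : (L.units.erase e).card = (Finset.univ : Finset (Fin m)).card := by
    rw [Finset.card_erase_of_mem K0.he, L.units_card, Finset.card_univ, Fintype.card_fin]
    omega
  have hsum2 := T.sum_cancel _ _ jf (fun i : Fin m => 2 * (i : ℕ) + 1) hcard hsum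
  have hmul : (L.units.erase e).val.map jf =
      (Finset.univ : Finset (Fin m)).val.map (fun i : Fin m => 2 * (i : ℕ) + 1) := by
    have c1 : (L.units.erase e).card = m := by
      rw [hcard, Finset.card_univ, Fintype.card_fin]
    refine T.digits m _ _ ?_ ?_ ?_ ?_
    · rw [Multiset.card_map]; exact c1.le
    · rw [Multiset.card_map]
      change (L.units.erase e).card ≤ _
      omega
    · rw [Multiset.card_map]
      change (Finset.univ : Finset (Fin m)).card ≤ _
      rw [Finset.card_univ, Fintype.card_fin]; omega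
    · rw [Multiset.map_map, Multiset.map_map]
      exact hsum2
  have hK : ∀ i : Fin m, ∃ K, K ∈ L.units.erase e ∧ jf K = 2 * i + 1 := by
    intro i
    have h1 : 2 * (i : ℕ) + 1 ∈
        (Finset.univ : Finset (Fin m)).val.map (fun i : Fin m => 2 * (i : ℕ) + 1) :=
      Multiset.mem_map_of_mem _ (Finset.mem_univ i)
    rw [← hmul, Multiset.mem_map] at h1
    obtain ⟨K, hK1, hK2⟩ := h1
    exact ⟨K, hK1, hK2⟩
  choose Kf hKf1 hKf2 using hK
  have hyx : ∀ i, ∃ y, ut C y = Kf i ∧ ∀ z, z ∈ cl C {y} ↔ ut C z = Kf i := by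
    intro i
    obtain ⟨x, _, hx⟩ := Finset.mem_image.1 (Finset.mem_of_mem_erase (hKf1 i))
    obtain ⟨y, hy1, hy2⟩ := L.unit_gen x
    rw [hx] at hy1
    refine ⟨y, hy1, fun z => ?_⟩
    rw [hy2 z, hx]
  choose Y hY1 hY2 using hyx
  have hinj : Function.Injective Kf := by
    intro i j hij
    have h1 := hKf2 i
    rw [hij, hKf2 j] at h1
    exact Fin.ext (by omega)
  refine ⟨Y, fun i => ?_, fun i z => ?_, fun i => ?_, fun i j hij => ?_, fun x hx => ?_⟩
  · rw [hY1]; exact (Finset.mem_erase.1 (hKf1 i)).1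
  · rw [hY1]; exact hY2 i z
  · rw [← hKf2 i, ← (hjf _ (Finset.mem_of_mem_erase (hKf1 i))).2]
    unfold LS.us
    congr 1
    ext z
    rw [hY2 i z]
    simp
  · rw [hY1, hY1]
    exact fun h => hij (hinj h)
  · have h1 : Finset.univ.image Kf = L.units.erase e := by
      apply Finset.eq_of_subset_of_card_le
      · intro K hK
        obtain ⟨i, _, rfl⟩ := Finset.mem_image.1 hK
        exact hKf1 i
      · rw [Finset.card_image_of_injective _ hinj, hcard]
    have h2 : ut C x ∈ Finset.univ.image Kf := by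
      rw [h1, Finset.mem_erase]
      exact ⟨hx, Finset.mem_image_of_mem _ (Finset.mem_univ x)⟩
    obtain ⟨i, _, hi⟩ := Finset.mem_image.1 h2
    exact ⟨i, by rw [hY1, hi]⟩

/-- the index set of a big set -/
theorem index_set {Y : Fin m → X} (hYe : ∀ i, ut C (Y i) ≠ e)
    (hYc : ∀ i z, z ∈ cl C {Y i} ↔ ut C z = ut C (Y i))
    (hYs : ∀ i, (cl C {Y i}).card = T.s (2 * i + 1))
    (hYi : ∀ i j, i ≠ j → ut C (Y i) ≠ ut C (Y j))
    (hYa : ∀ x, ut C x ≠ e → ∃ i, ut C x = ut C (Y i)) {H : Finset X} (hH : C H)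
    (hcH : cnt T H = m) :
    JC (Finset.univ.filter (fun i => Y i ∈ H)) ∧
      (Finset.univ.filter (fun i => Y i ∈ H)) ≠ Finset.univ := by
  have hm := L.hm
  have hcl : ∀ i, C (H ∩ cl C {Y i}) := fun i => L.cs.inter _ _ hH (L.cs.cl_mem _)
  have hne : ∀ i, (H ∩ cl C {Y i}).Nonempty := by
    intro i
    have h1 : ut C (Y i) ∈ H.image (ut C) := by
      rw [K0.im H hH hcH, Finset.mem_erase]
      exact ⟨hYe i, Finset.mem_image_of_mem _ (Finset.mem_univ _)⟩
    obtain ⟨z, hz, hz2⟩ := Finset.mem_image.1 h1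
    exact ⟨z, Finset.mem_inter.2 ⟨hz, (hYc i z).2 hz2⟩⟩
  have hc1 : ∀ i, cnt T (H ∩ cl C {Y i}) = 1 := by
    intro i
    have h1 := L.cnt_pos (hcl i) (hne i)
    have h2 : cnt T (H ∩ cl C {Y i}) ≤ cnt T (cl C {Y i}) := cnt_mono Finset.inter_subset_right
    rw [L.cnt_pt] at h2
    omega
  have hsz : ∀ i, ∃ j, j ≤ 2 * m ∧ (H ∩ cl C {Y i}).card = T.s j := fun i =>
    L.one_size (hcl i) (hc1 i)
  choose f hf1 hf2 using hsz
  have hf3 : ∀ i, f i ≤ 2 * i + 1 := by
    intro i
    have h1 : (H ∩ cl C {Y i}).card ≤ (cl C {Y i}).card :=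
      Finset.card_le_card Finset.inter_subset_right
    rw [hf2, hYs] at h1
    exact T.smono.le_iff_le.1 h1
  have hHc : H.card = ∑ i : Fin m, T.s (f i) := by
    have h1 : H = Finset.univ.biUnion (fun i => H ∩ cl C {Y i}) := by
      ext x
      simp only [Finset.mem_biUnion, Finset.mem_univ, true_and, Finset.mem_inter]
      constructor
      · intro hx
        obtain ⟨i, hi⟩ := hYa x (K0.not_mem_big hH hcH hx)
        exact ⟨i, hx, (hYc i x).2 hi⟩
      · rintro ⟨i, hx, _⟩
        exact hx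
    have h2 : (Finset.univ.biUnion (fun i => H ∩ cl C {Y i})).card =
        ∑ i, (H ∩ cl C {Y i}).card := by
      apply Finset.card_biUnion
      intro i _ j _ hij
      change Disjoint (H ∩ cl C {Y i}) (H ∩ cl C {Y j})
      rw [Finset.disjoint_left]
      intro x hx hx2
      rw [Finset.mem_inter, hYc] at hx hx2
      exact hYi i j hij (hx.2.symm.trans hx2.2)
    rw [← h1] at h2
    rw [h2]
    exact Finset.sum_congr rfl fun i _ => hf2 i
  obtain ⟨A, hA, hAne, hAs⟩ := L.big_size hH hcH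
  rw [hHc] at hAs
  have hsum2 := T.sum_cancel Finset.univ Finset.univ f
    (fun i : Fin m => 2 * (i : ℕ) + if i ∈ A then 1 else 0) rfl hAs
  have hmul : (Finset.univ : Finset (Fin m)).val.map f =
      (Finset.univ : Finset (Fin m)).val.map
        (fun i : Fin m => 2 * (i : ℕ) + if i ∈ A then 1 else 0) := by
    have c1 : (Finset.univ : Finset (Fin m)).card = m := by
      rw [Finset.card_univ, Fintype.card_fin]
    refine T.digits m _ _ ?_ ?_ ?_ ?_
    · rw [Multiset.card_map]; exact c1.le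
    · rw [Multiset.card_map]
      change (Finset.univ : Finset (Fin m)).card ≤ _
      omega
    · rw [Multiset.card_map]
      change (Finset.univ : Finset (Fin m)).card ≤ _
      omega
    · rw [Multiset.map_map, Multiset.map_map]
      exact hsum2
  have hfe := perm_eq f _ hf3 (fun i => by
    by_cases h : i ∈ A
    · right; simp [h]
    · left; simp [h]) hmul
  have hset : Finset.univ.filter (fun i => Y i ∈ H) = A := by
    ext i
    simp only [Finset.mem_filter, Finset.mem_univ, true_and]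
    have h1 : f i = 2 * (i : ℕ) + if i ∈ A then 1 else 0 := congrFun hfe i
    constructor
    · intro h2
      by_contra h3
      rw [if_neg h3] at h1
      have h4 : cl C {Y i} ⊆ H := cl_le hH (Finset.singleton_subset_iff.2 h2)
      have h5 : H ∩ cl C {Y i} = cl C {Y i} := Finset.inter_eq_right.2 h4
      have h6 := hf2 i
      rw [h5, hYs] at h6
      have h7 := T.smono.injective h6
      omega
    · intro h2
      rw [if_pos h2] at h1
      have h6 := hf2 i
      rw [h1, ← hYs i] at h6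
      have h7 : H ∩ cl C {Y i} = cl C {Y i} :=
        Finset.eq_of_subset_of_card_le Finset.inter_subset_right h6.ge
      have h8 : Y i ∈ H ∩ cl C {Y i} := by
        rw [h7]; exact subset_cl _ (Finset.mem_singleton_self _)
      exact (Finset.mem_inter.1 h8).1
  rw [hset]
  exact ⟨hA, hAne⟩

end Core

/-- the entropic hypothesis on the index system -/
def EB (JC : Finset (Fin m) → Prop) (C : Finset X → Prop) (h : Finset X → ℝ) (α : ℝ) : Prop :=
  ∀ (B0 : Finset X) (Y : Fin m → X),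
    (∀ U, C U → B0 ⊆ U → U = Finset.univ ∨ JC (Finset.univ.filter (fun i => Y i ∈ U))) →
    ∀ (i0 : Fin m) (u1 u2 : ℝ), u2 ≤ u1 → h (insert (Y i0) B0) - h B0 ≤ u1 →
      (∀ i, i ≠ i0 → h (insert (Y i) B0) - h B0 ≤ u2) →
      h (B0 ∪ Finset.univ.image Y) - h B0 ≤ α / 2 * (u1 + u2)

theorem LS.bound (L : LS T JC C h c0) {α : ℝ} (hα : 4 ≤ α) (hEB : EB JC C h α) :
    h Finset.univ ≤ (3 - 2 / α) * c0 := by
  have hm := L.hm
  obtain ⟨H0, e, K0⟩ := L.exists_core
  obtain ⟨Y, hYe, hYc, hYs, hYi, hYa⟩ := K0.exists_pts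
  -- the generators of the traces
  have hκ : ∀ i, ∃ κ, cl C {κ} = H0 ∩ cl C {Y i} := by
    intro i
    have hC := L.cs.inter _ _ K0.c (L.cs.cl_mem {Y i})
    have hne : (H0 ∩ cl C {Y i}).Nonempty := by
      have h1 : ut C (Y i) ∈ H0.image (ut C) := by
        rw [K0.im H0 K0.c K0.cn, Finset.mem_erase]
        exact ⟨hYe i, Finset.mem_image_of_mem _ (Finset.mem_univ _)⟩
      obtain ⟨z, hz, hz2⟩ := Finset.mem_image.1 h1
      exact ⟨z, Finset.mem_inter.2 ⟨hz, (hYc i z).2 hz2⟩⟩
    refine L.pt_gen hC ?_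
    have h1 := L.cnt_pos hC hne
    have h2 : cnt T (H0 ∩ cl C {Y i}) ≤ cnt T (cl C {Y i}) := cnt_mono Finset.inter_subset_right
    rw [L.cnt_pt] at h2
    omega
  choose κ hκ using hκ
  have hκm : ∀ i, κ i ∈ cl C {Y i} := fun i => by
    have h1 : κ i ∈ cl C {κ i} := subset_cl _ (Finset.mem_singleton_self _)
    rw [hκ] at h1
    exact (Finset.mem_inter.1 h1).2
  have hκu : ∀ i, ut C (κ i) = ut C (Y i) := fun i => L.ut_eq (hκm i)
  set uu : Fin m → ℝ := fun i => h (insert (Y i) H0) - h H0 with huu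
  have hu : ∀ i, uu i ≤ c0 - h {κ i} := by
    intro i
    have h1 := L.sub H0 (cl C {Y i})
    rw [← hκ] at h1
    have h2 : h (insert (Y i) H0) ≤ h (H0 ∪ cl C {Y i}) := by
      refine L.mono _ _ (Finset.insert_subset ?_ Finset.subset_union_left)
      exact Finset.mem_union_right _ (subset_cl _ (Finset.mem_singleton_self _))
    have h3 := (L.hcl {Y i}).trans (L.one (Y i))
    have h4 : h {κ i} ≤ h (cl C {κ i}) := L.mono _ _ (subset_cl _)
    simp only [huu]
    linarith
  have : Nonempty (Fin m) := ⟨⟨0, by omega⟩⟩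
  obtain ⟨i0, _, hi0⟩ := Finset.exists_max_image (Finset.univ : Finset (Fin m)) uu
    Finset.univ_nonempty
  obtain ⟨i1, hi1m, hi1⟩ := Finset.exists_max_image ((Finset.univ : Finset (Fin m)).erase i0) uu (by
    rw [← Finset.card_pos, Finset.card_erase_of_mem (Finset.mem_univ _), Finset.card_univ,
      Fintype.card_fin]
    omega)
  have hi10 : i1 ≠ i0 := (Finset.mem_erase.1 hi1m).1
  have hH0 : h H0 ≤ 2 * c0 - (uu i0 + uu i1) := by
    have h1 := K0.big_pair (x := κ i0) (y := κ i1) (by rw [hκu]; exact hYe _)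
      (by rw [hκu]; exact hYe _) (by rw [hκu, hκu]; exact hYi _ _ hi10.symm)
    have h2 := L.mono _ _ (K0.mn _ (L.cs.cl_mem _) h1)
    have h3 := L.hcl {κ i0, κ i1}
    have h4 := L.hadd {κ i0} {κ i1}
    have e1 : ({κ i0} ∪ {κ i1} : Finset X) = {κ i0, κ i1} := rfl
    rw [e1] at h4
    linarith [hu i0, hu i1]
  have hx : X := Y i0
  have hU1 := L.huniv K0.c (by rw [K0.cn]; omega) (Y i0)
  have hU2 : h Finset.univ - h H0 ≤ α / 2 * (uu i0 + uu i1) := by
    have h1 := hEB H0 Y (fun U hU hHU => by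
      by_cases hUu : U = Finset.univ
      · exact Or.inl hUu
      · right
        have h2 := L.cnt_univ_ne hU hUu
        have h3 : cnt T H0 ≤ cnt T U := cnt_mono hHU
        rw [K0.cn] at h3
        exact (K0.index_set hYe hYc hYs hYi hYa hU (by omega)).1) i0 (uu i0) (uu i1)
      (hi0 i1 (Finset.mem_univ _)) le_rfl (fun i hi => hi1 i (Finset.mem_erase.2
        ⟨hi, Finset.mem_univ _⟩))
    have h2 : cl C (H0 ∪ Finset.univ.image Y) = Finset.univ := by
      by_contra hne
      have hC := L.cs.cl_mem (H0 ∪ Finset.univ.image Y)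
      have h3 := L.cnt_univ_ne hC hne
      have h4 : cnt T H0 ≤ cnt T (cl C (H0 ∪ Finset.univ.image Y)) :=
        cnt_mono (Finset.subset_union_left.trans (subset_cl _))
      rw [K0.cn] at h4
      refine (K0.index_set hYe hYc hYs hYi hYa hC (by omega)).2 ?_
      rw [Finset.filter_eq_self]
      intro i _
      exact subset_cl _ (Finset.mem_union_right _ (Finset.mem_image_of_mem _ (Finset.mem_univ i)))
    have h3 := L.hcl (H0 ∪ Finset.univ.image Y)
    rw [h2] at h3
    linarith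
  have hc0 := L.c0_nonneg (Y i0)
  set s := uu i0 + uu i1 with hs
  have hα0 : 0 < α := by linarith
  by_cases hcase : α / 2 * s ≤ c0
  · have h1 : h Finset.univ ≤ 2 * c0 + (α / 2 - 1) * s := by linarith
    have h2 : s ≤ 2 * c0 / α := by
      rw [le_div_iff₀ hα0]
      linarith
    have h3 : (α / 2 - 1) * s ≤ (α / 2 - 1) * (2 * c0 / α) :=
      mul_le_mul_of_nonneg_left h2 (by linarith)
    have h4 : (α / 2 - 1) * (2 * c0 / α) = c0 - 2 / α * c0 := by
      field_simp
    linarith
  · push Not at hcase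
    have h2 : 2 / α * c0 ≤ s := by
      rw [div_mul_eq_mul_div, div_le_iff₀ hα0]
      linarith
    linarith

/-- the bound without the assumption of a large value -/
theorem lift_bound (hm : 5 ≤ m) (cs : ClSys X C) (card : Fintype.card X = T.kk)
    (sz : ∀ U, C U → U ≠ Finset.univ → T.Sz JC U.card) (h0 : h ∅ = 0)
    (mono : ∀ S T : Finset X, S ⊆ T → h S ≤ h T)
    (sub : ∀ S T : Finset X, h (S ∪ T) + h (S ∩ T) ≤ h S + h T)
    (hcl : ∀ S, h (cl C S) ≤ h S) (hc0 : 0 ≤ c0) (one : ∀ x, h {x} ≤ c0)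
    {α : ℝ} (hα : 4 ≤ α) (hEB : EB JC C h α) :
    h Finset.univ ≤ (3 - 2 / α) * c0 := by
  by_cases hbig : 5 / 2 * c0 < h Finset.univ
  · exact (LS.mk hm cs card sz h0 mono sub hcl one hbig).bound hα hEB
  · push Not at hbig
    refine hbig.trans (mul_le_mul_of_nonneg_right ?_ hc0)
    have : 2 / α ≤ 1 / 2 := by
      rw [div_le_div_iff₀ (by linarith) (by norm_num)]
      linarith
    linarith

end Run7.h695
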