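import Pool.Agent.Run7.h695.Reduc
set_option autoImplicit false
set_option linter.unusedSectionVars false
set_option linter.unusedVariables false

/-! The upper bound for set families. -/

open scoped Classical

namespace Run7.h695

open Finset

variable {n : ℕ}

/-- many colourings make a given set rainbow -/
theorem rainbow_count {k : ℕ} (A : Finset (Fin n)) (hA : A.card = k) :
    Fintype.card (Fin n → Fin k) ≤ k ^ k *
      (Finset.univ.filter (fun χ : Fin n → Fin k => Set.InjOn χ (A : Set (Fin n)))).card := by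
  have e0 : A ≃ Fin k := A.equivFinOfCardEq hA
  set G : (Fin n → Fin k) → (Fin k → Fin k) × (Fin n → Fin k) := fun χ =>
    (fun c => χ (e0.symm c).1, fun a => if h : a ∈ A then e0 ⟨a, h⟩ else χ a) with hG
  have hmaps : ∀ χ ∈ (Finset.univ : Finset (Fin n → Fin k)), G χ ∈
      (Finset.univ : Finset (Fin k → Fin k)) ×ˢ
      (Finset.univ.filter (fun χ : Fin n → Fin k => Set.InjOn χ (A : Set (Fin n)))) := by
    intro χ _
    rw [Finset.mem_product, Finset.mem_filter]
    refine ⟨Finset.mem_univ _, Finset.mem_univ _, ?_⟩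
    intro a ha b hb hab
    have ha' : a ∈ A := ha
    have hb' : b ∈ A := hb
    simp only [hG, ha', hb', dif_pos] at hab
    exact congrArg Subtype.val (e0.injective hab)
  have hinj : Set.InjOn G ((Finset.univ : Finset (Fin n → Fin k)) : Set (Fin n → Fin k)) := by
    intro χ _ χ' _ h
    funext a
    simp only [hG, Prod.mk.injEq] at h
    by_cases ha : a ∈ A
    · have := congrFun h.1 (e0 ⟨a, ha⟩)
      simpa using this
    · have := congrFun h.2 a
      simpa [ha] using this
  have := Finset.card_le_card_of_injOn G hmaps hinj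
  rw [Finset.card_product, Finset.card_univ, Finset.card_univ] at this
  rw [Fintype.card_fun, Fintype.card_fin] at this
  simpa using this

theorem exists_rainbow {k : ℕ} (hk : 0 < k) (F : Finset (Finset (Fin n)))
    (hF : ∀ A ∈ F, A.card = k) :
    ∃ χ : Fin n → Fin k, F.card ≤ k ^ k *
      (F.filter (fun A : Finset (Fin n) => Set.InjOn χ (A : Set (Fin n)))).card := by
  by_contra hno
  push Not at hno
  have hne : Nonempty (Fin n → Fin k) := ⟨fun _ => ⟨0, hk⟩⟩
  have h1 : ∑ χ : Fin n → Fin k, k ^ k * (F.filter (fun A : Finset (Fin n) => Set.InjOn χ (A : Set (Fin n)))).card <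
      ∑ χ : Fin n → Fin k, F.card :=
    Finset.sum_lt_sum_of_nonempty (Finset.univ_nonempty (α := Fin n → Fin k)) fun χ _ => hno χ
  rw [← Finset.mul_sum, Finset.sum_const, Finset.card_univ, smul_eq_mul] at h1
  have h2 : ∑ χ : Fin n → Fin k, (F.filter (fun A : Finset (Fin n) => Set.InjOn χ (A : Set (Fin n)))).card =
      ∑ A ∈ F, (Finset.univ.filter
        (fun χ : Fin n → Fin k => Set.InjOn χ (A : Set (Fin n)))).card := by
    simp only [Finset.card_filter]
    exact Finset.sum_comm
  rw [h2, Finset.mul_sum] at h1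
  have h3 : ∑ A ∈ F, Fintype.card (Fin n → Fin k) ≤ ∑ A ∈ F, k ^ k * (Finset.univ.filter
        (fun χ : Fin n → Fin k => Set.InjOn χ (A : Set (Fin n)))).card :=
    Finset.sum_le_sum fun A hA => rainbow_count A (hF A hA)
  rw [Finset.sum_const, smul_eq_mul] at h3
  rw [mul_comm] at h3
  omega

/-- the words of a rainbow family -/
theorem rainbow_words {k : ℕ} (χ : Fin n → Fin k) (A : Finset (Fin n)) (hA : A.card = k)
    (hχ : Set.InjOn χ (A : Set (Fin n))) : ∃ x : Fin k → Fin n, (∀ c, x c ∈ A ∧ χ (x c) = c) ∧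
      (∀ a ∈ A, x (χ a) = a) := by
  have h1 : A.image χ = Finset.univ := by
    apply Finset.eq_univ_of_card
    rw [Finset.card_image_of_injOn hχ, hA, Fintype.card_fin]
  have h2 : ∀ c : Fin k, ∃ a, a ∈ A ∧ χ a = c := by
    intro c
    have : c ∈ A.image χ := by rw [h1]; exact Finset.mem_univ c
    simpa using this
  choose x hx using h2
  exact ⟨x, hx, fun a ha => hχ (hx _).1 ha (hx _).2⟩

/-- the golden ratio conjugate -/
noncomputable def rho : ℝ := (Real.sqrt 5 - 1) / 2

theorem rho_sq : rho * rho = 1 - rho := by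
  unfold rho
  have h : Real.sqrt 5 * Real.sqrt 5 = 5 := Real.mul_self_sqrt (by norm_num)
  nlinarith

theorem rho_lo : 0.618 ≤ rho := by
  unfold rho
  have h : (2.236 : ℝ) ≤ Real.sqrt 5 := by
    rw [Real.le_sqrt (by norm_num) (by norm_num)]
    norm_num
  linarith

theorem rho_hi : rho ≤ 0.6181 := by
  unfold rho
  have h : Real.sqrt 5 ≤ 2.2362 := by
    rw [Real.sqrt_le_left (by norm_num)]
    norm_num
  linarith

theorem upper_bound {M m : ℕ} (hM : 33 ≤ M) (hm : 5 ≤ m) (T : Wts m) (e : JI M ≃ Fin m)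
    (F : Finset (Finset (Fin n))) (hF : ∀ A ∈ F, A.card = T.kk)
    (hL : ∀ A ∈ F, ∀ B ∈ F, A ≠ B → T.Sz (JCF M e) (A ∩ B).card) :
    (F.card : ℝ) ≤ (T.kk ^ T.kk * (2 * ((T.kk + 1) * T.kk)) ^ (2 ^ T.kk) : ℕ) *
      (n : ℝ) ^ (3 - 2 / al M rho) := by
  have hk : 0 < T.kk := by
    have := T.kk_div
    by_contra h0
    have h0' : T.kk = 0 := by omega
    rw [h0'] at this
    simp at this
  by_cases hFe : F = ∅
  · rw [hFe]
    simp only [Finset.card_empty, Nat.cast_zero]
    positivity
  obtain ⟨A0, hA0⟩ := Finset.nonempty_iff_ne_empty.2 hFe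
  have hn : 0 < n := by
    by_contra h0
    have h1 : n = 0 := by omega
    subst h1
    have h2 := hF A0 hA0
    have h3 : A0 = ∅ := Finset.eq_empty_of_isEmpty A0
    rw [h3, Finset.card_empty] at h2
    omega
  obtain ⟨χ, hχ⟩ := exists_rainbow hk F hF
  set F' := F.filter (fun A : Finset (Fin n) => Set.InjOn χ (A : Set (Fin n))) with hF'
  have hw : ∀ A : Finset (Fin n), ∃ x : Fin T.kk → Fin n, A ∈ F' → (∀ c, x c ∈ A ∧ χ (x c) = c) ∧
      (∀ a ∈ A, x (χ a) = a) := by
    intro A
    by_cases hA : A ∈ F'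
    · have hA' := hA
      rw [hF', Finset.mem_filter] at hA'
      obtain ⟨x, hx⟩ := rainbow_words χ A (hF A hA'.1) hA'.2
      exact ⟨x, fun _ => hx⟩
    · exact ⟨fun _ => ⟨0, hn⟩, fun h => absurd h hA⟩
  choose x hx using hw
  have hinj : Set.InjOn x (F' : Set (Finset (Fin n))) := by
    intro A hA B hB hAB
    ext a
    constructor
    · intro ha
      have h1 := (hx A hA).2 a ha
      rw [hAB] at h1
      rw [← h1]
      exact ((hx B hB).1 _).1
    · intro ha
      have h1 := (hx B hB).2 a ha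
      rw [← hAB] at h1
      rw [← h1]
      exact ((hx A hA).1 _).1
  have hagr : ∀ A ∈ F', ∀ B ∈ F', (agr (x A) (x B)).card = (A ∩ B).card := by
    intro A hA B hB
    have h1 : (agr (x A) (x B)).image (x A) = A ∩ B := by
      ext a
      rw [Finset.mem_image, Finset.mem_inter]
      constructor
      · rintro ⟨c, hc, rfl⟩
        refine ⟨((hx A hA).1 c).1, ?_⟩
        rw [mem_agr.1 hc]
        exact ((hx B hB).1 c).1
      · rintro ⟨ha, hb⟩
        refine ⟨χ a, ?_, (hx A hA).2 a ha⟩
        rw [mem_agr, (hx A hA).2 a ha, (hx B hB).2 a hb]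
    rw [← h1]
    symm
    apply Finset.card_image_of_injective
    intro c c' hcc
    rw [← ((hx A hA).1 c).2, ← ((hx A hA).1 c').2, hcc]
  set D := F'.image x with hD
  have hDc : D.card = F'.card := Finset.card_image_of_injOn hinj
  by_cases hF'e : F' = ∅
  · rw [hF'e, Finset.card_empty, mul_zero] at hχ
    have : F.card = 0 := by omega
    rw [this]
    simp only [Nat.cast_zero]
    positivity
  have hDsz : ∀ y ∈ D, ∀ z ∈ D, y ≠ z → T.Sz (JCF M e) (agr y z).card := by
    intro y hy z hz hyz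
    rw [hD, Finset.mem_image] at hy hz
    obtain ⟨A, hA, rfl⟩ := hy
    obtain ⟨B, hB, rfl⟩ := hz
    rw [hagr A hA B hB]
    exact hL A (Finset.mem_filter.1 hA).1 B (Finset.mem_filter.1 hB).1 fun h => hyz (by rw [h])
  obtain ⟨D', hD'1, hD'2, hD'3⟩ := red_iter (X := Fin T.kk) (by rw [Fintype.card_fin]; exact hk)
    (2 ^ T.kk) D (by
      refine (Finset.card_le_univ _).trans ?_
      rw [Fintype.card_finset, Fintype.card_fin])
  rw [Fintype.card_fin] at hD'2
  have hDpos : 0 < D.card := by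
    rw [hDc]
    exact Finset.card_pos.2 (Finset.nonempty_iff_ne_empty.2 hF'e)
  have hD'ne : D'.Nonempty := by
    rw [← Finset.card_pos]
    by_contra h0
    have : D'.card = 0 := by omega
    rw [this, mul_zero] at hD'2
    omega
  have hb := code_bound (X := Fin T.kk) hM hm T e rho_sq rho_lo rho_hi (Fintype.card_fin _) D'
    hD'ne (agC_inter hD'3)
    (fun y hy z hz hyz => hDsz y (hD'1 hy) z (hD'1 hz) hyz)
  have hcnt : F.card ≤ (T.kk ^ T.kk * (2 * ((T.kk + 1) * T.kk)) ^ (2 ^ T.kk)) * D'.card := by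
    rw [← hDc] at hχ
    refine hχ.trans ?_
    rw [mul_assoc]
    exact Nat.mul_le_mul_left _ hD'2
  calc (F.card : ℝ) ≤ ((T.kk ^ T.kk * (2 * ((T.kk + 1) * T.kk)) ^ (2 ^ T.kk)) * D'.card : ℕ) := by
        exact_mod_cast hcnt
    _ = (T.kk ^ T.kk * (2 * ((T.kk + 1) * T.kk)) ^ (2 ^ T.kk) : ℕ) * (D'.card : ℝ) := by
        push_cast; ring
    _ ≤ _ := mul_le_mul_of_nonneg_left hb (by positivity)

end Run7.h695
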