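import Pool.Agent.Run7.h695.Fam
import Pool.Agent.Run7.h695.Upper
set_option autoImplicit false
set_option linter.unusedSectionVars false
set_option linter.unusedVariables false

/-! The lower bound for set families. -/

open scoped Classical

namespace Run7.h695

/-- the rounded geometric sequence -/
noncomputable def gs (D : ℕ) (m : ℕ) : ℕ := ⌊rho ^ m * D⌋₊

theorem rho_pos : 0 < rho := by linarith [rho_lo]

theorem gs_zero (D : ℕ) : gs D 0 = D := by
  unfold gs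
  rw [pow_zero, one_mul, Nat.floor_natCast]

theorem gs_rec (D m : ℕ) : rho ^ m * D = rho ^ (m + 1) * D + rho ^ (m + 2) * D := by
  have h := rho_sq
  have e : rho ^ (m + 1) * D + rho ^ (m + 2) * D = rho ^ m * D * (rho + rho * rho) := by ring
  rw [e, h]
  ring

theorem gs_FS (D : ℕ) : FS (gs D) := by
  have hp := rho_pos
  refine ⟨fun m => ?_, fun m => ?_, ?_⟩
  · unfold gs
    apply Nat.le_floor
    push_cast
    rw [gs_rec D m]
    exact add_le_add (Nat.floor_le (by positivity)) (Nat.floor_le (by positivity))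
  · unfold gs
    have h1 : rho ^ m * D < (⌊rho ^ (m + 1) * (D : ℝ)⌋₊ + ⌊rho ^ (m + 2) * (D : ℝ)⌋₊ + 2 : ℕ) := by
      push_cast
      rw [gs_rec D m]
      have a1 := Nat.lt_floor_add_one (rho ^ (m + 1) * (D : ℝ))
      have a2 := Nat.lt_floor_add_one (rho ^ (m + 2) * (D : ℝ))
      linarith
    have h2 := (Nat.floor_lt (by positivity)).2 h1
    omega
  · have h1 : Filter.Tendsto (fun m : ℕ => rho ^ m * (D : ℝ)) Filter.atTop (nhds (0 * D)) :=
      (tendsto_pow_atTop_nhds_zero_of_lt_one hp.le (by linarith [rho_hi])).mul_const _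
    rw [zero_mul] at h1
    obtain ⟨m, hm⟩ := ((h1.eventually (gt_mem_nhds (show (0 : ℝ) < 1 by norm_num))).and
      (Filter.eventually_ge_atTop 2)).exists
    refine ⟨m - 2, ?_⟩
    have e : m - 2 + 2 = m := by omega
    rw [e]
    unfold gs
    have : ⌊rho ^ m * (D : ℝ)⌋₊ < 1 := (Nat.floor_lt (by positivity)).2 (by simpa using hm.1)
    omega

theorem gs_cut {D : ℕ} (hD : 20 ≤ D) : 2 ≤ cutH (gs D) := by
  have hS := gs_FS D
  by_contra hlt
  push Not at hlt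
  have h1 := hS.cut_spec
  have h2 : gs D 3 ≤ gs D (cutH (gs D) + 2) := hS.anti (by omega)
  have h3 : 3 ≤ gs D 3 := by
    unfold gs
    apply Nat.le_floor
    have a1 := rho_lo
    have a2 : (20 : ℝ) ≤ D := by exact_mod_cast hD
    have a3 : (0.236 : ℝ) ≤ rho ^ 3 := by
      calc (0.236 : ℝ) ≤ 0.618 ^ 3 := by norm_num
        _ ≤ rho ^ 3 := pow_le_pow_left₀ (by norm_num) a1 3
    push_cast
    nlinarith
  omega

/-- the code for the index system -/
theorem exists_jcode (Mc D : ℕ) (hD : 20 ≤ D) : ∃ C : Finset (JI Mc → Fin (2 ^ (D + 1))),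
    (2 : ℝ) ^ (al Mc rho * D - 66 * Mc) ≤ C.card ∧ ∀ x ∈ C, ∀ y ∈ C, JCl Mc (fun i => x i = y i) := by
  have hcode := (gs_FS D).code (gs_cut hD) Mc
  rw [gs_zero] at hcode
  obtain ⟨C, hC1, hC2⟩ := hcode
  have key : (2 : ℝ) ^ (al Mc rho * D - 66 * Mc) ≤ C.card := by
    have h1 : ((2 ^ ((3 * D - 33) * (Mc * 2) + (D - gs D 1)) : ℕ) : ℝ) ≤ C.card := by
      exact_mod_cast hC1
    refine le_trans ?_ h1
    push_cast
    rw [← Real.rpow_natCast]
    apply Real.rpow_le_rpow_of_exponent_le (by norm_num)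
    have h2 : gs D 1 ≤ D := by
      have := (gs_FS D).anti (show 0 ≤ 1 by omega)
      rwa [gs_zero] at this
    have h3 : (gs D 1 : ℝ) ≤ rho * D := by
      unfold gs
      have := Nat.floor_le (show 0 ≤ rho ^ 1 * (D : ℝ) by have := rho_pos; positivity)
      simpa using this
    push_cast [Nat.cast_sub h2, Nat.cast_sub (show 33 ≤ 3 * D by omega)]
    unfold al
    nlinarith
  exact ⟨C, key, hC2⟩

theorem lower_bound {Mc m : ℕ} (hMc : 1 ≤ Mc) (hm : 2 ≤ m) (T : Wts m) (e : JI Mc ≃ Fin m) :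
    ∃ c : ℝ, 0 < c ∧ ∃ N : ℕ, ∀ n : ℕ, N ≤ n → ∃ F : Finset (Finset (Fin n)),
      (∀ A ∈ F, A.card = T.kk) ∧
      (∀ A ∈ F, ∀ B ∈ F, A ≠ B → T.Sz (JCF Mc e) (A ∩ B).card) ∧
      c * (n : ℝ) ^ (3 - 2 / al Mc rho) ≤ (F.card : ℝ) := by
  set α := al Mc rho with hα
  have hMcR : (1 : ℝ) ≤ Mc := by exact_mod_cast hMc
  have hα6 : 6 ≤ α := by
    rw [hα]; unfold al; linarith [rho_hi]
  have hα0 : 0 < α := by linarith
  set β := 3 - 2 / α with hβ
  have h2α : 2 / α ≤ 1 / 3 := by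
    rw [div_le_div_iff₀ hα0 (by norm_num)]; linarith
  have hβ0 : 0 < β := by rw [hβ]; linarith
  set κ : ℝ := (2 : ℝ) ^ (-(α + 66 * Mc)) with hκ
  have hκ0 : 0 < κ := Real.rpow_pos_of_pos (by norm_num) _
  have hk0 : 0 < T.kk := by
    have := T.kk_div
    by_contra h0
    have h0' : T.kk = 0 := by omega
    rw [h0'] at this
    simp at this
  have hkR : (0 : ℝ) < T.kk := by exact_mod_cast hk0
  obtain ⟨N1, hN1⟩ := exists_nat_ge ((2 : ℝ) ^ (20 * α))
  refine ⟨κ / 16 * (1 / (2 * T.kk)) ^ β, by positivity,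
    T.kk * (N1 + 16 * m ^ 2 + 2), fun n hn => ?_⟩
  set n' := n / T.kk with hn'
  have hn'1 : N1 + 16 * m ^ 2 + 2 ≤ n' := by
    rw [hn', Nat.le_div_iff_mul_le hk0, mul_comm]
    exact hn
  have hn'pos : (0 : ℝ) < n' := by
    have : 0 < n' := by omega
    exact_mod_cast this
  have hn'R : (2 : ℝ) ^ (20 * α) ≤ n' := by
    refine hN1.trans ?_
    exact_mod_cast (by omega : N1 ≤ n')
  set D := ⌊Real.logb 2 n' / α⌋₊ with hD
  have hlog0 : 20 * α ≤ Real.logb 2 n' := by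
    rw [Real.le_logb_iff_rpow_le (by norm_num) hn'pos]
    exact hn'R
  have hD20 : 20 ≤ D := by
    rw [hD]
    apply Nat.le_floor
    rw [le_div_iff₀ hα0]
    exact_mod_cast hlog0
  have hD1 : (2 : ℝ) ^ (α * D) ≤ n' := by
    rw [← Real.le_logb_iff_rpow_le (by norm_num) hn'pos]
    have h1 : (D : ℝ) ≤ Real.logb 2 n' / α := Nat.floor_le (by
      apply div_nonneg _ hα0.le
      linarith)
    rw [le_div_iff₀ hα0] at h1
    linarith
  have hD2 : (n' : ℝ) ≤ (2 : ℝ) ^ (α * (D + 1)) := by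
    rw [← Real.logb_le_iff_le_rpow (by norm_num) hn'pos]
    have h1 : Real.logb 2 n' / α < D + 1 := Nat.lt_floor_add_one _
    rw [div_lt_iff₀ hα0] at h1
    linarith
  have h2D : (2 : ℝ) ^ D ≤ (n' : ℝ) ^ (1 / α) := by
    have h1 := Real.rpow_le_rpow (by positivity) hD1 (show 0 ≤ 1 / α by positivity)
    rw [← Real.rpow_mul (by norm_num)] at h1
    have e1 : α * D * (1 / α) = D := by field_simp
    rw [e1, Real.rpow_natCast] at h1
    exact h1
  obtain ⟨C0, hC0, hC0cl⟩ := exists_jcode Mc D hD20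
  -- truncate the code
  obtain ⟨Cj, hCj1, hCj2⟩ := Finset.exists_subset_card_eq (s := C0) (n := min C0.card n')
    (min_le_left _ _)
  have hCjR : κ * n' ≤ (Cj.card : ℝ) := by
    rw [hCj2]
    push_cast
    have h1 : κ * n' ≤ (2 : ℝ) ^ (α * D - 66 * Mc) := by
      calc κ * n' ≤ κ * (2 : ℝ) ^ (α * (D + 1)) := mul_le_mul_of_nonneg_left hD2 hκ0.le
        _ = (2 : ℝ) ^ (α * D - 66 * Mc) := by
            rw [hκ, ← Real.rpow_add (by norm_num)]
            congr 1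
            ring
    apply le_min
    · exact h1.trans hC0
    · refine h1.trans (le_trans ?_ hD1)
      apply Real.rpow_le_rpow_of_exponent_le (by norm_num)
      have : (0 : ℝ) ≤ 66 * Mc := by positivity
      linarith
  -- the prime
  set x := n' / 2 ^ (D + 1) with hx
  have h2Dpos : (0 : ℝ) < 2 ^ D := by positivity
  have hsqrt : (n' : ℝ) ^ (1 / α) ≤ Real.sqrt n' := by
    rw [Real.sqrt_eq_rpow]
    apply Real.rpow_le_rpow_of_exponent_le
    · exact_mod_cast (by omega : 1 ≤ n')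
    · rw [div_le_div_iff₀ hα0 (by norm_num)]; linarith
  have hxbig : 4 * m + 2 ≤ 2 * (x + 1) := by
    -- x + 1 > n' / 2^(D+1) ≥ sqrt n' / 2 ≥ 2 m
    have h1 : n' < (x + 1) * 2 ^ (D + 1) := by
      rw [hx]
      have := Nat.lt_succ_self (n' / 2 ^ (D + 1))
      exact (Nat.div_lt_iff_lt_mul (by positivity)).1 this
    have h2 : (n' : ℝ) < (x + 1) * 2 ^ (D + 1) := by exact_mod_cast h1
    have h3 : (2 : ℝ) ^ (D + 1) ≤ 2 * Real.sqrt n' := by
      rw [pow_succ]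
      linarith [h2D.trans hsqrt]
    have h4 : Real.sqrt n' * Real.sqrt n' = n' := Real.mul_self_sqrt hn'pos.le
    have h5 : 0 < Real.sqrt n' := Real.sqrt_pos.2 hn'pos
    have h6 : Real.sqrt n' * Real.sqrt n' < (x + 1) * (2 * Real.sqrt n') := by
      rw [h4]
      refine h2.trans_le (mul_le_mul_of_nonneg_left h3 (by positivity))
    have h7 : Real.sqrt n' < 2 * (x + 1) := by
      by_contra hc
      push Not at hc
      have := mul_le_mul_of_nonneg_right hc h5.le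
      nlinarith
    have h8 : (4 * m : ℝ) ≤ Real.sqrt n' := by
      apply Real.le_sqrt_of_sq_le
      have : 16 * m ^ 2 ≤ n' := by omega
      have h9 : ((16 * m ^ 2 : ℕ) : ℝ) ≤ n' := by exact_mod_cast this
      push_cast at h9
      nlinarith
    have h9 : (4 * m : ℝ) < 2 * (x + 1) := h8.trans_lt h7
    have h10 : 4 * m < 2 * (x + 1) := by exact_mod_cast h9
    omega
  have hx2 : x / 2 ≠ 0 := by omega
  obtain ⟨q, hq, hq1, hq2⟩ := Nat.exists_prime_lt_and_le_two_mul (x / 2) hx2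
  have hqx : q ≤ x := by omega
  have hqm : m ≤ q := by omega
  have hqn : q * 2 ^ (D + 1) ≤ n' :=
    (Nat.mul_le_mul_right _ hqx).trans (Nat.div_mul_le_self _ _)
  obtain ⟨F, hF1, hF2, hF3⟩ := lift_code (n := n) hm T e hq hqm Cj
    (fun a ha b hb => hC0cl a (hCj1 ha) b (hCj1 hb)) (Nat.one_le_two_pow) hqn
    (by rw [hCj2]; exact min_le_right _ _) (by rw [hn']; exact Nat.mul_div_le n T.kk)
  refine ⟨F, hF2, hF3, ?_⟩
  rw [hF1]
  -- numerical estimate
  have hqR : (n' : ℝ) ≤ 4 * 2 ^ D * q := by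
    have h1 : n' < (x + 1) * 2 ^ (D + 1) := by
      rw [hx]
      have := Nat.lt_succ_self (n' / 2 ^ (D + 1))
      exact (Nat.div_lt_iff_lt_mul (by positivity)).1 this
    have h2 : x + 1 ≤ 2 * q := by omega
    have h3 : n' ≤ 2 * q * 2 ^ (D + 1) := h1.le.trans (Nat.mul_le_mul_right _ h2)
    have h4 : (n' : ℝ) ≤ 2 * q * 2 ^ (D + 1) := by exact_mod_cast h3
    rw [pow_succ] at h4
    linarith
  have hqR2 : (n' : ℝ) ^ 2 ≤ 16 * (n' : ℝ) ^ (2 / α) * (q * q) := by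
    have h1 : (n' : ℝ) ^ 2 ≤ (4 * 2 ^ D * q) ^ 2 := pow_le_pow_left₀ hn'pos.le hqR 2
    have h2 : ((2 : ℝ) ^ D) ^ 2 ≤ (n' : ℝ) ^ (2 / α) := by
      have h3 := pow_le_pow_left₀ h2Dpos.le h2D 2
      rw [← Real.rpow_natCast ((n' : ℝ) ^ (1 / α)) 2, ← Real.rpow_mul hn'pos.le] at h3
      have e1 : 1 / α * ((2 : ℕ) : ℝ) = 2 / α := by push_cast; ring
      rwa [e1] at h3
    calc (n' : ℝ) ^ 2 ≤ (4 * 2 ^ D * q) ^ 2 := h1
      _ = 16 * ((2 : ℝ) ^ D) ^ 2 * (q * q) := by ring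
      _ ≤ _ := by gcongr
  have hpow : (n' : ℝ) ^ β * (n' : ℝ) ^ (2 / α) = (n' : ℝ) ^ 2 * n' := by
    rw [← Real.rpow_add hn'pos]
    have e1 : β + 2 / α = (3 : ℕ) := by rw [hβ]; push_cast; ring
    rw [e1, Real.rpow_natCast]
    ring
  have hn'β : (1 / (2 * T.kk)) ^ β * (n : ℝ) ^ β ≤ (n' : ℝ) ^ β := by
    rw [← Real.mul_rpow (by positivity) (by positivity)]
    apply Real.rpow_le_rpow (by positivity) _ hβ0.le
    have h1 : n < (n' + 1) * T.kk := by
      rw [hn']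
      have := Nat.lt_succ_self (n / T.kk)
      exact (Nat.div_lt_iff_lt_mul hk0).1 this
    have h2 : n ≤ 2 * n' * T.kk := h1.le.trans (Nat.mul_le_mul_right _ (by omega))
    have h3 : (n : ℝ) ≤ 2 * n' * T.kk := by exact_mod_cast h2
    rw [one_div, inv_mul_le_iff₀ (by positivity)]
    linarith
  have hP0 : 0 < (n' : ℝ) ^ (2 / α) := Real.rpow_pos_of_pos hn'pos _
  have hmain : κ / 16 * (n' : ℝ) ^ β ≤ (q * q : ℝ) * Cj.card := by
    have h1 : κ / 16 * (n' : ℝ) ^ β * (n' : ℝ) ^ (2 / α) ≤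
        ((q * q : ℝ) * Cj.card) * (n' : ℝ) ^ (2 / α) := by
      calc κ / 16 * (n' : ℝ) ^ β * (n' : ℝ) ^ (2 / α)
          = κ / 16 * ((n' : ℝ) ^ β * (n' : ℝ) ^ (2 / α)) := by ring
        _ = κ / 16 * ((n' : ℝ) ^ 2 * n') := by rw [hpow]
        _ = (n' : ℝ) ^ 2 * (κ * n') / 16 := by ring
        _ ≤ (16 * (n' : ℝ) ^ (2 / α) * (q * q)) * (κ * n') / 16 := by gcongr
        _ = (n' : ℝ) ^ (2 / α) * (q * q) * (κ * n') := by ring
        _ ≤ (n' : ℝ) ^ (2 / α) * (q * q) * Cj.card := by gcongr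
        _ = _ := by ring
    exact le_of_mul_le_mul_right h1 hP0
  calc κ / 16 * (1 / (2 * T.kk)) ^ β * (n : ℝ) ^ β
      = κ / 16 * ((1 / (2 * T.kk)) ^ β * (n : ℝ) ^ β) := by ring
    _ ≤ κ / 16 * (n' : ℝ) ^ β := by gcongr
    _ ≤ (q * q : ℝ) * Cj.card := hmain
    _ = ((q * q * Cj.card : ℕ) : ℝ) := by push_cast; ring

end Run7.h695
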