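import Pool.Agent.Run7.h695.LowerB
set_option autoImplicit false
set_option linter.unusedSectionVars false
set_option linter.unusedVariables false

/-! The two-sided bound with an irrational exponent. -/

open scoped Classical

namespace Run7.h695

theorem card_JI : Fintype.card (JI 33) = 1519 := by
  have h : Fintype.card Co1 = 45 := by decide
  rw [Fintype.card_sum, Fintype.card_prod, Fintype.card_fin, Fintype.card_option, Fintype.card_fin,
    h]

/-- the exponent -/
noncomputable def expo : ℝ := 3 - 2 / al 33 rho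

theorem expo_eq : expo = 3 - 4 / (399 - Real.sqrt 5) := by
  unfold expo al rho
  have h : Real.sqrt 5 ≤ 2.2362 := by
    rw [Real.sqrt_le_left (by norm_num)]
    norm_num
  have h1 : (399 : ℝ) - Real.sqrt 5 ≠ 0 := by
    intro h0
    linarith
  have h2 : ((6 : ℝ) * (33 : ℕ) + (1 - (Real.sqrt 5 - 1) / 2)) = (399 - Real.sqrt 5) / 2 := by
    push_cast; ring
  rw [h2]
  field_simp
  ring

theorem expo_irr : Irrational expo := by
  rw [expo_eq]
  rintro ⟨q, hq⟩
  have h : Real.sqrt 5 ≤ 2.2362 := by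
    rw [Real.sqrt_le_left (by norm_num)]
    norm_num
  have h1 : (0 : ℝ) < 399 - Real.sqrt 5 := by linarith
  have h2 : (3 : ℝ) - q = 4 / (399 - Real.sqrt 5) := by rw [hq]; ring
  have h3 : (0 : ℝ) < 4 / (399 - Real.sqrt 5) := by positivity
  have h4 : (4 : ℝ) / (3 - q) = 399 - Real.sqrt 5 := by
    rw [h2]
    field_simp
  have hirr : Irrational (Real.sqrt 5) := by
    have := Nat.Prime.irrational_sqrt (p := 5) (by norm_num)
    exact_mod_cast this
  apply hirr
  refine ⟨399 - 4 / (3 - q), ?_⟩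
  push_cast
  rw [h4]
  ring

theorem main_result :
    ∃ α : ℝ, Irrational α ∧ ∃ k : ℕ, ∃ L : Finset ℕ, ∃ c C : ℝ, 0 < c ∧ 0 < C ∧
      ∃ N : ℕ, ∀ n : ℕ, N ≤ n →
        (∀ F : Finset (Finset (Fin n)),
            (∀ A ∈ F, A.card = k) →
            (∀ A ∈ F, ∀ B ∈ F, A ≠ B → (A ∩ B).card ∈ L) →
            (F.card : ℝ) ≤ C * (n : ℝ) ^ α) ∧
        (∃ F : Finset (Finset (Fin n)),
            (∀ A ∈ F, A.card = k) ∧
            (∀ A ∈ F, ∀ B ∈ F, A ≠ B → (A ∩ B).card ∈ L) ∧
            c * (n : ℝ) ^ α ≤ (F.card : ℝ)) := by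
  set T : Wts 1519 := mkWts 1519 with hT
  have e : JI 33 ≃ Fin 1519 := Fintype.equivFinOfCardEq card_JI
  obtain ⟨c, hc, N, hN⟩ := lower_bound (Mc := 33) (by norm_num) (by norm_num) T e
  have hk0 : 0 < T.kk := by
    have := T.kk_div
    by_contra h0
    have h0' : T.kk = 0 := Nat.eq_zero_of_not_pos h0
    rw [h0'] at this
    simp at this
  refine ⟨expo, expo_irr, T.kk, (Finset.range T.kk).filter (fun s => T.Sz (JCF 33 e) s), c,
    (T.kk ^ T.kk * (2 * ((T.kk + 1) * T.kk)) ^ (2 ^ T.kk) : ℕ), hc, ?_, N, fun n hn => ⟨?_, ?_⟩⟩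
  · have : 0 < T.kk ^ T.kk * (2 * ((T.kk + 1) * T.kk)) ^ (2 ^ T.kk) := by positivity
    exact_mod_cast this
  · intro F hF hFL
    have hL : ∀ A ∈ F, ∀ B ∈ F, A ≠ B → T.Sz (JCF 33 e) (A ∩ B).card := fun A hA B hB hAB =>
      (Finset.mem_filter.1 (hFL A hA B hB hAB)).2
    have h := upper_bound (M := 33) (m := 1519) le_rfl (by norm_num) T e F hF (by
      intro A hA B hB hAB
      convert hL A hA B hB hAB)
    exact h
  · obtain ⟨F, hF1, hF2, hF3⟩ := hN n hn
    refine ⟨F, hF1, ?_, hF3⟩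
    intro A hA B hB hAB
    rw [Finset.mem_filter, Finset.mem_range]
    have h2 : T.Sz (JCF 33 e) (A ∩ B).card := by
      convert hF2 A hA B hB hAB
    refine ⟨?_, h2⟩
    have h3 : (A ∩ B).card ≤ A.card := Finset.card_le_card Finset.inter_subset_left
    rcases Nat.lt_or_eq_of_le h3 with h4 | h4
    · rw [hF1 A hA] at h4
      exact h4
    · exfalso
      apply hAB
      have h5 : A ∩ B = A := Finset.eq_of_subset_of_card_le Finset.inter_subset_left h4.ge
      have h6 : A ⊆ B := Finset.inter_eq_left.1 h5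
      exact Finset.eq_of_subset_of_card_le h6 (by rw [hF1 A hA, hF1 B hB])

end Run7.h695
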