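import Pool.Agent.Run7.h695.EntBound
set_option autoImplicit false
set_option linter.unusedSectionVars false
set_option linter.unusedVariables false

/-! Codes for the index system from modules with an operator. -/

open scoped Classical

namespace Run7.h695

open Nd Co1

variable {M : Type} [AddCommGroup M]

/-- a group with an operator and an almost invariant correspondence -/
structure Mdl (M : Type) [AddCommGroup M] where
  y : M →+ M
  P : AddSubgroup (M × M × M)
  G : AddSubgroup (M × M × M)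
  P1 : ∀ v, (v, 0, 0) ∈ P → v = 0
  P1' : ∀ a b, (0, a, b) ∈ P → a = 0 ∧ b = 0
  GP : G ≤ P
  P2 : ∀ v a b, (v, a, b) ∈ G → (y v, y a, y b) ∈ P
  Gr : ∀ v a b, (v, a, b) ∈ G → (∃ c, y c = a) ∧ ∃ c, y (y c) = b

/-- values at the nodes -/
def nv (k : M × M × M × M) : Nd → M
  | s1 => k.1
  | s2 => k.2.1
  | u => k.2.2.1
  | v => k.2.2.2
  | t1 => k.1 + k.2.2.1
  | t2 => k.2.1 + k.2.2.1
  | t3 => k.2.2.2 + k.2.2.1

/-- values at the coordinates of one copy -/
def cv (y : M →+ M) (sec1 sec2 : M → M) (k : Bool → M × M × M × M) : Co1 → M × M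
  | nd b n => (nv (k b) n, 0)
  | br b n => (y (nv (k b) n), 0)
  | bb b => (y (y (k b).2.1), 0)
  | z b n => (nv (k (!b)) n - y (nv (k b) n), 0)
  | rx => ((k false).1 - sec1 (y (k false).1), (k false).2.1 - sec2 (y (y (k false).2.1)))

/-- the side condition -/
def Gd (A : Mdl M) (k : M × M × M × M) : Prop := (k.2.2.2, A.y k.1, A.y (A.y k.2.1)) ∈ A.G

theorem Gd.sub {A : Mdl M} {k k' : M × M × M × M} (h : Gd A k) (h' : Gd A k') :
    (k.2.2.2 - k'.2.2.2, A.y k.1 - A.y k'.1, A.y (A.y k.2.1) - A.y (A.y k'.2.1)) ∈ A.G := by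
  have := A.G.sub_mem h h'
  simpa using this

theorem nv_tie (k : M × M × M × M) {p t : Nd} (h : Tie p t) : nv k t = nv k p + nv k u := by
  rcases h with ⟨rfl, rfl⟩ | ⟨rfl, rfl⟩ | ⟨rfl, rfl⟩ <;> rfl

theorem cv_cl (A : Mdl M) (sec1 sec2 : M → M) (k k' : Bool → M × M × M × M)
    (hk : ∀ b, Gd A (k b)) (hk' : ∀ b, Gd A (k' b)) :
    Cl1 (fun i => cv A.y sec1 sec2 k i = cv A.y sec1 sec2 k' i) := by
  have hGsub := fun b => (hk b).sub (hk' b)
  have hvv : ∀ b, (k b).2.2.2 = (k' b).2.2.2 → A.y (k b).1 = A.y (k' b).1 ∧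
      A.y (A.y (k b).2.1) = A.y (A.y (k' b).2.1) := by
    intro b h
    have h1 := A.GP (hGsub b)
    rw [h, sub_self] at h1
    have h2 := A.P1' _ _ h1
    exact ⟨sub_eq_zero.1 h2.1, sub_eq_zero.1 h2.2⟩
  constructor
  · intro b n h
    simp only [cv, Prod.mk.injEq, and_true] at h ⊢
    rw [h]
  · intro b h
    simp only [cv, Prod.mk.injEq, and_true, nv] at h ⊢
    rw [h]
  · intro b h
    simp only [cv, Prod.mk.injEq, and_true, nv] at h ⊢
    exact (hvv b h).1
  · intro b h
    simp only [cv, Prod.mk.injEq, and_true, nv] at h ⊢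
    exact (hvv b h).2
  · intro b h1 h2
    simp only [cv, Prod.mk.injEq, and_true, nv] at h1 h2 ⊢
    have h3 := A.GP (hGsub b)
    rw [h1, h2, sub_self, sub_self] at h3
    exact sub_eq_zero.1 (A.P1 _ h3)
  · intro b p t ht h1 h2
    simp only [cv, Prod.mk.injEq, and_true, nv_tie _ ht] at h1 h2 ⊢
    rw [h1, h2]
  · intro b p t ht h1 h2
    simp only [cv, Prod.mk.injEq, and_true, nv_tie _ ht] at h1 h2 ⊢
    rw [h1] at h2
    exact add_left_cancel h2
  · intro b p t ht h1 h2
    simp only [cv, Prod.mk.injEq, and_true, nv_tie _ ht] at h1 h2 ⊢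
    rw [h1] at h2
    exact add_right_cancel h2
  · intro b p t ht h1 h2
    simp only [cv, Prod.mk.injEq, and_true, nv_tie _ ht, map_add] at h1 h2 ⊢
    rw [h2] at h1
    exact add_right_cancel h1
  · intro b p t ht h1 h2
    simp only [cv, Prod.mk.injEq, and_true, nv_tie _ ht, map_add] at h1 h2 ⊢
    rw [h2] at h1
    exact add_left_cancel h1
  · intro b n h1 h2
    simp only [cv, Prod.mk.injEq, and_true] at h1 h2 ⊢
    rw [h2] at h1
    exact sub_left_injective h1
  · intro b n h1 h2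
    simp only [cv, Prod.mk.injEq, and_true] at h1 h2 ⊢
    rw [h2] at h1
    exact sub_right_injective h1
  · intro b n h1 h2
    simp only [cv, Prod.mk.injEq, and_true] at h1 h2 ⊢
    rw [h1, h2]
  · intro b h1 h2
    simp only [cv, Prod.mk.injEq, and_true, nv] at h1 h2 ⊢
    have h3 := congrArg A.y h1
    rw [map_sub, map_sub, h2] at h3
    exact sub_left_injective h3
  · intro b h1 h2
    simp only [cv, Prod.mk.injEq, and_true, nv] at h1 h2 ⊢
    have h3 := congrArg A.y h1
    rw [map_sub, map_sub, h2] at h3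
    exact sub_right_injective h3
  · intro b h1 h2
    simp only [cv, Prod.mk.injEq, and_true, nv] at h1 h2 ⊢
    have e1 := A.GP (hGsub (!b))
    have e2 := A.P2 _ _ _ (hGsub b)
    have e3 := A.P.sub_mem e1 e2
    simp only [Prod.mk_sub_mk] at e3
    have z1 : (k (!b)).1 - (k' (!b)).1 = A.y ((k b).1) - A.y ((k' b).1) := by
      have := h1
      rw [sub_eq_sub_iff_sub_eq_sub] at this
      exact this
    have z2 : (k (!b)).2.1 - (k' (!b)).2.1 = A.y ((k b).2.1) - A.y ((k' b).2.1) := by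
      have := h2
      rw [sub_eq_sub_iff_sub_eq_sub] at this
      exact this
    have e4 : A.y (k (!b)).1 - A.y (k' (!b)).1 - A.y (A.y (k b).1 - A.y (k' b).1) = 0 := by
      rw [← map_sub A.y, z1, sub_self]
    have e5 : A.y (A.y (k (!b)).2.1) - A.y (A.y (k' (!b)).2.1) -
        A.y (A.y (A.y (k b).2.1) - A.y (A.y (k' b).2.1)) = 0 := by
      have q1 : A.y (A.y (k (!b)).2.1) - A.y (A.y (k' (!b)).2.1) =
          A.y (A.y ((k (!b)).2.1 - (k' (!b)).2.1)) := by rw [map_sub, map_sub]
      rw [q1, z2, map_sub A.y (A.y (k b).2.1) (A.y (k' b).2.1), sub_self]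
    rw [e4, e5] at e3
    have e6 := A.P1 _ e3
    rw [map_sub] at e6
    rw [sub_eq_sub_iff_sub_eq_sub]
    exact sub_eq_zero.1 e6
  · intro b p t ht h1 h2
    simp only [cv, Prod.mk.injEq, and_true, nv_tie _ ht, map_add] at h1 h2 ⊢
    have : ∀ a b c d : M, (a + b) - (c + d) = (a - c) + (b - d) := fun a b c d => by abel
    rw [this, this, h1, h2]
  · intro h1 h2
    simp only [cv, Prod.mk.injEq, and_true, nv] at h1 h2 ⊢
    rw [h1, h2]
    exact ⟨rfl, rfl⟩
  · intro h1 h2
    simp only [cv, Prod.mk.injEq, and_true, nv] at h1 h2 ⊢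
    have h3 := (hvv false h1).1
    rw [h3] at h2
    exact sub_left_injective h2.1
  · intro h1 h2
    simp only [cv, Prod.mk.injEq, and_true, nv] at h1 h2 ⊢
    have h3 := (hvv false h1).2
    rw [h3] at h2
    exact sub_left_injective h2.2

end Run7.h695
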