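import Mathlib
set_option autoImplicit false
set_option linter.unusedSectionVars false
set_option linter.unusedVariables false

/-! Diagrams of cells, the shift, and the rank-one comparison maps. -/

namespace Run7.h695

/-- functions of a row and a level -/
abbrev FF : Type := ℕ → ℕ → ZMod 2

/-- functions supported on the diagram `i < p l` -/
def InD (p : ℕ → ℕ) (f : FF) : Prop := ∀ i l, p l ≤ i → f i l = 0

/-- the shift -/
def yy (f : FF) : FF := fun i l => f i (l + 1)

/-- the shift of the extra chain -/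
def sh (x : ℕ → ZMod 2) : ℕ → ZMod 2 := fun s => if s = 0 then 0 else x (s - 1)

/-- the correction term on the row `j` -/
def tm (mn ms : ℕ → ℕ) (g : FF) (x : ℕ → ZMod 2) (j l : ℕ) : ZMod 2 :=
  if j = 0 then (if l ≤ ms 0 then x (ms 0 - l) else 0)
  else g (mn (ms (j - 1))) (l + ms (j - 1) - ms j - 1)

/-- the comparison map -/
def Psi (mn ms : ℕ → ℕ) (r : ℕ) (g : FF) (x : ℕ → ZMod 2) : FF := fun i l =>
  g i l + ∑ j ∈ Finset.range r, if i = mn (ms j) then tm mn ms g x j l else 0

/-- the combinatorial conditions -/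
structure PD (mn ms : ℕ → ℕ) (h r : ℕ) : Prop where
  anti : Antitone mn
  str : ∀ l l', l < l' → l' < h → mn l' < mn l
  lth : ∀ j < r, ms j < h
  dec : ∀ j, 1 ≤ j → j < r → ms j < ms (j - 1)

theorem tm_add (mn ms : ℕ → ℕ) (g g' : FF) (x x' : ℕ → ZMod 2) (j l : ℕ) :
    tm mn ms (g + g') (x + x') j l = tm mn ms g x j l + tm mn ms g' x' j l := by
  unfold tm
  split_ifs <;> simp

theorem Psi_add (mn ms : ℕ → ℕ) (r : ℕ) (g g' : FF) (x x' : ℕ → ZMod 2) :
    Psi mn ms r (g + g') (x + x') = Psi mn ms r g x + Psi mn ms r g' x' := by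
  funext i l
  simp only [Psi, Pi.add_apply]
  have : ∀ j, (if i = mn (ms j) then tm mn ms (g + g') (x + x') j l else 0) =
      (if i = mn (ms j) then tm mn ms g x j l else 0) +
      (if i = mn (ms j) then tm mn ms g' x' j l else 0) := by
    intro j
    split_ifs
    · exact tm_add _ _ _ _ _ _ _ _
    · simp
  simp only [this, Finset.sum_add_distrib]
  ring

theorem Psi_zero (mn ms : ℕ → ℕ) (r : ℕ) : Psi mn ms r 0 0 = 0 := by
  have h := Psi_add mn ms r 0 0 0 0
  rw [add_zero, add_zero] at h
  exact left_eq_add.1 h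

section

variable {mn ms : ℕ → ℕ} {h r : ℕ} (D : PD mn ms h r)
include D

theorem PD.dec' : ∀ j j', j < j' → j' < r → ms j' < ms j := by
  intro j j' hjj
  induction j' with
  | zero => omega
  | succ n ih =>
    intro hn
    have h1 := D.dec (n + 1) (by omega) hn
    rw [Nat.add_sub_cancel] at h1
    by_cases hj : j = n
    · subst hj; exact h1
    · exact h1.trans (ih (by omega) (by omega))

theorem PD.rows {j j' : ℕ} (hj : j < r) (hj' : j' < r) (he : mn (ms j) = mn (ms j')) : j = j' := by
  by_contra hne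
  rcases Nat.lt_or_gt_of_ne hne with h1 | h1
  · have := D.str _ _ (D.dec' _ _ h1 hj') (D.lth _ hj)
    omega
  · have := D.str _ _ (D.dec' _ _ h1 hj) (D.lth _ hj')
    omega

theorem PD.row (g : FF) (x : ℕ → ZMod 2) {j : ℕ} (hj : j < r) (l : ℕ) :
    Psi mn ms r g x (mn (ms j)) l = g (mn (ms j)) l + tm mn ms g x j l := by
  unfold Psi
  congr 1
  rw [Finset.sum_eq_single j]
  · simp
  · intro b hb hbj
    rw [if_neg]
    intro he
    exact hbj (D.rows (Finset.mem_range.1 hb) hj he.symm)
  · intro h1
    exact absurd (Finset.mem_range.2 hj) h1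

theorem PD.off (g : FF) (x : ℕ → ZMod 2) {i : ℕ} (hi : ∀ j < r, i ≠ mn (ms j)) (l : ℕ) :
    Psi mn ms r g x i l = g i l := by
  unfold Psi
  rw [Finset.sum_eq_zero, add_zero]
  intro j hj
  rw [if_neg (hi j (Finset.mem_range.1 hj))]

theorem PD.equiv (g : FF) (x : ℕ → ZMod 2) :
    yy (Psi mn ms r g x) = Psi mn ms r (yy g) (sh x) := by
  funext i l
  change Psi mn ms r g x i (l + 1) = _
  by_cases hi : ∀ j < r, i ≠ mn (ms j)
  · rw [D.off _ _ hi, D.off _ _ hi]
    rfl
  · push Not at hi
    obtain ⟨j, hj, rfl⟩ := hi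
    rw [D.row _ _ hj, D.row _ _ hj]
    congr 1
    unfold tm
    by_cases h0 : j = 0
    · rw [if_pos h0, if_pos h0]
      unfold sh
      by_cases h1 : l + 1 ≤ ms 0
      · rw [if_pos h1, if_pos (by omega), if_neg (by omega)]
        congr 1
      · rw [if_neg h1]
        by_cases h2 : l ≤ ms 0
        · rw [if_pos h2, if_pos (by omega)]
        · rw [if_neg h2]
    · rw [if_neg h0, if_neg h0]
      have h1 := D.dec j (by omega) hj
      unfold yy
      congr 1
      omega

theorem PD.mem {p' : ℕ → ℕ} (h1 : ∀ l, mn l ≤ p' l) (h2 : ∀ j < r, mn (ms j) < p' (ms j))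
    {g : FF} (hg : InD mn g) (x : ℕ → ZMod 2) : InD p' (Psi mn ms r g x) := by
  intro i l hil
  have hgi : g i l = 0 := hg i l ((h1 l).trans hil)
  by_cases hi : ∀ j < r, i ≠ mn (ms j)
  · rw [D.off _ _ hi]; exact hgi
  · push Not at hi
    obtain ⟨j, hj, rfl⟩ := hi
    rw [D.row _ _ hj, hgi, zero_add]
    have hl : ms j < l := by
      by_contra hle
      push Not at hle
      rcases Nat.lt_or_eq_of_le hle with h3 | h3
      · have := D.str _ _ h3 (D.lth j hj)
        have := h1 l
        omega
      · subst h3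
        have := h2 j hj
        omega
    unfold tm
    by_cases h0 : j = 0
    · rw [if_pos h0, if_neg]
      subst h0
      omega
    · rw [if_neg h0]
      apply hg
      have h4 := D.dec j (by omega) hj
      exact D.anti (by omega)

theorem PD.inj {g : FF} (hg : InD mn g) {x : ℕ → ZMod 2} (hx : ∀ s, r ≤ s → x s = 0)
    (h0 : Psi mn ms r g x = 0) : g = 0 ∧ x = 0 := by
  have h2 : ∀ a b : ZMod 2, a + b = 0 → a = b := by
    intro a b hab
    have : a = -b := eq_neg_of_add_eq_zero_left hab
    rw [this, ZModModule.neg_eq_self]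
  have key : ∀ j, j < r → ∀ s, s ≤ ms j → g (mn (ms j)) (ms j - s) = x (s + j) := by
    intro j
    induction j with
    | zero =>
      intro hj s hs
      have h3 := congrFun (congrFun h0 (mn (ms 0))) (ms 0 - s)
      rw [D.row _ _ hj] at h3
      unfold tm at h3
      rw [if_pos rfl, if_pos (by omega)] at h3
      have h4 := h2 _ _ h3
      rw [h4]
      congr 1
      omega
    | succ j ih =>
      intro hj s hs
      have h3 := congrFun (congrFun h0 (mn (ms (j + 1)))) (ms (j + 1) - s)
      rw [D.row _ _ hj] at h3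
      unfold tm at h3
      rw [if_neg (by omega)] at h3
      have h4 := h2 _ _ h3
      have h5 := D.dec (j + 1) (by omega) hj
      rw [Nat.add_sub_cancel] at h4 h5
      rw [h4]
      have h6 := ih (by omega) (s + 1) (by omega)
      have e1 : ms (j + 1) - s + ms j - ms (j + 1) - 1 = ms j - (s + 1) := by omega
      rw [e1, h6]
      congr 1
      omega
  have hx0 : x = 0 := by
    funext s
    by_cases hs : s < r
    · have h3 := key s hs 0 (by omega)
      rw [Nat.sub_zero, hg _ _ le_rfl, zero_add] at h3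
      exact h3.symm
    · exact hx s (by omega)
  refine ⟨?_, hx0⟩
  funext i l
  by_cases hi : ∀ j < r, i ≠ mn (ms j)
  · have h3 := congrFun (congrFun h0 i) l
    rw [D.off _ _ hi] at h3
    exact h3
  · push Not at hi
    obtain ⟨j, hj, rfl⟩ := hi
    by_cases hl : l ≤ ms j
    · have h3 := key j hj (ms j - l) (by omega)
      have e1 : ms j - (ms j - l) = l := by omega
      rw [e1, hx0] at h3
      exact h3
    · exact hg _ _ (D.anti (by omega))

end

end Run7.h695
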