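import Pool.Agent.Run7.h695.CodeBd
set_option autoImplicit false
set_option linter.unusedSectionVars false
set_option linter.unusedVariables false

/-! Passing to a subcode whose agreement sets are closed under intersection. -/

open scoped Classical

namespace Run7.h695

open Finset

variable {X : Type} [Fintype X] {n : ℕ}

/-- the agreement sets of distinct words -/
noncomputable def agD (D : Finset (X → Fin n)) : Finset (Finset X) :=
  Finset.univ.filter (fun U => ∃ x ∈ D, ∃ y ∈ D, x ≠ y ∧ U = agr x y)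

theorem mem_agD {D : Finset (X → Fin n)} {U : Finset X} :
    U ∈ agD D ↔ ∃ x ∈ D, ∃ y ∈ D, x ≠ y ∧ U = agr x y := by
  simp [agD]

theorem mem_agr {x y : X → Fin n} {c : X} : c ∈ agr x y ↔ x c = y c := by
  simp [agr]

theorem agr_comm (x y : X → Fin n) : agr x y = agr y x := by
  ext c; rw [mem_agr, mem_agr, eq_comm]

def Clq (B : Finset X) (S : Finset (X → Fin n)) : Prop :=
  ∀ x ∈ S, ∀ y ∈ S, x ≠ y → agr x y = B

theorem sub_indep (D : Finset (X → Fin n)) (B : Finset X) (hB : B ≠ Finset.univ) (κ : ℕ)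
    (hS : ∀ S ⊆ D, Clq B S → S.card ≤ κ) :
    ∃ D' ⊆ D, D.card ≤ κ * Fintype.card X * D'.card ∧
      ∀ x ∈ D', ∀ y ∈ D', x ≠ y → agr x y ≠ B := by
  obtain ⟨c1, hc1⟩ : ∃ c, c ∉ B := by
    by_contra h
    push Not at h
    exact hB (Finset.eq_univ_iff_forall.2 h)
  by_cases hD : D = ∅
  · subst hD
    exact ⟨∅, Finset.Subset.refl _, by simp, by simp⟩
  -- the key
  set key : (X → Fin n) → (X → Option (Fin n)) := fun x c => if c ∈ B then some (x c) else none
    with hkey
  have hkeq : ∀ x y, key x = key y ↔ ∀ c ∈ B, x c = y c := by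
    intro x y
    constructor
    · intro h c hc
      have := congrFun h c
      simpa [hkey, hc] using this
    · intro h
      funext c
      by_cases hc : c ∈ B
      · simp [hkey, hc, h c hc]
      · simp [hkey, hc]
  -- maximal cliques
  have hmax : ∀ a : X → Option (Fin n), ∃ M : Finset (X → Fin n),
      M ⊆ D.filter (fun x => key x = a) ∧ Clq B M ∧
      ∀ M', M' ⊆ D.filter (fun x => key x = a) → Clq B M' → M'.card ≤ M.card := by
    intro a
    obtain ⟨M, hM, hMm⟩ := Finset.exists_max_image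
      ((D.filter (fun x => key x = a)).powerset.filter (fun M => Clq B M)) Finset.card
      ⟨∅, by
        rw [Finset.mem_filter, Finset.mem_powerset]
        exact ⟨Finset.empty_subset _, fun x hx => absurd hx (Finset.notMem_empty x)⟩⟩
    rw [Finset.mem_filter, Finset.mem_powerset] at hM
    exact ⟨M, hM.1, hM.2, fun M' h1 h2 => hMm M' (by
      rw [Finset.mem_filter, Finset.mem_powerset]; exact ⟨h1, h2⟩)⟩
  choose M hM1 hM2 hM3 using hmax
  have hcov : ∀ x, ∃ mc : (X → Fin n) × X, x ∈ D → mc.1 ∈ M (key x) ∧ mc.2 ∉ B ∧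
      x mc.2 = mc.1 mc.2 := by
    intro x
    by_cases hx : x ∈ D
    · by_cases hxM : x ∈ M (key x)
      · exact ⟨(x, c1), fun _ => ⟨hxM, hc1, rfl⟩⟩
      · by_contra hno
        push Not at hno
        have h1 : ∀ mm ∈ M (key x), ∀ c, c ∉ B → x c ≠ mm c := fun mm hm c hc =>
          (hno (mm, c)).2 hm hc
        have h2 : ∀ mm ∈ M (key x), agr x mm = B := by
          intro mm hm
          have h3 : key mm = key x := (Finset.mem_filter.1 (hM1 _ hm)).2
          rw [hkeq] at h3
          ext c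
          rw [mem_agr]
          constructor
          · intro h4
            by_contra hc
            exact h1 mm hm c hc h4
          · intro hc
            exact (h3 c hc).symm
        have h3 : (insert x (M (key x))).card ≤ (M (key x)).card := by
          refine hM3 _ _ (Finset.insert_subset (Finset.mem_filter.2 ⟨hx, rfl⟩) (hM1 _)) ?_
          intro y hy z hz hyz
          rw [Finset.mem_insert] at hy hz
          rcases hy with rfl | hy
          · rcases hz with rfl | hz
            · exact absurd rfl hyz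
            · exact h2 z hz
          · rcases hz with rfl | hz
            · rw [agr_comm]; exact h2 y hy
            · exact hM2 _ y hy z hz hyz
        rw [Finset.card_insert_of_notMem hxM] at h3
        omega
    · exact ⟨(x, c1), fun h => absurd h hx⟩
  choose mc hmc using hcov
  -- labels in Fin κ
  have hι' : ∀ a, ∃ ι : (X → Fin n) → ℕ, (∀ x ∈ M a, ι x < κ) ∧
      ∀ x ∈ M a, ∀ y ∈ M a, ι x = ι y → x = y := by
    intro a
    have h1 : (M a).card ≤ κ := hS _ ((hM1 a).trans (Finset.filter_subset _ _)) (hM2 a)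
    have e := (M a).equivFin
    refine ⟨fun x => if h : x ∈ M a then (e ⟨x, h⟩ : ℕ) else 0, fun x hx => ?_,
      fun x hx y hy hxy => ?_⟩
    · simp only [hx, dif_pos]
      have := (e ⟨x, hx⟩).2
      omega
    · simp only [hx, hy, dif_pos] at hxy
      have h2 := e.injective (Fin.ext hxy)
      exact congrArg Subtype.val h2
  choose ν hν1 hν2 using hι'
  set lab : (X → Fin n) → ℕ × X := fun x => (ν (key x) (mc x).1, (mc x).2) with hlab
  set LL : Finset (ℕ × X) := Finset.range κ ×ˢ Finset.univ with hLL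
  have hmaps : ∀ x ∈ D, lab x ∈ LL := by
    intro x hx
    rw [hLL, Finset.mem_product, Finset.mem_range]
    exact ⟨hν1 _ _ (hmc x hx).1, Finset.mem_univ _⟩
  have hLLc : LL.card = κ * Fintype.card X := by
    rw [hLL, Finset.card_product, Finset.card_range, Finset.card_univ]
  obtain ⟨x0, hx0⟩ := Finset.nonempty_iff_ne_empty.2 hD
  obtain ⟨l, hl, hlm⟩ := Finset.exists_max_image LL (fun l => (D.filter (fun x => lab x = l)).card)
    ⟨_, hmaps x0 hx0⟩
  refine ⟨D.filter (fun x => lab x = l), Finset.filter_subset _ _, ?_, ?_⟩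
  · rw [Finset.card_eq_sum_card_fiberwise hmaps, ← hLLc, ← smul_eq_mul]
    exact Finset.sum_le_card_nsmul _ _ _ hlm
  · intro x hx y hy hxy hag
    rw [Finset.mem_filter] at hx hy
    have hk : key x = key y := by
      rw [hkeq]
      intro c hc
      rw [← hag, mem_agr] at hc
      exact hc
    have hl2 := hx.2.trans hy.2.symm
    simp only [hlab, Prod.mk.injEq] at hl2
    obtain ⟨hx1, hx2, hx3⟩ := hmc x hx.1
    obtain ⟨hy1, hy2, hy3⟩ := hmc y hy.1
    rw [← hk] at hy1 hl2
    have h1 := hν2 _ _ hx1 _ hy1 hl2.1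
    have h2 : (mc x).2 ∈ agr x y := by
      rw [mem_agr, hx3, h1, hl2.2, ← hy3]
    rw [hag] at h2
    exact hx2 h2

theorem agD_mono {D D' : Finset (X → Fin n)} (h : D' ⊆ D) : agD D' ⊆ agD D := by
  intro U hU
  rw [mem_agD] at hU ⊢
  obtain ⟨x, hx, y, hy, hxy, hUe⟩ := hU
  exact ⟨x, h hx, y, h hy, hxy, hUe⟩

theorem agr_ne_univ {x y : X → Fin n} (h : x ≠ y) : agr x y ≠ Finset.univ := by
  intro h1
  apply h
  funext c
  have : c ∈ agr x y := by rw [h1]; exact Finset.mem_univ c
  exact mem_agr.1 this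

theorem red_step (hX : 1 ≤ Fintype.card X) (D : Finset (X → Fin n)) {A B : Finset X}
    (hA : A ∈ agD D) (hB : B ∈ agD D) (hAB : A ∩ B ∉ agD D) :
    ∃ D' ⊆ D, D.card ≤ (2 * ((Fintype.card X + 1) * Fintype.card X)) * D'.card ∧
      (agD D').card < (agD D).card := by
  set κ := Fintype.card X with hκ
  set CA := D.filter (fun x => ¬ ∃ y ∈ D, y ≠ x ∧ agr x y = A) with hCA
  set CB := D.filter (fun x => ¬ ∃ S ⊆ D, S.card = κ + 1 ∧ Clq B S ∧ ∀ y ∈ S, y ≠ x ∧ agr x y = B)
    with hCB
  have hAu : A ≠ Finset.univ := by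
    obtain ⟨x, _, y, _, hxy, rfl⟩ := mem_agD.1 hA
    exact agr_ne_univ hxy
  have hBu : B ≠ Finset.univ := by
    obtain ⟨x, _, y, _, hxy, rfl⟩ := mem_agD.1 hB
    exact agr_ne_univ hxy
  have hcov : D ⊆ CA ∪ CB := by
    intro x hx
    rw [Finset.mem_union, hCA, hCB, Finset.mem_filter, Finset.mem_filter]
    by_contra hno
    push Not at hno
    obtain ⟨h1, h2⟩ := hno
    obtain ⟨y, hyD, hyx, hyA⟩ := h1 hx
    obtain ⟨S, hSD, hSc, hScl, hSx⟩ := h2 hx
    -- choose z in S not agreeing with y outside of A ∪ B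
    have hz : ∃ z ∈ S, ∀ c, c ∉ A → c ∉ B → y c ≠ z c := by
      by_contra hno
      push Not at hno
      have h3 : ∀ z ∈ S, ∃ c, c ∉ B ∧ y c = z c := fun z hz => by
        obtain ⟨c, _, hc, hc2⟩ := hno z hz
        exact ⟨c, hc, hc2⟩
      obtain ⟨cf, hcf⟩ : ∃ cf : (X → Fin n) → X, ∀ z ∈ S, cf z ∉ B ∧ y (cf z) = z (cf z) := by
        have hXn : Nonempty X := Fintype.card_pos_iff.1 (by omega)
        have : ∀ z, ∃ c, z ∈ S → c ∉ B ∧ y c = z c := by
          intro z
          by_cases hz : z ∈ S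
          · obtain ⟨c, hc⟩ := h3 z hz
            exact ⟨c, fun _ => hc⟩
          · exact ⟨Classical.arbitrary X, fun h => absurd h hz⟩
        choose cf hcf using this
        exact ⟨cf, hcf⟩
      have hinj : Set.InjOn cf (S : Set (X → Fin n)) := by
        intro z hz z' hz' hcc
        by_contra hne
        have h4 := hScl z hz z' hz' hne
        have h5 : cf z ∈ agr z z' := by
          rw [mem_agr, ← (hcf z hz).2, hcc, (hcf z' hz').2]
        rw [h4] at h5
        exact (hcf z hz).1 h5
      have h6 := Finset.card_le_card_of_injOn cf (fun z _ => Finset.mem_univ (cf z)) hinj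
      rw [hSc, Finset.card_univ] at h6
      omega
    obtain ⟨z, hzS, hz⟩ := hz
    obtain ⟨hzx, hzB⟩ := hSx z hzS
    apply hAB
    rw [mem_agD]
    have hag : A ∩ B = agr y z := by
      ext c
      rw [Finset.mem_inter, mem_agr]
      constructor
      · rintro ⟨ha, hb⟩
        rw [← hyA, mem_agr] at ha
        rw [← hzB, mem_agr] at hb
        rw [← ha, ← hb]
      · intro hyz
        by_cases ha : c ∈ A
        · refine ⟨ha, ?_⟩
          rw [← hyA, mem_agr] at ha
          rw [← hzB, mem_agr, ha, hyz]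
        · by_cases hb : c ∈ B
          · refine ⟨?_, hb⟩
            rw [← hzB, mem_agr] at hb
            rw [← hyA, mem_agr, hb, hyz]
          · exact absurd hyz (hz c ha hb)
    refine ⟨y, hyD, z, hSD hzS, fun hyz => ?_, hag⟩
    rw [hyz] at hag
    have : agr z z = Finset.univ := by ext c; simp [agr]
    rw [this] at hag
    exact hAu (Finset.univ_subset_iff.1 (hag ▸ Finset.inter_subset_left))
  have hcard : D.card ≤ CA.card + CB.card :=
    (Finset.card_le_card hcov).trans (Finset.card_union_le _ _)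
  have hKpos : 1 ≤ (κ + 1) * κ := Nat.mul_pos (by omega) (by omega)
  by_cases hcase : D.card ≤ 2 * CA.card
  · refine ⟨CA, Finset.filter_subset _ _, ?_, ?_⟩
    · refine hcase.trans (Nat.mul_le_mul_right _ ?_)
      omega
    · refine Finset.card_lt_card ?_
      rw [Finset.ssubset_iff_of_subset (agD_mono (Finset.filter_subset _ _))]
      refine ⟨A, hA, fun h => ?_⟩
      obtain ⟨x, hx, y, hy, hxy, hAe⟩ := mem_agD.1 h
      rw [Finset.mem_filter] at hx hy
      exact hx.2 ⟨y, hy.1, hxy.symm, hAe.symm⟩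
  · have hcb : D.card ≤ 2 * CB.card := by omega
    obtain ⟨D', hD'1, hD'2, hD'3⟩ := sub_indep CB B hBu (κ + 1) (by
      intro S hS hcl
      by_contra hlt
      push Not at hlt
      obtain ⟨x, hx⟩ : S.Nonempty := Finset.card_pos.1 (by omega)
      obtain ⟨S', hS'1, hS'2⟩ := Finset.exists_subset_card_eq (s := S.erase x) (n := κ + 1) (by
        rw [Finset.card_erase_of_mem hx]; omega)
      have hxCB := hS hx
      rw [hCB, Finset.mem_filter] at hxCB
      apply hxCB.2
      refine ⟨S', ?_, hS'2, ?_, ?_⟩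
      · intro y hy
        exact (Finset.mem_filter.1 (hS (Finset.mem_of_mem_erase (hS'1 hy)))).1
      · intro y hy z hz hyz
        exact hcl y (Finset.mem_of_mem_erase (hS'1 hy)) z (Finset.mem_of_mem_erase (hS'1 hz)) hyz
      · intro y hy
        have h1 := Finset.mem_erase.1 (hS'1 hy)
        exact ⟨h1.1, hcl x hx y h1.2 h1.1.symm⟩)
    refine ⟨D', hD'1.trans (Finset.filter_subset _ _), ?_, ?_⟩
    · refine hcb.trans ?_
      calc 2 * CB.card ≤ 2 * ((κ + 1) * Fintype.card X * D'.card) := Nat.mul_le_mul_left _ hD'2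
        _ = _ := by rw [← hκ]; ring
    · refine Finset.card_lt_card ?_
      rw [Finset.ssubset_iff_of_subset (agD_mono (hD'1.trans (Finset.filter_subset _ _)))]
      refine ⟨B, hB, fun h => ?_⟩
      obtain ⟨x, hx, y, hy, hxy, hAe⟩ := mem_agD.1 h
      exact hD'3 x hx y hy hxy hAe.symm

theorem red_iter (hX : 1 ≤ Fintype.card X) : ∀ (N : ℕ) (D : Finset (X → Fin n)),
    (agD D).card ≤ N → ∃ D' ⊆ D,
      D.card ≤ (2 * ((Fintype.card X + 1) * Fintype.card X)) ^ N * D'.card ∧
      ∀ A ∈ agD D', ∀ B ∈ agD D', A ∩ B ∈ agD D' := by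
  intro N
  induction N with
  | zero =>
    intro D hD
    refine ⟨D, Finset.Subset.refl _, by simp, fun A hA => ?_⟩
    have : agD D = ∅ := Finset.card_eq_zero.1 (by omega)
    rw [this] at hA
    simp at hA
  | succ N ih =>
    intro D hD
    set K := 2 * ((Fintype.card X + 1) * Fintype.card X) with hK
    have hKpos : 1 ≤ K := by
      have : 1 ≤ (Fintype.card X + 1) * Fintype.card X := Nat.mul_pos (by omega) (by omega)
      omega
    by_cases hcl : ∀ A ∈ agD D, ∀ B ∈ agD D, A ∩ B ∈ agD D
    · refine ⟨D, Finset.Subset.refl _, ?_, hcl⟩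
      exact Nat.le_mul_of_pos_left _ (pow_pos hKpos _)
    · push Not at hcl
      obtain ⟨A, hA, B, hB, hAB⟩ := hcl
      obtain ⟨D1, h1, h2, h3⟩ := red_step hX D hA hB hAB
      obtain ⟨D2, h4, h5, h6⟩ := ih D1 (by omega)
      refine ⟨D2, h4.trans h1, ?_, h6⟩
      calc D.card ≤ K * D1.card := h2
        _ ≤ K * (K ^ N * D2.card) := Nat.mul_le_mul_left _ h5
        _ = K ^ (N + 1) * D2.card := by ring

theorem agC_inter {D : Finset (X → Fin n)} (h : ∀ A ∈ agD D, ∀ B ∈ agD D, A ∩ B ∈ agD D) :
    ∀ A B, agC D A → agC D B → agC D (A ∩ B) := by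
  rintro A B (rfl | hA) (rfl | hB)
  · left; rw [Finset.univ_inter]
  · right
    rw [Finset.univ_inter]
    exact hB
  · right
    rw [Finset.inter_univ]
    exact hA
  · right
    exact mem_agD.1 (h A (mem_agD.2 hA) B (mem_agD.2 hB))

end Run7.h695
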