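import Pool.Agent.Run7.h695.Cnt
set_option autoImplicit false
set_option linter.unusedSectionVars false
set_option linter.unusedVariables false

/-! Almost Fibonacci sequences and the resulting codes. -/

open scoped Classical

namespace Run7.h695

/-- decreasing enumeration -/
theorem exists_enum (E : Finset ℕ) (r : ℕ) (hr : r ≤ E.card) :
    ∃ ms : ℕ → ℕ, (∀ j < r, ms j ∈ E) ∧ ∀ j, 1 ≤ j → j < r → ms j < ms (j - 1) := by
  set f := E.orderEmbOfFin rfl with hf
  refine ⟨fun j => if h : j < E.card then f ⟨E.card - 1 - j, by omega⟩ else 0, ?_, ?_⟩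
  · intro j hj
    beta_reduce
    rw [dif_pos (by omega)]
    exact Finset.orderEmbOfFin_mem E rfl _
  · intro j h1 hj
    simp only
    rw [dif_pos (by omega), dif_pos (by omega)]
    apply f.strictMono
    rw [Fin.mk_lt_mk]
    omega

/-- almost Fibonacci sequences -/
structure FS (d : ℕ → ℕ) : Prop where
  lo : ∀ m, d (m + 1) + d (m + 2) ≤ d m
  hi : ∀ m, d m ≤ d (m + 1) + d (m + 2) + 1
  ex : ∃ m, d (m + 2) < 3

section

variable {d : ℕ → ℕ} (S : FS d)
include S

theorem FS.anti : Antitone d := antitone_nat_of_succ_le fun m => by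
  have := S.lo m
  omega

end

/-- cut level -/
noncomputable def cutH (d : ℕ → ℕ) : ℕ := if h : ∃ m, d (m + 2) < 3 then Nat.find h else 0

section

variable {d : ℕ → ℕ} (S : FS d)
include S

theorem FS.cut_spec : d (cutH d + 2) < 3 := by
  unfold cutH
  rw [dif_pos S.ex]
  exact Nat.find_spec S.ex

theorem FS.cut_min {m : ℕ} (hm : m < cutH d) : 3 ≤ d (m + 2) := by
  unfold cutH at hm
  rw [dif_pos S.ex] at hm
  have := Nat.find_min S.ex hm
  omega

end

/-- the diagram -/
noncomputable def dp (d : ℕ → ℕ) (m : ℕ) : ℕ := if m < cutH d then d m - d (m + 1) else 0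

/-- the common diagram -/
noncomputable def dmn (d : ℕ → ℕ) (m : ℕ) : ℕ :=
  if m < cutH d - 2 then min (dp d m) (dp d (m + 1) + dp d (m + 2)) else 0

noncomputable def EM (d : ℕ → ℕ) : Finset ℕ :=
  (Finset.range (cutH d - 2)).filter (fun l => dp d (l + 1) + dp d (l + 2) < dp d l)
noncomputable def EN (d : ℕ → ℕ) : Finset ℕ :=
  (Finset.range (cutH d - 2)).filter (fun l => dp d l < dp d (l + 1) + dp d (l + 2))

section

variable {d : ℕ → ℕ} (S : FS d) (hH : 2 ≤ cutH d)
include S hH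

theorem FS.dp_anti : Antitone (dp d) := by
  apply antitone_nat_of_succ_le
  intro m
  unfold dp
  have h0 := S.lo m
  have h0' := S.lo (m + 1)
  have h1 := S.hi (m + 1)
  have h2 := S.lo (m + 2)
  have e1 : m + 1 + 1 = m + 2 := rfl
  have e2 : m + 1 + 2 = m + 3 := rfl
  have e3 : m + 2 + 1 = m + 3 := rfl
  have e4 : m + 2 + 2 = m + 4 := rfl
  rw [e1, e2] at h1 h0'
  rw [e3, e4] at h2
  split_ifs with ha hb
  · -- need d (m+4) ≥ 1
    have h3 : 1 ≤ d (m + 4) := by
      by_cases hc : m + 2 < cutH d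
      · have := S.cut_min hc
        rw [e4] at this
        omega
      · have h4 := S.cut_min ha
        have e5 : m + 1 + 2 = m + 3 := rfl
        rw [e5] at h4
        have h5 := S.hi (m + 3)
        have e6 : m + 3 + 1 = m + 4 := rfl
        have e7 : m + 3 + 2 = m + 5 := rfl
        rw [e6, e7] at h5
        have h6 := S.anti (show m + 4 ≤ m + 5 by omega)
        omega
    rw [e1]
    omega
  · omega
  · omega
  · omega

theorem FS.dp_diff {l : ℕ} (hl : l < cutH d - 2) :
    dp d l ≤ dp d (l + 1) + dp d (l + 2) + 1 ∧ dp d (l + 1) + dp d (l + 2) ≤ dp d l + 1 ∧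
      dp d (l + 1) + 2 ≤ dp d l := by
  unfold dp
  rw [if_pos (by omega), if_pos (by omega), if_pos (by omega)]
  have h0 := S.lo l
  have h0' := S.hi l
  have h1 := S.lo (l + 1)
  have h1' := S.hi (l + 1)
  have h2 := S.lo (l + 2)
  have h3 := S.cut_min (show l + 2 < cutH d by omega)
  have e1 : l + 1 + 1 = l + 2 := rfl
  have e2 : l + 1 + 2 = l + 3 := rfl
  have e3 : l + 2 + 1 = l + 3 := rfl
  have e4 : l + 2 + 2 = l + 4 := rfl
  rw [e1, e2] at h1 h1'
  rw [e3, e4] at h2
  rw [e4] at h3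
  rw [e1, e3]
  omega

theorem FS.dmn_step {l : ℕ} (hl : l + 1 < cutH d - 2) : dmn d (l + 1) < dmn d l := by
  have h1 := S.dp_diff hH (show l < cutH d - 2 by omega)
  have e1 : dmn d l = min (dp d l) (dp d (l + 1) + dp d (l + 2)) := by
    unfold dmn; rw [if_pos (by omega)]
  have e2 : dmn d (l + 1) = min (dp d (l + 1)) (dp d (l + 1 + 1) + dp d (l + 1 + 2)) := by
    unfold dmn; rw [if_pos hl]
  rw [e1, e2]
  have h3 := min_le_left (dp d (l + 1)) (dp d (l + 1 + 1) + dp d (l + 1 + 2))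
  have h4 : dp d l - 1 ≤ min (dp d l) (dp d (l + 1) + dp d (l + 2)) := le_min (by omega) (by omega)
  omega

theorem FS.dmn_str : ∀ l l', l < l' → l' < cutH d - 2 → dmn d l' < dmn d l := by
  intro l l' hll
  induction l' with
  | zero => omega
  | succ n ih =>
    intro hn
    have h1 := S.dmn_step hH hn
    by_cases hl : l = n
    · subst hl; exact h1
    · exact h1.trans (ih (by omega) (by omega))

theorem FS.dmn_anti : Antitone (dmn d) := by
  intro a b hab
  by_cases hb : b < cutH d - 2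
  · rcases Nat.lt_or_eq_of_le hab with h1 | h1
    · exact (S.dmn_str hH a b h1 hb).le
    · rw [h1]
  · unfold dmn
    rw [if_neg hb]
    omega

theorem FS.exists_MD : ∃ msM msN : ℕ → ℕ,
    MD (dp d) (dmn d) msM msN (cutH d) (cutH d - 2) (min (EM d).card (EN d).card) := by
  obtain ⟨msM, hM1, hM2⟩ := exists_enum (EM d) (min (EM d).card (EN d).card) (min_le_left _ _)
  obtain ⟨msN, hN1, hN2⟩ := exists_enum (EN d) (min (EM d).card (EN d).card) (min_le_right _ _)
  have hmn : ∀ l, l < cutH d - 2 → dmn d l = min (dp d l) (dp d (l + 1) + dp d (l + 2)) := by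
    intro l hl
    unfold dmn; rw [if_pos hl]
  refine ⟨msM, msN, ⟨S.dp_anti hH, ?_, ⟨S.dmn_anti hH, S.dmn_str hH, ?_, hM2⟩,
    ⟨S.dmn_anti hH, S.dmn_str hH, ?_, hN2⟩, ?_, ?_, ?_, ?_, ?_⟩⟩
  · intro l hl
    unfold dp; rw [if_neg (by omega)]
  · intro j hj
    have := hM1 j hj
    rw [EM, Finset.mem_filter, Finset.mem_range] at this
    exact this.1
  · intro j hj
    have := hN1 j hj
    rw [EN, Finset.mem_filter, Finset.mem_range] at this
    exact this.1
  · intro l hl
    unfold dmn; rw [if_neg (by omega)]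
  · intro l
    by_cases hl : l < cutH d - 2
    · rw [hmn l hl]; exact min_le_left _ _
    · unfold dmn; rw [if_neg hl]; omega
  · intro l
    by_cases hl : l < cutH d - 2
    · rw [hmn l hl]; exact min_le_right _ _
    · unfold dmn; rw [if_neg hl]; omega
  · intro j hj
    have := hM1 j hj
    rw [EM, Finset.mem_filter, Finset.mem_range] at this
    rw [hmn _ this.1]
    exact (min_le_right _ _).trans_lt this.2
  · intro j hj
    have := hN1 j hj
    rw [EN, Finset.mem_filter, Finset.mem_range] at this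
    rw [hmn _ this.1]
    exact (min_le_left _ _).trans_lt this.2

/-! sums -/

theorem FS.sum_p (N : ℕ) (hN : N ≤ cutH d) : ∑ l ∈ Finset.range N, dp d l + d N = d 0 := by
  induction N with
  | zero => simp
  | succ n ih =>
    rw [Finset.sum_range_succ]
    have h1 := ih (by omega)
    have h2 := S.lo n
    unfold dp at h1 ⊢
    rw [if_pos (show n < cutH d by omega)]
    omega

theorem FS.sum_p1 (N : ℕ) (hN : N + 1 ≤ cutH d) :
    ∑ l ∈ Finset.range N, dp d (l + 1) + d (N + 1) = d 1 := by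
  induction N with
  | zero => simp
  | succ n ih =>
    rw [Finset.sum_range_succ]
    have h1 := ih (by omega)
    have h2 := S.lo (n + 1)
    have e : dp d (n + 1) = d (n + 1) - d (n + 1 + 1) := by
      unfold dp; rw [if_pos (by omega)]
    rw [e]
    omega

theorem FS.sum_p2 (N : ℕ) (hN : N + 2 ≤ cutH d) :
    ∑ l ∈ Finset.range N, dp d (l + 2) + d (N + 2) = d 2 := by
  induction N with
  | zero => simp
  | succ n ih =>
    rw [Finset.sum_range_succ]
    have h1 := ih (by omega)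
    have h2 := S.lo (n + 2)
    have e : dp d (n + 2) = d (n + 2) - d (n + 2 + 1) := by
      unfold dp; rw [if_pos (by omega)]
    have e2 : n + 1 + 2 = n + 2 + 1 := rfl
    rw [e, e2]
    omega

theorem FS.sum_M : ∑ l ∈ Finset.range (cutH d - 2), dp d l =
    ∑ l ∈ Finset.range (cutH d - 2), dmn d l + (EM d).card := by
  rw [EM, Finset.card_filter, ← Finset.sum_add_distrib]
  refine Finset.sum_congr rfl fun l hl => ?_
  rw [Finset.mem_range] at hl
  have h1 := S.dp_diff hH hl
  unfold dmn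
  rw [if_pos hl]
  split_ifs with h2
  · rw [min_eq_right h2.le]; omega
  · rw [min_eq_left (by omega)]; omega

theorem FS.sum_N : ∑ l ∈ Finset.range (cutH d - 2), (dp d (l + 1) + dp d (l + 2)) =
    ∑ l ∈ Finset.range (cutH d - 2), dmn d l + (EN d).card := by
  rw [EN, Finset.card_filter, ← Finset.sum_add_distrib]
  refine Finset.sum_congr rfl fun l hl => ?_
  rw [Finset.mem_range] at hl
  have h1 := S.dp_diff hH hl
  unfold dmn
  rw [if_pos hl]
  split_ifs with h2
  · rw [min_eq_left h2.le]; omega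
  · rw [min_eq_right (by omega)]; omega

theorem FS.dH : d (cutH d) ≤ 8 ∧ d (cutH d - 2) ≤ 23 := by
  have h1 := S.cut_spec
  set H := cutH d with hHdef
  obtain ⟨h, hh⟩ : ∃ h, H = h + 2 := ⟨H - 2, by omega⟩
  rw [hh] at h1 ⊢
  have e0 : h + 2 - 2 = h := by omega
  rw [e0]
  have a1 := S.hi h
  have a2 := S.hi (h + 1)
  have a3 := S.hi (h + 2)
  have a4 := S.hi (h + 3)
  have a5 := S.anti (show h + 2 + 2 ≤ h + 3 + 2 by omega)
  have e1 : h + 1 + 1 = h + 2 := rfl
  have e2 : h + 1 + 2 = h + 3 := rfl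
  have e3 : h + 2 + 1 = h + 3 := rfl
  have e4 : h + 3 + 1 = h + 2 + 2 := rfl
  rw [e1, e2] at a2
  rw [e3] at a3
  rw [e4] at a4
  omega

theorem FS.dim_G : d 0 ≤ ∑ l ∈ Finset.range (cutH d - 2), dmn d l +
    (min (EM d).card (EN d).card - 1) + 25 := by
  have h1 := S.sum_M hH
  have h2 := S.sum_N hH
  rw [Finset.sum_add_distrib] at h2
  have h3 := S.sum_p hH (cutH d - 2) (by omega)
  have h4 := S.sum_p1 hH (cutH d - 2) (by omega)
  have h5 := S.sum_p2 hH (cutH d - 2) (by omega)
  have h6 := S.dH hH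
  have h7 := S.hi 0
  have h8 := S.lo (cutH d - 2)
  rcases le_total (EM d).card (EN d).card with h9 | h9
  · rw [min_eq_left h9]
    omega
  · rw [min_eq_right h9]
    simp only [zero_add] at h7
    omega

/-- the code attached to an almost Fibonacci sequence -/
theorem FS.code (Mc : ℕ) : ∃ D : Finset (JI Mc → Fin (2 ^ (d 0 + 1))),
    2 ^ ((3 * d 0 - 33) * (Mc * 2) + (d 0 - d 1)) ≤ D.card ∧
      ∀ x ∈ D, ∀ y ∈ D, JCl Mc (fun i => x i = y i) := by
  obtain ⟨msM, msN, DD⟩ := S.exists_MD hH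
  have hp0 : dp d 0 = d 0 - d 1 := by unfold dp; rw [if_pos (by omega)]
  have hp1 : dp d 1 = d 1 - d 2 := by unfold dp; rw [if_pos (by omega)]
  have hl0 := S.lo 0
  have hh0 := S.hi 0
  simp only [zero_add] at hl0 hh0
  have hl1 : d 2 ≤ d 1 := S.anti (by omega)
  have hsumH := S.sum_p hH (cutH d) le_rfl
  have hdH := S.dH hH
  have cM : Fintype.card (SG (cells (dp d) 0 (cutH d))) = 2 ^ (d 0 - d (cutH d)) := by
    rw [MD.card_M, Nat.Ico_zero_eq_range]
    congr 1
    omega
  have cK : (kerY DD.mdl).card * (kerYY DD.mdl).card = 2 ^ (2 * d 0 - d 1 - d 2) := by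
    rw [DD.card_kerY (by omega), DD.card_kerYY hH, ← pow_add, hp0, hp1]
    congr 1
    omega
  have cR : (ranY DD.mdl).card ≤ 2 ^ d 1 := by
    refine DD.card_ranY.trans (Nat.pow_le_pow_right (by norm_num) ?_)
    rw [Nat.Ico_zero_eq_range]
    have := S.sum_p1 hH (cutH d - 1) (by omega)
    omega
  have cG : 2 ^ (d 0 - 25) ≤ (GS DD.mdl).card := by
    refine le_trans (Nat.pow_le_pow_right (by norm_num) ?_) DD.card_GS
    rw [Nat.Ico_zero_eq_range]
    have := S.dim_G hH
    omega
  obtain ⟨D, hD1, hD2⟩ := jcode DD.mdl Mc (Fin (d 0 - d 1) → ZMod 2) (2 ^ (d 0 + 1))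
    (by rw [cM]; exact Nat.pow_le_pow_right (by norm_num) (by omega))
    (by rw [cK]; exact Nat.pow_le_pow_right (by norm_num) (by omega))
    (by
      rw [Fintype.card_fun, ZMod.card, Fintype.card_fin]
      calc 2 ^ (d 0 - d 1) * (ranY DD.mdl).card ≤ 2 ^ (d 0 - d 1) * 2 ^ d 1 :=
            Nat.mul_le_mul_left _ cR
        _ = 2 ^ (d 0 - d 1 + d 1) := by rw [pow_add]
        _ ≤ 2 ^ (d 0 + 1) := Nat.pow_le_pow_right (by norm_num) (by omega))
  refine ⟨D, le_trans ?_ hD1, hD2⟩
  rw [cM, cK, Fintype.card_fun, ZMod.card, Fintype.card_fin, pow_add, pow_mul]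
  refine Nat.mul_le_mul_right _ (Nat.pow_le_pow_left ?_ _)
  calc 2 ^ (3 * d 0 - 33) ≤ 2 ^ ((d 0 - d (cutH d)) + ((d 0 - 25) + (2 * d 0 - d 1 - d 2))) :=
        Nat.pow_le_pow_right (by norm_num) (by omega)
    _ = 2 ^ (d 0 - d (cutH d)) * (2 ^ (d 0 - 25) * 2 ^ (2 * d 0 - d 1 - d 2)) := by
        rw [pow_add, pow_add]
    _ ≤ _ := by gcongr

end

end Run7.h695
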